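import Pool.Agent.S10.EA.Mat
import Pool.Agent.S9.E.Lim

/-!
# Project S10, block E: base change and specialisation for characters
-/

set_option autoImplicit false
set_option linter.unusedSectionVars false

open Finset

namespace Pool.Agent.S10.EA

open Pool.Agent.S9

section One

variable {Γ : Type} [Group Γ] {S : Type} [CommRing S]

/-- the `1 × 1` matrices -/
def m1 (f : Γ →* S) : Γ →* Matrix (Fin 1) (Fin 1) S :=
  ((Matrix.scalar (Fin 1) : S →+* Matrix (Fin 1) (Fin 1) S) : S →* Matrix (Fin 1) (Fin 1) S).comp f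

theorem m1_apply (f : Γ →* S) (g : Γ) (a b : Fin 1) : m1 f g a b = f g := by
  have h : m1 f g = Matrix.diagonal fun _ => f g := rfl
  rw [h, Subsingleton.elim b a, Matrix.diagonal_apply_eq]

theorem mmap_m1 {S' : Type} [CommRing S'] (φ : S →+* S') (f : Γ →* S) :
    mmap φ (m1 f) = m1 ((φ : S →* S').comp f) := by
  refine MonoidHom.ext fun g => ?_
  refine Matrix.ext fun a b => ?_
  rw [mmap_apply, Matrix.map_apply, m1_apply, m1_apply]
  rfl

variable {I : Type}

/-- the monomials of a homomorphism -/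
noncomputable def abR (ab : Γ →* Multiplicative (I → ℤ)) : Γ →* RI I where
  toFun g := ttR (ab g).toAdd
  map_one' := by
    rw [map_one]
    rfl
  map_mul' g h := by
    rw [map_mul, toAdd_mul]
    unfold ttR
    rw [AddMonoidAlgebra.single_mul_single, mul_one]

/-- the substitution in the monomials -/
def subAb (Z : (I → ℤ) →+ (I → ℤ)) (ab : Γ →* Multiplicative (I → ℤ)) :
    Γ →* Multiplicative (I → ℤ) := (AddMonoidHom.toMultiplicative Z).comp ab

theorem abR_apply (ab : Γ →* Multiplicative (I → ℤ)) (g : Γ) : abR ab g = ttR (ab g).toAdd := rfl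

end One

section Lin

variable {W : Type} [Group W] {T T' : Type} {Γ : Subgroup W} {K : Type} [Field K]

/-- a one-dimensional representation as a representation by `1 × 1` matrices -/
theorem zL_m1 (L : T' → W → Finset (T × W)) (f : Γ →* K) (ρ : Γ →* Module.End K K)
    (h : ∀ g x, ρ g x = f g * x) : zL L Γ (mrep (m1 f)) = zL L Γ ρ := by
  let E : (T → W → K) ≃ₗ[K] (T → W → Fin 1 → K) :=
    LinearEquiv.piCongrRight fun _ => LinearEquiv.piCongrRight fun _ =>
      (LinearEquiv.funUnique (Fin 1) K K).symm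
  have hE : ∀ z t w a, E z t w a = z t w := fun _ _ _ _ => rfl
  have hm : ∀ (g : Γ) (x : Fin 1 → K), mrep (m1 f) g x = fun _ => f g * x 0 := by
    intro g x
    funext a
    rw [mrep_apply, Matrix.mulVec, dotProduct, Fin.sum_univ_one, m1_apply]
  unfold zL
  have h1 : ZL L Γ (mrep (m1 f)) = (ZL L Γ ρ).map E.toLinearMap := by
    ext c
    rw [Submodule.mem_map, mem_ZL]
    constructor
    · rintro ⟨h1, h2⟩
      refine ⟨fun t w => c t w 0, mem_ZL.2 ⟨fun t g w => ?_, fun t' w => ?_⟩, ?_⟩
      · rw [h1, hm, h]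
      · have h3 := congrFun (h2 t' w) 0
        rw [Finset.sum_apply] at h3
        exact h3
      · funext t w a
        rw [Subsingleton.elim a 0]
        rfl
    · rintro ⟨z, hz, rfl⟩
      obtain ⟨h1, h2⟩ := mem_ZL.1 hz
      refine ⟨fun t g w => ?_, fun t' w => ?_⟩
      · rw [hm]
        funext a
        show z t (g * w) = f g * z t w
        rw [h1, h]
      · funext a
        rw [Finset.sum_apply]
        exact h2 t' w
  rw [h1]
  exact LinearEquiv.finrank_map_eq E _

end Lin

section Main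

variable {W : Type} [Group W] {T T' : Type} {Γ : Subgroup W} [Γ.Normal] {I : Type}

private theorem ch_apply {K : Type} [Field K] (χ : Γ →* Kˣ) (g : Γ) (x : K) :
    ch χ g x = (χ g : K) * x := by
  unfold ch tw
  rfl

/-- the character over the ring -/
private theorem zL_chi [Fintype T] [Fintype (W ⧸ Γ)] (L : T' → W → Finset (T × W)) (hL : LInv L Γ)
    (ab : Γ →* Multiplicative (I → ℤ)) (χ : Γ →* (KI I)ˣ)
    (hχ : ∀ g, (χ g : KI I) = tt (ab g).toAdd) :
    zL L Γ (ch χ) + ((BL L (m1 (abR ab))).map (algebraMap (RI I) (KI I))).rank =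
      Fintype.card (T × (W ⧸ Γ) × Fin 1) := by
  rw [BL_map, mmap_m1, ← zL_m1 L (((algebraMap (RI I) (KI I) : RI I →+* KI I) : RI I →* KI I).comp
    (abR ab)) (ch χ) fun g x => ?_]
  · exact zL_add_rank hL _
  · rw [ch_apply, hχ]
    rfl

/-- **Base change**: an injective substitution does not change the dimension -/
theorem zL_base' [Finite T] [Finite T'] [Finite (W ⧸ Γ)] [Finite I] (L : T' → W → Finset (T × W))
    (hL : LInv L Γ) (ab : Γ →* Multiplicative (I → ℤ)) (Z : (I → ℤ) →+ (I → ℤ))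
    (hZ : Function.Injective Z) (χ χ' : Γ →* (KI I)ˣ) (hχ : ∀ g, (χ g : KI I) = tt (ab g).toAdd)
    (hχ' : ∀ g, (χ' g : KI I) = tt (Z (ab g).toAdd)) :
    zL L Γ (ch χ') = zL L Γ (ch χ) := by
  classical
  have : Fintype T := Fintype.ofFinite T
  have : Fintype T' := Fintype.ofFinite T'
  have : Fintype (W ⧸ Γ) := Fintype.ofFinite _
  have : Fintype I := Fintype.ofFinite I
  have h1 := zL_chi L hL ab χ hχ
  have h2 := zL_chi L hL ((AddMonoidHom.toMultiplicative Z).comp ab) χ' hχ'
  have h3 : m1 (abR ((AddMonoidHom.toMultiplicative Z).comp ab)) = mmap (subR Z) (m1 (abR ab)) := by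
    rw [mmap_m1]
    congr 1
    refine MonoidHom.ext fun g => ?_
    show ttR (Z (ab g).toAdd) = subR Z (ttR (ab g).toAdd)
    unfold subR ttR
    exact AddMonoidAlgebra.mapDomain_single.symm
  rw [h3, ← BL_map, rank_sub Z hZ] at h2
  omega

/-- **Specialisation** at `1` -/
theorem zL_spec' [Finite T] [Finite T'] [Finite (W ⧸ Γ)] [Finite I] (L : T' → W → Finset (T × W))
    (hL : LInv L Γ) (ab : Γ →* Multiplicative (I → ℤ)) (χ : Γ →* (KI I)ˣ)
    (hχ : ∀ g, (χ g : KI I) = tt (ab g).toAdd) : zL L Γ (ch χ) ≤ z1 L Γ := by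
  classical
  have : Fintype T := Fintype.ofFinite T
  have : Fintype T' := Fintype.ofFinite T'
  have : Fintype (W ⧸ Γ) := Fintype.ofFinite _
  have : Fintype I := Fintype.ofFinite I
  have h1 := zL_chi L hL ab χ hχ
  have h2 := zL_add_rank hL (m1 (1 : Γ →* ZMod 2))
  have h3 : m1 (1 : Γ →* ZMod 2) = mmap (augR I) (m1 (abR ab)) := by
    rw [mmap_m1]
    congr 1
    refine MonoidHom.ext fun g => ?_
    show 1 = augR I (ttR (ab g).toAdd)
    unfold augR ttR
    rw [AddMonoidAlgebra.liftNCRingHom_single, map_one, MonoidHom.one_apply, mul_one]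
  have h4 : zL L Γ (mrep (m1 (1 : Γ →* ZMod 2))) = z1 L Γ :=
    zL_m1 L (1 : Γ →* ZMod 2) 1 fun g x => by
      rw [MonoidHom.one_apply, MonoidHom.one_apply, one_mul]
      rfl
  have h5 := rank_spec (augR I) (BL L (m1 (abR ab)))
  rw [h4, h3, ← BL_map] at h2
  omega

/-- specialisation for the character of `ab` -/
theorem zL_spec_ab [Finite T] [Finite T'] [Finite (W ⧸ Γ)] [Finite I] (L : T' → W → Finset (T × W))
    (hL : LInv L Γ) (ab : Γ →* Multiplicative (I → ℤ)) : zL L Γ (ch (chiab ab)) ≤ z1 L Γ :=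
  zL_spec' L hL ab (chiab ab) (chiab_coe ab)

/-- base change along an injective endomorphism of the lattice -/
theorem zL_base [Finite T] [Finite T'] [Γ.FiniteIndex] [Finite I] {L : T' → W → Finset (T × W)}
    (hL : LInv L Γ) (ab : Γ →* Multiplicative (I → ℤ)) (Z : (I → ℤ) →+ (I → ℤ))
    (hZ : Function.Injective Z) : zL L Γ (ch (chiab (subAb Z ab))) = zL L Γ (ch (chiab ab)) :=
  zL_base' L hL ab Z hZ (chiab ab) (chiab (subAb Z ab)) (chiab_coe ab) fun _ => rfl

/-- specialisation `t = 1` -/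
theorem zL_spec [Finite T] [Finite T'] [Γ.FiniteIndex] [Finite I] {L : T' → W → Finset (T × W)}
    (hL : LInv L Γ) (ab : Γ →* Multiplicative (I → ℤ)) : zL L Γ (ch (chiab ab)) ≤ z1 L Γ :=
  zL_spec_ab L hL ab

end Main

end Pool.Agent.S10.EA
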