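import Pool.Agent.S10.EA.Mat
import Pool.Agent.S9.E.Lim
import Pool.Agent.S9.E.Red

/-!
# Project S10, block E: the Hilbert-Kunz limit
-/

set_option autoImplicit false
set_option linter.unusedSectionVars false

open Finset

namespace Pool.Agent.S10.EA

open Pool.Agent.S9

variable {W : Type} [Group W] {T T' : Type} {I : Type} [Fintype I] {n : ℕ}

/-- **The Hilbert-Kunz limit**: the dimensions of the solutions over the group rings of `(ℤ/2^k)^I` -/
theorem box [Finite T] [Finite T'] {L : T' → W → Finset (T × W)} {Γ : Subgroup W} [Γ.Normal]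
    [Finite (W ⧸ Γ)] (hL : LInv L Γ) (μ : Γ →* Matrix (Fin n) (Fin n) (RI I)) (ε : ℝ) (hε : 0 < ε) :
    ∃ k₀ : ℕ, ∀ k ≥ k₀,
      (Module.finrank (ZMod 2) (ZL L Γ (mrep2 (mmap (redR I k) μ))) : ℝ) ≤
        ((zL L Γ (mrep (mmap (algebraMap (RI I) (KI I)) μ)) : ℝ) + ε) * 2 ^ (k * Fintype.card I) := by
  classical
  have : Fintype T := Fintype.ofFinite T
  have : Fintype T' := Fintype.ofFinite T'
  have : Fintype (W ⧸ Γ) := Fintype.ofFinite _
  obtain ⟨k₀, h₀⟩ := rank_lim (BL L μ) ε hε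
  refine ⟨k₀, fun k hk => ?_⟩
  have h1 := h₀ k hk
  have hfin : Finite (RK I k) := finite_RK k
  have h2 := zL2_add_rank (S := RK I k) hL (mmap (redR I k) μ)
  have h3 := zL_add_rank hL (mmap (algebraMap (RI I) (KI I)) μ)
  rw [BL_map] at h1
  rw [BL_map] at h1
  rw [finrank_RK (I := I) k] at h2
  have h4 : (Module.finrank (ZMod 2) (ZL L Γ (mrep2 (mmap (redR I k) μ))) : ℝ) +
      (Module.finrank (ZMod 2) (LinearMap.range
        ((BL L (mmap (redR I k) μ)).mulVecLin.restrictScalars (ZMod 2))) : ℝ) =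
      (Fintype.card (T × (W ⧸ Γ) × Fin n) : ℝ) * 2 ^ (k * Fintype.card I) := by
    exact_mod_cast h2
  have h5 : (zL L Γ (mrep (mmap (algebraMap (RI I) (KI I)) μ)) : ℝ) +
      ((BL L (mmap (algebraMap (RI I) (KI I)) μ)).rank : ℝ) =
      (Fintype.card (T × (W ⧸ Γ) × Fin n) : ℝ) := by exact_mod_cast h3
  rw [← h5] at h4
  nlinarith [h1, h4]

end Pool.Agent.S10.EA
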