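import Pool.Agent.S10.EA.Defs
import Pool.Agent.S9.E.Defs
import Pool.Agent.S9.E.Den

/-!
# Project S10, block E: triangular representations of finitely generated groups over the Laurent ring
-/

set_option autoImplicit false
set_option linter.unusedSectionVars false

open Finset

namespace Pool.Agent.S10.EA

open Pool.Agent.S9

/-- the entries of the new matrix -/
private theorem ent {R K : Type} [CommRing R] [IsDomain R] [Field K] [Algebra R K] [IsFractionRing R K] {n : ℕ}
    {d : K} {A : Matrix (Fin n) (Fin n) K} {A' : Matrix (Fin n) (Fin n) R}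
    (h : dg d * A'.map (algebraMap R K) = A * dg d) (a b : Fin n) :
    d ^ (a : ℕ) * algebraMap R K (A' a b) = A a b * d ^ (b : ℕ) := by
  have h1 := congrFun (congrFun h a) b
  unfold dg at h1
  rwa [Matrix.diagonal_mul, Matrix.mul_diagonal, Matrix.map_apply] at h1

/-- **Lattices, general form**: a triangular representation of a finitely generated group over the fraction field `K`
with diagonal entries in `R` becomes integral after conjugation with a diagonal matrix `dg d`. -/
theorem lat_gen {R K : Type} [CommRing R] [IsDomain R] [Field K] [Algebra R K] [IsFractionRing R K]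
    {Γ : Type} [Group Γ] (hfg : Group.FG Γ) {n : ℕ} (μ : Γ →* Matrix (Fin n) (Fin n) K)
    (htri : ∀ g a b, b < a → μ g a b = 0) (u : Γ → Fin n → R)
    (hu : ∀ g a, μ g a a = algebraMap R K (u g a)) :
    ∃ d : R, d ≠ 0 ∧ ∃ μ' : Γ →* Matrix (Fin n) (Fin n) R,
      (∀ g a b, b < a → μ' g a b = 0) ∧ (∀ g a, μ' g a a = u g a) ∧
      ∀ g, dg (algebraMap R K d) * (μ' g).map (algebraMap R K) = μ g * dg (algebraMap R K d) := by
  classical
  obtain ⟨S, hS⟩ := hfg.out
  -- the generators and their inverses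
  obtain ⟨d, hd0, c', -, -, h3⟩ := exists_den (R := R) (K := K) (ι := {x // x ∈ S} × Bool)
    (fun x => μ (if x.2 then (x.1 : Γ) else (x.1 : Γ)⁻¹)) (fun x a b hab => htri _ a b hab)
    (fun x a => u _ a) (fun x a => hu _ a)
  have hdK : algebraMap R K d ≠ 0 := by
    intro h0
    exact hd0 ((IsFractionRing.injective R K) (h0.trans (map_zero _).symm))
  have key : ∀ g : Γ, ∃ A' : Matrix (Fin n) (Fin n) R,
      dg (algebraMap R K d) * A'.map (algebraMap R K) = μ g * dg (algebraMap R K d) := by
    intro g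
    have hg : g ∈ Subgroup.closure (S : Set Γ) := by
      rw [hS]
      exact Subgroup.mem_top g
    induction hg using Subgroup.closure_induction'' with
    | mem x hx =>
      refine ⟨c' (⟨x, hx⟩, true), ?_⟩
      have h4 := h3 (⟨x, hx⟩, true)
      simpa using h4
    | inv_mem x hx =>
      refine ⟨c' (⟨x, hx⟩, false), ?_⟩
      have h4 := h3 (⟨x, hx⟩, false)
      simpa using h4
    | one => exact ⟨1, by rw [map_one]; exact den_one _⟩
    | mul x y _ _ hx hy =>
      obtain ⟨A, hA⟩ := hx
      obtain ⟨B, hB⟩ := hy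
      exact ⟨A * B, by rw [map_mul]; exact den_mul hA hB⟩
  choose f hf using key
  refine ⟨d, hd0, ⟨⟨f, ?_⟩, ?_⟩, ?_, ?_, ?_⟩
  · exact den_inj hdK (hf 1) (by rw [map_one]; exact den_one _)
  · intro g h
    exact den_inj hdK (hf (g * h)) (by rw [map_mul]; exact den_mul (hf g) (hf h))
  · intro g a b hab
    have h4 := ent (hf g) a b
    rw [htri g a b hab, zero_mul] at h4
    have h5 : algebraMap R K (f g a b) = 0 := (mul_eq_zero.1 h4).resolve_left (pow_ne_zero _ hdK)
    exact (IsFractionRing.injective R K) (h5.trans (map_zero _).symm)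
  · intro g a
    have h4 := ent (hf g) a a
    rw [hu, mul_comm] at h4
    exact (IsFractionRing.injective R K) (mul_right_cancel₀ (pow_ne_zero _ hdK) h4)
  · exact hf

/-- **Lattices**: a triangular representation of a finitely generated group over the field `KI I` with monomials on
the diagonal comes from the Laurent ring. -/
theorem lat {Γ : Type} [Group Γ] (hfg : Group.FG Γ) {I : Type} [Fintype I] {n : ℕ}
    (μ : Γ →* Matrix (Fin n) (Fin n) (KI I)) (htri : ∀ g a b, b < a → μ g a b = 0)
    (w : Γ → Fin n → I → ℤ) (hw : ∀ g a, μ g a a = tt (w g a)) :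
    ∃ d : RI I, d ≠ 0 ∧ ∃ μ' : Γ →* Matrix (Fin n) (Fin n) (RI I),
      (∀ g a b, b < a → μ' g a b = 0) ∧ (∀ g a, μ' g a a = ttR (w g a)) ∧
      ∀ g, dg (algebraMap (RI I) (KI I) d) * (μ' g).map (algebraMap (RI I) (KI I)) =
        μ g * dg (algebraMap (RI I) (KI I) d) :=
  lat_gen hfg μ htri (fun g a => ttR (w g a)) hw

/-- a triangular representation over the field with monomials on the diagonal is conjugate to one over the ring -/
theorem exists_lat {Γ : Type} [Group Γ] [Group.FG Γ] {I : Type} [Fintype I] {n : ℕ}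
    (μ : Γ →* Matrix (Fin n) (Fin n) (KI I)) (hμ : UTri μ) (w : Γ → Fin n → I → ℤ)
    (hw : ∀ g a, μ g a a = tt (w g a)) :
    ∃ (u : Fin n → KI I) (μ' : Γ →* Matrix (Fin n) (Fin n) (RI I)), (∀ a, u a ≠ 0) ∧ UTri μ' ∧
      (∀ g a, μ' g a a = ttR (w g a)) ∧
      ∀ g a b, mmap (algebraMap (RI I) (KI I)) μ' g a b * u b = u a * μ g a b := by
  obtain ⟨d, hd0, μ', h1, h2, h3⟩ := lat ‹_› μ hμ w hw
  have hdK : algebraMap (RI I) (KI I) d ≠ 0 := by
    intro h0
    exact hd0 ((IsFractionRing.injective (RI I) (KI I)) (h0.trans (map_zero _).symm))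
  refine ⟨fun a => (algebraMap (RI I) (KI I) d ^ (a : ℕ))⁻¹, μ', fun a => inv_ne_zero (pow_ne_zero _ hdK), h1, h2,
    fun g a b => ?_⟩
  have h4 := ent (h3 g) a b
  have ha : algebraMap (RI I) (KI I) d ^ (a : ℕ) ≠ 0 := pow_ne_zero _ hdK
  have hb : algebraMap (RI I) (KI I) d ^ (b : ℕ) ≠ 0 := pow_ne_zero _ hdK
  rw [mmap_apply, Matrix.map_apply, eq_inv_mul_iff_mul_eq₀ ha, ← mul_assoc, h4, mul_inv_cancel_right₀ hb]

end Pool.Agent.S10.EA
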