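import Pool.Agent.S10.EA.Defs

/-!
# Project S10, block E: triangular coefficients

Finite dimension of the solutions, subadditivity for an extension of coefficients, and for triangular matrix
representations; equality implies that the solutions of the quotient lift.
-/

set_option autoImplicit false
set_option linter.unusedSectionVars false

open Finset

namespace Pool.Agent.S10.EA

open Pool.Agent.S9

variable {W : Type} [Group W] {T T' : Type} {K : Type} [Field K]

section Fin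

variable {N : Type} [AddCommGroup N] [Module K N]

/-- the values at the representatives of the cosets -/
private noncomputable def Sub_ev (K : Type) [Field K] (T : Type) (Γ : Subgroup W) (N : Type) [AddCommGroup N]
    [Module K N] : (T → W → N) →ₗ[K] (T → (W ⧸ Γ) → N) where
  toFun c t q := c t (Quotient.out q)⁻¹
  map_add' _ _ := rfl
  map_smul' _ _ := rfl

private theorem Sub_ev_inj {L : T' → W → Finset (T × W)} {Γ : Subgroup W} {ρ : Γ →* Module.End K N}
    {c : T → W → N} (hc : c ∈ ZL L Γ ρ) (h : Sub_ev K T Γ N c = 0) : c = 0 := by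
  funext t w
  have h1 : ((Quotient.out ((w⁻¹ : W) : W ⧸ Γ) : W) : W ⧸ Γ) = ((w⁻¹ : W) : W ⧸ Γ) :=
    QuotientGroup.out_eq' _
  rw [QuotientGroup.eq] at h1
  -- `(out)⁻¹ * w⁻¹ ∈ Γ`
  have h2 : ((Quotient.out ((w⁻¹ : W) : W ⧸ Γ) : W)⁻¹ * w⁻¹)⁻¹ ∈ Γ := Γ.inv_mem h1
  have h3 : w = ((Quotient.out ((w⁻¹ : W) : W ⧸ Γ) : W)⁻¹ * w⁻¹)⁻¹ *
      (Quotient.out ((w⁻¹ : W) : W ⧸ Γ) : W)⁻¹ := by
    group
  have h4 := hc.1 t ⟨_, h2⟩ (Quotient.out ((w⁻¹ : W) : W ⧸ Γ) : W)⁻¹
  have h5 : c t (Quotient.out ((w⁻¹ : W) : W ⧸ Γ) : W)⁻¹ = 0 := congrFun (congrFun h t) _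
  rw [h5, map_zero] at h4
  have h6 : ((⟨_, h2⟩ : Γ) : W) * (Quotient.out ((w⁻¹ : W) : W ⧸ Γ) : W)⁻¹ = w := h3.symm
  rw [h6] at h4
  exact h4

/-- the solutions are finite dimensional -/
theorem ZL_finite [Finite T] (L : T' → W → Finset (T × W)) (Γ : Subgroup W) [Finite (W ⧸ Γ)]
    [FiniteDimensional K N] (ρ : Γ →* Module.End K N) : FiniteDimensional K (ZL L Γ ρ) := by
  have h : Function.Injective ((Sub_ev K T Γ N).domRestrict (ZL L Γ ρ)) := by
    rw [← LinearMap.ker_eq_bot, LinearMap.ker_eq_bot']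
    intro c hc
    exact Subtype.ext (Sub_ev_inj c.2 hc)
  exact Module.Finite.of_injective _ h

end Fin

section Ext

variable {N N' N'' : Type} [AddCommGroup N] [Module K N] [AddCommGroup N'] [Module K N'] [AddCommGroup N'']
  [Module K N'']

/-- composition with a linear map of the coefficients -/
def cmp (K T W : Type) [Field K] {N N'' : Type} [AddCommGroup N] [Module K N] [AddCommGroup N''] [Module K N'']
    (f : N →ₗ[K] N'') : (T → W → N) →ₗ[K] (T → W → N'') where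
  toFun c t w := f (c t w)
  map_add' c c' := by
    funext t w
    exact map_add f _ _
  map_smul' a c := by
    funext t w
    exact map_smul f _ _

theorem cmp_apply (f : N →ₗ[K] N'') (c : T → W → N) (t : T) (w : W) : cmp K T W f c t w = f (c t w) := rfl

theorem cmp_mem {L : T' → W → Finset (T × W)} {Γ : Subgroup W} {ρ : Γ →* Module.End K N}
    {ρ'' : Γ →* Module.End K N''} (f : N →ₗ[K] N'') (hf : ∀ g y, f (ρ g y) = ρ'' g (f y)) {c : T → W → N}
    (hc : c ∈ ZL L Γ ρ) : cmp K T W f c ∈ ZL L Γ ρ'' := by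
  refine ⟨fun t g w => ?_, fun t' w => ?_⟩
  · rw [cmp_apply, cmp_apply, hc.1, hf]
  · simp only [cmp_apply]
    rw [← map_sum, hc.2, map_zero]

private theorem Sub_main [Finite T] {L : T' → W → Finset (T × W)} {Γ : Subgroup W} [Finite (W ⧸ Γ)]
    [FiniteDimensional K N] [FiniteDimensional K N'] [FiniteDimensional K N'']
    {ρ : Γ →* Module.End K N} {ρ' : Γ →* Module.End K N'} {ρ'' : Γ →* Module.End K N''}
    (f : N →ₗ[K] N'') (hf : ∀ g y, f (ρ g y) = ρ'' g (f y)) (j : N' →ₗ[K] N)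
    (hj : Function.Injective j) (hjr : ∀ g y, j (ρ' g y) = ρ g (j y)) (he : ∀ y, f y = 0 → ∃ x, j x = y) :
    zL L Γ ρ ≤ Module.finrank K (LinearMap.range (((cmp K T W f).domRestrict (ZL L Γ ρ)).codRestrict (ZL L Γ ρ'')
      fun c => cmp_mem f hf c.2)) + zL L Γ ρ' := by
  have _ := ZL_finite (K := K) L Γ ρ
  have _ := ZL_finite (K := K) L Γ ρ'
  have _ := ZL_finite (K := K) L Γ ρ''
  let g : ZL L Γ ρ →ₗ[K] ZL L Γ ρ'' := ((cmp K T W f).domRestrict (ZL L Γ ρ)).codRestrict (ZL L Γ ρ'')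
      fun c => cmp_mem f hf c.2
  have e := LinearMap.finrank_range_add_finrank_ker g
  let i : ZL L Γ ρ' →ₗ[K] ZL L Γ ρ := ((cmp K T W j).domRestrict (ZL L Γ ρ')).codRestrict (ZL L Γ ρ)
      fun c => cmp_mem j hjr c.2
  have hk : LinearMap.ker g ≤ LinearMap.range i := by
    intro c hc
    have h1 : ∀ t w, f (c.1 t w) = 0 := fun t w => congrFun (congrFun (congrArg Subtype.val hc) t) w
    have h2 : ∀ t w, ∃ x, j x = c.1 t w := fun t w => he _ (h1 t w)
    choose d hd using h2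
    refine ⟨⟨d, ?_, ?_⟩, ?_⟩
    · intro t γ w
      apply hj
      rw [hjr, hd, hd]
      exact c.2.1 t γ w
    · intro t' w
      apply hj
      rw [map_sum, map_zero]
      simp only [hd]
      exact c.2.2 t' w
    · apply Subtype.ext
      funext t w
      exact hd t w
  have h3 : Module.finrank K (LinearMap.ker g) ≤ zL L Γ ρ' :=
    (Submodule.finrank_mono hk).trans (LinearMap.finrank_range_le i)
  have h4 : Module.finrank K (LinearMap.range g) = Module.finrank K (LinearMap.range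
    (((cmp K T W f).domRestrict (ZL L Γ ρ)).codRestrict (ZL L Γ ρ'') fun c => cmp_mem f hf c.2)) := rfl
  have h5 : zL L Γ ρ = Module.finrank K (ZL L Γ ρ) := rfl
  omega

/-- **Subadditivity for an extension of the coefficients.** -/
theorem zL_ext [Finite T] (L : T' → W → Finset (T × W)) (Γ : Subgroup W) [Finite (W ⧸ Γ)]
    [FiniteDimensional K N] [FiniteDimensional K N'] [FiniteDimensional K N'']
    {ρ : Γ →* Module.End K N} {ρ' : Γ →* Module.End K N'} {ρ'' : Γ →* Module.End K N''}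
    (f : N →ₗ[K] N'') (hf : ∀ g y, f (ρ g y) = ρ'' g (f y)) (j : N' →ₗ[K] N)
    (hj : Function.Injective j) (hjr : ∀ g y, j (ρ' g y) = ρ g (j y)) (he : ∀ y, f y = 0 → ∃ x, j x = y) :
    zL L Γ ρ ≤ zL L Γ ρ' + zL L Γ ρ'' := by
  have _ := ZL_finite (K := K) L Γ ρ''
  have h1 := Sub_main (L := L) f hf j hj hjr he
  have h2 : Module.finrank K (LinearMap.range (((cmp K T W f).domRestrict (ZL L Γ ρ)).codRestrict (ZL L Γ ρ'')
      fun c => cmp_mem f hf c.2)) ≤ zL L Γ ρ'' := Submodule.finrank_le _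
  omega

/-- **Equality in the subadditivity: the solutions of the quotient lift.** -/
theorem lift_ext [Finite T] (L : T' → W → Finset (T × W)) (Γ : Subgroup W) [Finite (W ⧸ Γ)]
    [FiniteDimensional K N] [FiniteDimensional K N'] [FiniteDimensional K N'']
    {ρ : Γ →* Module.End K N} {ρ' : Γ →* Module.End K N'} {ρ'' : Γ →* Module.End K N''}
    (f : N →ₗ[K] N'') (hf : ∀ g y, f (ρ g y) = ρ'' g (f y)) (j : N' →ₗ[K] N)
    (hj : Function.Injective j) (hjr : ∀ g y, j (ρ' g y) = ρ g (j y)) (he : ∀ y, f y = 0 → ∃ x, j x = y)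
    (heq : zL L Γ ρ' + zL L Γ ρ'' ≤ zL L Γ ρ) {c₀ : T → W → N''} (hc₀ : c₀ ∈ ZL L Γ ρ'') :
    ∃ c ∈ ZL L Γ ρ, ∀ t w, f (c t w) = c₀ t w := by
  have _ := ZL_finite (K := K) L Γ ρ''
  have h1 := Sub_main (L := L) f hf j hj hjr he
  have h7 : LinearMap.range (((cmp K T W f).domRestrict (ZL L Γ ρ)).codRestrict (ZL L Γ ρ'')
      fun c => cmp_mem f hf c.2) = ⊤ := by
    apply Submodule.eq_top_of_finrank_eq
    refine le_antisymm (Submodule.finrank_le _) ?_
    have h5 : zL L Γ ρ'' = Module.finrank K (ZL L Γ ρ'') := rfl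
    omega
  obtain ⟨c, hc⟩ := LinearMap.range_eq_top.1 h7 ⟨c₀, hc₀⟩
  refine ⟨c.1, c.2, fun t w => ?_⟩
  exact congrFun (congrFun (congrArg Subtype.val hc) t) w

end Ext

section Tri

/-- the upper left block -/
private def Sub_blk {n : ℕ} {Γ : Type} [Group Γ] (μ : Γ →* Matrix (Fin (n + 1)) (Fin (n + 1)) K) (hU : UTri μ) :
    Γ →* Matrix (Fin n) (Fin n) K where
  toFun g := Matrix.of fun a b => μ g a.castSucc b.castSucc
  map_one' := by
    ext a b
    rw [Matrix.of_apply, map_one, Matrix.one_apply, Matrix.one_apply]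
    simp only [Fin.castSucc_inj]
  map_mul' g h := by
    ext a b
    rw [Matrix.of_apply, map_mul, Matrix.mul_apply, Matrix.mul_apply, Fin.sum_univ_castSucc]
    have h1 : μ h (Fin.last n) b.castSucc = 0 := hU h _ _ (Fin.castSucc_lt_last b)
    rw [h1, mul_zero, add_zero]
    rfl

private theorem Sub_blk_tri {n : ℕ} {Γ : Type} [Group Γ] (μ : Γ →* Matrix (Fin (n + 1)) (Fin (n + 1)) K)
    (hU : UTri μ) : UTri (Sub_blk μ hU) := fun g _ _ h => hU g _ _ (Fin.castSucc_lt_castSucc_iff.2 h)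

/-- the inclusion of the first coordinates -/
private def Sub_inc (K : Type) [Field K] (n : ℕ) : (Fin n → K) →ₗ[K] (Fin (n + 1) → K) where
  toFun x := Fin.snoc x 0
  map_add' x y := by
    funext a
    refine Fin.lastCases ?_ (fun b => ?_) a
    · simp only [Pi.add_apply, Fin.snoc_last, add_zero]
    · simp only [Pi.add_apply, Fin.snoc_castSucc]
  map_smul' c x := by
    funext a
    refine Fin.lastCases ?_ (fun b => ?_) a
    · simp only [Pi.smul_apply, Fin.snoc_last, smul_zero]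
    · simp only [Pi.smul_apply, Fin.snoc_castSucc, RingHom.id_apply]

private theorem Sub_inc_last (n : ℕ) (x : Fin n → K) : Sub_inc K n x (Fin.last n) = 0 :=
  Fin.snoc_last (α := fun _ => K) 0 x

private theorem Sub_inc_cast (n : ℕ) (x : Fin n → K) (a : Fin n) : Sub_inc K n x a.castSucc = x a :=
  Fin.snoc_castSucc (α := fun _ => K) 0 x a

private theorem Sub_inc_inj (n : ℕ) : Function.Injective (Sub_inc K n) := by
  intro x y h
  funext a
  rw [← Sub_inc_cast n x a, h, Sub_inc_cast]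

private theorem Sub_inc_eq {n : ℕ} {Γ : Type} [Group Γ] (μ : Γ →* Matrix (Fin (n + 1)) (Fin (n + 1)) K)
    (hU : UTri μ) (g : Γ) (y : Fin n → K) :
    Sub_inc K n (mrep (Sub_blk μ hU) g y) = mrep μ g (Sub_inc K n y) := by
  funext a
  rw [mrep_apply, mrep_apply]
  refine Fin.lastCases ?_ (fun b => ?_) a
  · rw [Sub_inc_last, Matrix.mulVec, dotProduct, Fin.sum_univ_castSucc, Sub_inc_last, mul_zero, add_zero]
    symm
    refine Finset.sum_eq_zero fun i _ => ?_
    rw [hU g _ _ (Fin.castSucc_lt_last i), zero_mul]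
  · rw [Sub_inc_cast, Matrix.mulVec, dotProduct, Matrix.mulVec, dotProduct, Fin.sum_univ_castSucc,
      Sub_inc_last, mul_zero, add_zero]
    refine Finset.sum_congr rfl fun i _ => ?_
    rw [Sub_inc_cast]
    rfl

/-- the last coordinate -/
private def Sub_lst (K : Type) [Field K] (n : ℕ) : (Fin (n + 1) → K) →ₗ[K] K := LinearMap.proj (Fin.last n)

private theorem ch_apply {Γ : Type} [Group Γ] (χ : Γ →* Kˣ) (g : Γ) (y : K) : ch χ g y = (χ g : K) * y := by
  show ((χ g : K) • (1 : Γ →* Module.End K K) g) y = _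
  rw [MonoidHom.one_apply, LinearMap.smul_apply, Module.End.one_apply, smul_eq_mul]

private theorem Sub_lst_eq {n : ℕ} {Γ : Type} [Group Γ] (μ : Γ →* Matrix (Fin (n + 1)) (Fin (n + 1)) K)
    (hU : UTri μ) (χ : Γ →* Kˣ) (hχ : ∀ g, μ g (Fin.last n) (Fin.last n) = (χ g : K)) (g : Γ)
    (y : Fin (n + 1) → K) : Sub_lst K n (mrep μ g y) = ch χ g (Sub_lst K n y) := by
  rw [ch_apply, mrep_apply]
  show (μ g).mulVec y (Fin.last n) = (χ g : K) * y (Fin.last n)
  rw [Matrix.mulVec, dotProduct, Fin.sum_univ_castSucc, hχ]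
  have h1 : ∑ i : Fin n, μ g (Fin.last n) i.castSucc * y i.castSucc = 0 :=
    Finset.sum_eq_zero fun i _ => by rw [hU g _ _ (Fin.castSucc_lt_last i), zero_mul]
  rw [h1, zero_add]

private theorem Sub_exact (n : ℕ) (y : Fin (n + 1) → K) (h : Sub_lst K n y = 0) : ∃ x, Sub_inc K n x = y := by
  refine ⟨fun a => y a.castSucc, ?_⟩
  funext a
  refine Fin.lastCases ?_ (fun b => ?_) a
  · rw [Sub_inc_last]
    exact h.symm
  · rw [Sub_inc_cast]

private theorem Sub_le [Finite T] (L : T' → W → Finset (T × W)) (Γ : Subgroup W) [Finite (W ⧸ Γ)] : ∀ {n : ℕ}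
    (μ : Γ →* Matrix (Fin n) (Fin n) K) (_ : UTri μ) (χ : Fin n → Γ →* Kˣ)
    (_ : ∀ a g, μ g a a = (χ a g : K)), zL L Γ (mrep μ) ≤ ∑ a, zL L Γ (ch (χ a))
  | 0, μ, _, χ, _ => by
    have h1 : ZL L Γ (mrep μ) = ⊥ := (Submodule.eq_bot_iff _).2 fun c _ => by
      funext t w a
      exact a.elim0
    have h2 : zL L Γ (mrep μ) = 0 := by
      unfold zL
      rw [h1, finrank_bot]
    rw [h2]
    exact Nat.zero_le _
  | n + 1, μ, hU, χ, hχ => by
    have ih := Sub_le L Γ (Sub_blk μ hU) (Sub_blk_tri μ hU) (fun a => χ a.castSucc)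
      fun a g => hχ a.castSucc g
    have h1 := zL_ext (K := K) L Γ (Sub_lst K n) (Sub_lst_eq μ hU (χ (Fin.last n)) (hχ (Fin.last n)))
      (Sub_inc K n) (Sub_inc_inj n) (Sub_inc_eq μ hU) (Sub_exact n)
    rw [Fin.sum_univ_castSucc]
    omega

private theorem Sub_lift [Finite T] (L : T' → W → Finset (T × W)) (Γ : Subgroup W) [Finite (W ⧸ Γ)] {n : ℕ}
    (μ : Γ →* Matrix (Fin (n + 1)) (Fin (n + 1)) K) (hU : UTri μ) (χ : Fin (n + 1) → Γ →* Kˣ)
    (hχ : ∀ a g, μ g a a = (χ a g : K)) (heq : ∑ a, zL L Γ (ch (χ a)) ≤ zL L Γ (mrep μ))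
    (c₀ : T → W → K) (hc₀ : c₀ ∈ ZL L Γ (ch (χ (Fin.last n)))) :
    ∃ c ∈ ZL L Γ (mrep μ), ∀ t w, c t w (Fin.last n) = c₀ t w := by
  have ih := Sub_le L Γ (Sub_blk μ hU) (Sub_blk_tri μ hU) (fun a => χ a.castSucc)
    fun a g => hχ a.castSucc g
  rw [Fin.sum_univ_castSucc] at heq
  exact lift_ext (K := K) L Γ (Sub_lst K n) (Sub_lst_eq μ hU (χ (Fin.last n)) (hχ (Fin.last n)))
    (Sub_inc K n) (Sub_inc_inj n) (Sub_inc_eq μ hU) (Sub_exact n) (by omega) hc₀

variable {n : ℕ}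

/-- **Subadditivity for triangular matrix representations.** -/
theorem zL_le [Finite T] (L : T' → W → Finset (T × W)) {Γ : Subgroup W} [Γ.FiniteIndex]
    (μ : Γ →* Matrix (Fin n) (Fin n) K) (hμ : UTri μ) (lam : Fin n → Γ →* Kˣ)
    (hlam : ∀ g a, μ g a a = lam a g) :
    zL L Γ (mrep μ) ≤ ∑ a, zL L Γ (ch (lam a)) := Sub_le L Γ μ hμ lam fun a g => hlam g a

/-- **Equality implies that the last coordinate is surjective.** -/
theorem lift_of_eq [Finite T] (L : T' → W → Finset (T × W)) {Γ : Subgroup W} [Γ.FiniteIndex]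
    (μ : Γ →* Matrix (Fin (n + 1)) (Fin (n + 1)) K) (hμ : UTri μ) (lam : Fin (n + 1) → Γ →* Kˣ)
    (hlam : ∀ g a, μ g a a = lam a g)
    (heq : zL L Γ (mrep μ) = ∑ a, zL L Γ (ch (lam a)))
    (c₀ : T → W → K) (hc₀ : c₀ ∈ ZL L Γ (ch (lam (Fin.last n)))) :
    ∃ c ∈ ZL L Γ (mrep μ), ∀ t w, c t w (Fin.last n) = c₀ t w :=
  Sub_lift L Γ μ hμ lam (fun a g => hlam g a) heq.ge c₀ hc₀

/-- the module with the same matrices in another basis -/
theorem zL_equiv (L : T' → W → Finset (T × W)) {Γ : Subgroup W}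
    {N N' : Type} [AddCommGroup N] [Module K N] [AddCommGroup N'] [Module K N'] (ρ : Γ →* Module.End K N)
    (ρ' : Γ →* Module.End K N') (e : N ≃ₗ[K] N') (he : ∀ g x, e (ρ g x) = ρ' g (e x)) :
    zL L Γ ρ = zL L Γ ρ' := by
  have he' : ∀ g x, e.symm (ρ' g x) = ρ g (e.symm x) := by
    intro g x
    apply e.injective
    rw [e.apply_symm_apply, he, e.apply_symm_apply]
  let f : ZL L Γ ρ →ₗ[K] ZL L Γ ρ' := ((cmp K T W (e : N →ₗ[K] N')).domRestrict (ZL L Γ ρ)).codRestrict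
    (ZL L Γ ρ') fun c => cmp_mem (e : N →ₗ[K] N') he c.2
  let g : ZL L Γ ρ' →ₗ[K] ZL L Γ ρ := ((cmp K T W (e.symm : N' →ₗ[K] N)).domRestrict (ZL L Γ ρ')).codRestrict
    (ZL L Γ ρ) fun c => cmp_mem (e.symm : N' →ₗ[K] N) he' c.2
  have h1 : f.comp g = LinearMap.id := by
    apply LinearMap.ext
    intro c
    apply Subtype.ext
    funext t w
    exact e.apply_symm_apply (c.1 t w)
  have h2 : g.comp f = LinearMap.id := by
    apply LinearMap.ext
    intro c
    apply Subtype.ext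
    funext t w
    exact e.symm_apply_apply (c.1 t w)
  exact (LinearEquiv.ofLinearMap f g h1 h2).finrank_eq

/-- conjugation by a diagonal matrix -/
theorem zL_conj [Finite T] (L : T' → W → Finset (T × W)) {Γ : Subgroup W} [Γ.FiniteIndex]
    (μ μ' : Γ →* Matrix (Fin n) (Fin n) K) (u : Fin n → K) (hu : ∀ a, u a ≠ 0)
    (h : ∀ g a b, μ' g a b * u b = u a * μ g a b) : zL L Γ (mrep μ') = zL L Γ (mrep μ) := by
  refine (zL_equiv L (mrep μ) (mrep μ')
    (LinearEquiv.piCongrRight fun a => LinearEquiv.smulOfNeZero K K (u a) (hu a)) fun g x => ?_).symm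
  funext a
  rw [LinearEquiv.piCongrRight_apply, mrep_apply, mrep_apply, LinearEquiv.smulOfNeZero_apply, smul_eq_mul,
    Matrix.mulVec, dotProduct, Matrix.mulVec, dotProduct, Finset.mul_sum]
  refine Finset.sum_congr rfl fun b _ => ?_
  rw [LinearEquiv.piCongrRight_apply, LinearEquiv.smulOfNeZero_apply, smul_eq_mul, ← mul_assoc, ← mul_assoc, h]

end Tri

end Pool.Agent.S10.EA
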