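import Pool.Agent.S9.E.Red

/-!
# Project S10, block E: triangular representations over a finite ring of characteristic two

A representation of a normal subgroup `Γ` of finite index by upper triangular matrices over a finite ring of
characteristic two, with diagonal entries of two-power order, is trivial on a subgroup `N ≤ Γ` which is normal of finite
index in the whole group and such that `Γ / N` is a two-group.
-/

set_option autoImplicit false

open Finset

namespace Pool.Agent.S10.EA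

open Pool.Agent.S9

section Mat

variable {S : Type} [CommRing S] {n : ℕ}

private theorem dg_mul {A B : Matrix (Fin n) (Fin n) S} (hA : ∀ a b, b < a → A a b = 0)
    (hB : ∀ a b, b < a → B a b = 0) (a : Fin n) : (A * B) a a = A a a * B a a := by
  rw [Matrix.mul_apply, Finset.sum_eq_single a]
  · intro c _ hc
    rcases lt_or_gt_of_ne hc with h | h
    · rw [hA a c h, zero_mul]
    · rw [hB c a h, mul_zero]
  · intro h
    exact absurd (mem_univ a) h

private theorem tri_mul {A B : Matrix (Fin n) (Fin n) S} (hA : ∀ a b, b < a → A a b = 0)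
    (hB : ∀ a b, b < a → B a b = 0) : ∀ a b, b < a → (A * B) a b = 0 := by
  intro a b h
  rw [Matrix.mul_apply]
  refine sum_eq_zero fun c _ => ?_
  rcases lt_or_ge c a with h1 | h1
  · rw [hA a c h1, zero_mul]
  · rw [hB c b (lt_of_lt_of_le h h1), mul_zero]

/-- a matrix in `UT` has two-power order -/
theorem ut_pow [CharP S 2] {A : Matrix (Fin n) (Fin n) S} (hA : UT A) :
    ∃ k : ℕ, A ^ 2 ^ k = 1 := by
  -- a common exponent for the diagonal
  choose f hf using hA.2
  obtain ⟨k, hk⟩ : ∃ k : ℕ, ∀ a, A a a ^ 2 ^ k = 1 := by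
    refine ⟨∑ a, f a, fun a => ?_⟩
    have h1 : f a ≤ ∑ a, f a := single_le_sum (fun _ _ => Nat.zero_le _) (mem_univ a)
    obtain ⟨c, hc⟩ := Nat.exists_eq_add_of_le h1
    rw [hc, pow_add, pow_mul, hf, one_pow]
  have h1 : ∀ m : ℕ, (∀ a b, b < a → (A ^ m) a b = 0) ∧ ∀ a, (A ^ m) a a = A a a ^ m := by
    intro m
    induction m with
    | zero =>
      refine ⟨fun a b h => ?_, fun a => ?_⟩
      · rw [pow_zero, Matrix.one_apply_ne h.ne']
      · rw [pow_zero, pow_zero, Matrix.one_apply_eq]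
    | succ m ih =>
      refine ⟨fun a b h => ?_, fun a => ?_⟩
      · rw [pow_succ]
        exact tri_mul ih.1 hA.1 a b h
      · rw [pow_succ, dg_mul ih.1 hA.1, ih.2, pow_succ]
  obtain ⟨B, hB⟩ : ∃ B, B = A ^ 2 ^ k - 1 := ⟨_, rfl⟩
  have hB1 : A ^ 2 ^ k = 1 + B := by rw [hB]; abel
  have hB2 : ∀ a b, b ≤ a → B a b = 0 := by
    intro a b h
    rw [hB, Matrix.sub_apply]
    rcases eq_or_lt_of_le h with h2 | h2
    · subst h2
      rw [(h1 _).2, hk, Matrix.one_apply_eq, sub_self]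
    · rw [(h1 _).1 a b h2, Matrix.one_apply_ne h2.ne', sub_zero]
  -- `B` is nilpotent
  have hB3 : ∀ m : ℕ, ∀ a b : Fin n, b.val < a.val + m → (B ^ m) a b = 0 := by
    intro m
    induction m with
    | zero =>
      intro a b h
      rw [pow_zero, Matrix.one_apply_ne]
      intro h2
      rw [h2] at h
      omega
    | succ m ih =>
      intro a b h
      rw [pow_succ, Matrix.mul_apply]
      refine sum_eq_zero fun c _ => ?_
      rcases Nat.lt_or_ge c.val (a.val + m) with h2 | h2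
      · rw [ih a c h2, zero_mul]
      · rw [hB2 c b (by rw [Fin.le_def]; omega), mul_zero]
  have hB4 : B ^ n = 0 := by
    ext a b
    rw [hB3 n a b (by have := b.isLt; omega), Matrix.zero_apply]
  refine ⟨k + n, ?_⟩
  rw [pow_add, pow_mul, hB1]
  rcases Nat.eq_zero_or_pos n with hn | hn
  · subst hn
    ext a b
    exact a.elim0
  haveI : Nonempty (Fin n) := ⟨⟨0, hn⟩⟩
  haveI : Fact (Nat.Prime 2) := ⟨Nat.prime_two⟩
  haveI : CharP (Matrix (Fin n) (Fin n) S) 2 := inferInstance
  have h5 : (1 + B) ^ 2 ^ n = 1 ^ 2 ^ n + B ^ 2 ^ n := by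
    have h6 : ∀ m : ℕ, (1 + B) ^ 2 ^ m = 1 + B ^ 2 ^ m := by
      intro m
      induction m with
      | zero => rw [pow_zero, pow_one, pow_one]
      | succ m ih =>
        rw [pow_succ, pow_mul, ih, pow_mul, pow_two, pow_two]
        have h7 : (B ^ 2 ^ m) + (B ^ 2 ^ m) = 0 := CharTwo.add_self_eq_zero _
        have h8 : (1 + B ^ 2 ^ m) * (1 + B ^ 2 ^ m) =
            1 + ((B ^ 2 ^ m) + (B ^ 2 ^ m)) + B ^ 2 ^ m * B ^ 2 ^ m := by noncomm_ring
        rw [h8, h7, add_zero]
    rw [h6, one_pow]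
  rw [h5, one_pow]
  have h9 : n ≤ 2 ^ n := Nat.lt_two_pow_self.le
  obtain ⟨c, hc⟩ := Nat.exists_eq_add_of_le h9
  rw [hc, pow_add, hB4, zero_mul, add_zero]

/-- a common exponent -/
theorem ut_exp [CharP S 2] [Finite S] :
    ∃ e : ℕ, ∀ A : Matrix (Fin n) (Fin n) S, UT A → A ^ 2 ^ e = 1 := by
  classical
  haveI := Fintype.ofFinite (Matrix (Fin n) (Fin n) S)
  choose f hf using fun A : {A : Matrix (Fin n) (Fin n) S // UT A} => ut_pow A.2
  haveI := Fintype.ofFinite {A : Matrix (Fin n) (Fin n) S // UT A}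
  refine ⟨∑ A, f A, fun A hA => ?_⟩
  have h1 : f ⟨A, hA⟩ ≤ ∑ A, f A := single_le_sum (fun _ _ => Nat.zero_le _) (mem_univ _)
  obtain ⟨c, hc⟩ := Nat.exists_eq_add_of_le h1
  rw [hc, pow_add, pow_mul, hf ⟨A, hA⟩, one_pow]

end Mat

section Grp

variable {W : Type} [Group W] (Γ : Subgroup W) [Γ.Normal] [Γ.FiniteIndex]

/-- **A triangular representation over a finite ring** is trivial on a subgroup of two-power index in `Γ` which is
normal in the whole group. -/
theorem two_sub {S : Type} [CommRing S] [CharP S 2] [Finite S] {n : ℕ}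
    (μ : Γ →* Matrix (Fin n) (Fin n) S) (hμ : ∀ g, UT (μ g)) :
    ∃ N : Subgroup W, N.Normal ∧ N.FiniteIndex ∧ N ≤ Γ ∧
      (∀ x (h : x ∈ Γ), x ∈ N → μ ⟨x, h⟩ = 1) ∧ ∀ x ∈ Γ, ∃ k : ℕ, x ^ 2 ^ k ∈ N := by
  classical
  obtain ⟨e, he⟩ := ut_exp (S := S) (n := n)
  let K : Subgroup W := μ.ker.map Γ.subtype
  have hK : ∀ x, x ∈ K ↔ ∃ h : x ∈ Γ, μ ⟨x, h⟩ = 1 := by
    intro x
    constructor
    · rintro ⟨y, hy, rfl⟩
      exact ⟨y.2, hy⟩
    · rintro ⟨h, h1⟩
      exact ⟨⟨x, h⟩, h1, rfl⟩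
  have hfin : K.FiniteIndex := by
    haveI h1 : μ.ker.FiniteIndex := by
      haveI : Finite (Matrix (Fin n) (Fin n) S) := inferInstance
      refine ⟨fun h0 => ?_⟩
      have h2 : Finite (Γ ⧸ μ.ker) := by
        refine Finite.of_injective (β := Matrix (Fin n) (Fin n) S)
          (Quotient.lift (fun g => μ g) fun a b hab => ?_) ?_
        · have h3 : a⁻¹ * b ∈ μ.ker := QuotientGroup.leftRel_apply.1 hab
          have h4 : μ (a⁻¹ * b) = 1 := h3
          have h5 : μ a * μ (a⁻¹ * b) = μ b := by rw [← map_mul, mul_inv_cancel_left]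
          rw [h4, mul_one] at h5
          exact h5
        · intro a b
          induction a using Quotient.inductionOn with | _ a => ?_
          induction b using Quotient.inductionOn with | _ b => ?_
          intro hab
          have h6 : μ a = μ b := hab
          refine Quotient.sound (QuotientGroup.leftRel_apply.2 ?_)
          show μ (a⁻¹ * b) = 1
          rw [map_mul, ← h6, ← map_mul, inv_mul_cancel, map_one]
      exact Subgroup.index_ne_zero_of_finite h0
    refine ⟨?_⟩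
    have h2 : K.relIndex Γ = μ.ker.index := by
      have h3 : K.subgroupOf Γ = μ.ker := by
        ext x
        rw [Subgroup.mem_subgroupOf, hK]
        constructor
        · rintro ⟨_, h⟩
          exact h
        · intro h
          exact ⟨x.2, h⟩
      rw [Subgroup.relIndex, h3]
    have hle : K ≤ Γ := fun x hx => ((hK x).1 hx).1
    have h4 := Subgroup.relIndex_mul_index hle
    rw [← h4, h2]
    exact mul_ne_zero h1.index_ne_zero Subgroup.FiniteIndex.index_ne_zero
  refine ⟨K.normalCore, inferInstance, inferInstance, ?_, ?_, ?_⟩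
  · intro x hx
    exact ((hK x).1 (Subgroup.normalCore_le K hx)).1
  · intro x h hx
    obtain ⟨_, h2⟩ := (hK x).1 (Subgroup.normalCore_le K hx)
    exact h2
  · intro x hx
    refine ⟨e, fun w => ?_⟩
    have h1 : w * x * w⁻¹ ∈ Γ := Subgroup.Normal.conj_mem inferInstance x hx w
    have h2 : w * x ^ 2 ^ e * w⁻¹ = (w * x * w⁻¹) ^ 2 ^ e := (conj_pow).symm
    rw [h2]
    refine (hK _).2 ⟨Γ.pow_mem h1 _, ?_⟩
    have h3 : (⟨(w * x * w⁻¹) ^ 2 ^ e, Γ.pow_mem h1 _⟩ : Γ) = ⟨w * x * w⁻¹, h1⟩ ^ 2 ^ e := rfl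
    rw [h3, map_pow, he _ (hμ _)]

/-- the same for the reduction `t ^ (2 ^ k) = 1` of a representation over the Laurent polynomials -/
theorem two_red {I : Type} [Finite I] {n : ℕ} (μ : Γ →* Matrix (Fin n) (Fin n) (RI I))
    (htri : ∀ g a b, b < a → μ g a b = 0) (w : Γ → Fin n → I → ℤ)
    (hw : ∀ g a, μ g a a = ttR (w g a)) (k : ℕ) :
    ∃ N : Subgroup W, N.Normal ∧ N.FiniteIndex ∧ N ≤ Γ ∧
      (∀ x (h : x ∈ Γ), x ∈ N → (μ ⟨x, h⟩).map (redR I k) = 1) ∧
        ∀ x ∈ Γ, ∃ l : ℕ, x ^ 2 ^ l ∈ N := by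
  haveI := finite_RK (I := I) k
  obtain ⟨N, h1, h2, h3, h4, h5⟩ := two_sub Γ
    (((redR I k).mapMatrix : Matrix (Fin n) (Fin n) (RI I) →+* Matrix (Fin n) (Fin n) (RK I k)).toMonoidHom.comp μ)
    (fun g => ut_red k (htri g) fun a => ⟨_, hw g a⟩)
  exact ⟨N, h1, h2, h3, fun x h hx => h4 x h hx, h5⟩

end Grp

end Pool.Agent.S10.EA
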