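import Pool.Agent.S10.EA.Tran
import Pool.Agent.S10.EA.Sub
import Pool.Agent.S10.EA.BaseC
import Pool.Agent.S10.EA.Box
import Pool.Agent.S10.EA.Lat
import Pool.Agent.S10.EA.Two
import Pool.Agent.S9.E.Weight
import Pool.Agent.S9.E.Flag

/-!
# Project S10, block EA: the lower bound and the lifts (helper73)
-/

set_option autoImplicit false
set_option linter.unusedSectionVars false

open Finset

namespace Pool.Agent.S10.EA

open Pool.Agent.S9

variable {W : Type} [Group W] {T T' : Type} {I : Type} [Fintype I] {n : ℕ}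

/-- the quotient by a normal subgroup as a homomorphism to a finite two-group -/
theorem MinL.le_sub {L : T' → W → Finset (T × W)} {Γ : Subgroup W} {ab : Γ →* Multiplicative (I → ℤ)} (h : MinL L Γ ab)
    (N : Subgroup W) [N.Normal] [N.FiniteIndex] (hN : N ≤ Γ) (h2 : ∀ x ∈ Γ, ∃ k : ℕ, x ^ 2 ^ k ∈ N) :
    N.relIndex Γ * zL L Γ (ch (chiab ab)) ≤ z1 L N := by
  have h3 : IsPGroup 2 (Γ ⧸ N.subgroupOf Γ) := by
    intro x
    induction x using QuotientGroup.induction_on with
    | _ x =>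
      obtain ⟨k, hk⟩ := h2 x.1 x.2
      refine ⟨k, ?_⟩
      rw [← QuotientGroup.mk_pow, QuotientGroup.eq_one_iff]
      exact hk
  have h4 := h (Γ ⧸ N.subgroupOf Γ) h3 (QuotientGroup.mk' (N.subgroupOf Γ))
  have h5 : Nat.card (QuotientGroup.mk' (N.subgroupOf Γ)).range = N.relIndex Γ := by
    rw [← Subgroup.index_ker, QuotientGroup.ker_mk']
    rfl
  have h6 : (QuotientGroup.mk' (N.subgroupOf Γ)).ker.map Γ.subtype = N := by
    rw [QuotientGroup.ker_mk', Subgroup.subgroupOf_map_subtype]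
    exact inf_eq_left.2 hN
  rwa [h5, h6] at h4

/-- **The lower bound** for coefficients over the ring -/
theorem lower_ring [Finite T] [Finite T'] {L : T' → W → Finset (T × W)} {Γ : Subgroup W} [Γ.Normal] [Γ.FiniteIndex]
    (hL : LInv L Γ) (ab : Γ →* Multiplicative (I → ℤ)) (hmin : MinL L Γ ab)
    (μ : Γ →* Matrix (Fin n) (Fin n) (RI I)) (hμ : UTri μ) (w : Γ → Fin n → I → ℤ)
    (hw : ∀ g a, μ g a a = ttR (w g a)) :
    n * zL L Γ (ch (chiab ab)) ≤ zL L Γ (mrep (mmap (algebraMap (RI I) (KI I)) μ)) := by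
  set A := zL L Γ (mrep (mmap (algebraMap (RI I) (KI I)) μ)) with hA
  have key : (n : ℝ) * (zL L Γ (ch (chiab ab)) : ℝ) ≤ (A : ℝ) := by
    refine le_of_forall_pos_le_add fun ε hε => ?_
    obtain ⟨k, hk⟩ := box hL μ ε hε
    have h1 := hk k le_rfl
    rw [← hA] at h1
    have hfin : Finite (RK I k) := finite_RK k
    obtain ⟨N, hN, hNf, hNΓ, hNt, hN2⟩ := two_red Γ μ hμ w hw k
    have h3 := hmin.le_sub N hNΓ hN2
    have h4 := tran hL hNΓ inferInstance hN2 (mrep2 (mmap (redR I k) μ)) (fun x h hx => by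
      refine LinearMap.ext fun y => ?_
      rw [mrep2_apply, mmap_apply, hNt x h hx, Matrix.one_mulVec]
      rfl)
    have h5 : Module.finrank (ZMod 2) (Fin n → RK I k) = n * 2 ^ (k * Fintype.card I) := by
      rw [Module.finrank_pi_fintype, sum_const, card_univ, smul_eq_mul, Fintype.card_fin, finrank_RK]
    rw [h5] at h4
    have hpos : 0 < N.relIndex Γ := by
      have h6 := Subgroup.relIndex_mul_index hNΓ
      rcases Nat.eq_zero_or_pos (N.relIndex Γ) with h7 | h7
      · rw [h7, zero_mul] at h6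
        exact absurd h6.symm hNf.index_ne_zero
      · exact h7
    have hpos' : (0 : ℝ) < N.relIndex Γ := by exact_mod_cast hpos
    have h7 : (0 : ℝ) < 2 ^ (k * Fintype.card I) := by positivity
    have h3' : (N.relIndex Γ : ℝ) * zL L Γ (ch (chiab ab)) ≤ z1 L N := by exact_mod_cast h3
    have h4' : ((n : ℝ) * 2 ^ (k * Fintype.card I)) * z1 L N ≤
        N.relIndex Γ * Module.finrank (ZMod 2) (ZL L Γ (mrep2 (mmap (redR I k) μ))) := by exact_mod_cast h4
    have h8 : (N.relIndex Γ : ℝ) * ((n : ℝ) * zL L Γ (ch (chiab ab)) * 2 ^ (k * Fintype.card I)) ≤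
        N.relIndex Γ * (((A : ℝ) + ε) * 2 ^ (k * Fintype.card I)) := by
      calc (N.relIndex Γ : ℝ) * ((n : ℝ) * zL L Γ (ch (chiab ab)) * 2 ^ (k * Fintype.card I))
          = ((n : ℝ) * 2 ^ (k * Fintype.card I)) * ((N.relIndex Γ : ℝ) * zL L Γ (ch (chiab ab))) := by ring
        _ ≤ ((n : ℝ) * 2 ^ (k * Fintype.card I)) * z1 L N := mul_le_mul_of_nonneg_left h3' (by positivity)
        _ ≤ _ := h4'
        _ ≤ _ := mul_le_mul_of_nonneg_left h1 hpos'.le
    exact le_of_mul_le_mul_right (le_of_mul_le_mul_left h8 hpos') h7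
  exact_mod_cast key

/-- **The lower bound** over the field -/
theorem lower_field [Finite T] [Finite T'] {L : T' → W → Finset (T × W)} {Γ : Subgroup W} [Γ.Normal] [Γ.FiniteIndex]
    [Group.FG Γ] (hL : LInv L Γ) (ab : Γ →* Multiplicative (I → ℤ)) (hmin : MinL L Γ ab)
    (μ : Γ →* Matrix (Fin n) (Fin n) (KI I)) (hμ : UTri μ) (w : Γ → Fin n → I → ℤ)
    (hw : ∀ g a, μ g a a = tt (w g a)) :
    n * zL L Γ (ch (chiab ab)) ≤ zL L Γ (mrep μ) := by
  obtain ⟨d, hd, μ', h1, h2, h3⟩ := lat inferInstance μ hμ w hw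
  have hdK : algebraMap (RI I) (KI I) d ≠ 0 := by
    intro h0
    exact hd ((IsFractionRing.injective (RI I) (KI I)) (h0.trans (map_zero _).symm))
  rw [← zL_conj L μ (mmap (algebraMap (RI I) (KI I)) μ') (fun a => (algebraMap (RI I) (KI I) d ^ (a : ℕ))⁻¹)
    (fun a => inv_ne_zero (pow_ne_zero _ hdK)) fun g a b => ?_]
  · exact lower_ring hL ab hmin μ' h1 w h2
  · have h4 := congrFun (congrFun (h3 g) a) b
    unfold dg at h4
    rw [Matrix.diagonal_mul, Matrix.mul_diagonal] at h4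
    have h5 : algebraMap (RI I) (KI I) d ^ (a : ℕ) ≠ 0 := pow_ne_zero _ hdK
    have h6 : algebraMap (RI I) (KI I) d ^ (b : ℕ) ≠ 0 := pow_ne_zero _ hdK
    change algebraMap (RI I) (KI I) (μ' g a b) * _ = _
    rw [Matrix.map_apply] at h4
    field_simp
    linear_combination h4

/-- **Exactness**: the last coordinate is surjective -/
theorem lift_last [Finite T] [Finite T'] {L : T' → W → Finset (T × W)} {Γ : Subgroup W} [Γ.Normal] [Γ.FiniteIndex]
    [Group.FG Γ] (hL : LInv L Γ) (ab : Γ →* Multiplicative (I → ℤ)) (hmin : MinL L Γ ab)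
    (μ : Γ →* Matrix (Fin (n + 1)) (Fin (n + 1)) (KI I)) (hμ : UTri μ)
    (Z : Fin (n + 1) → (I → ℤ) →+ (I → ℤ)) (hZ : ∀ a, Function.Injective (Z a))
    (hw : ∀ g a, μ g a a = tt (Z a (ab g).toAdd)) (c₀ : T → W → KI I)
    (hc₀ : c₀ ∈ ZL L Γ (ch (chiab (subAb (Z (Fin.last n)) ab)))) :
    ∃ c ∈ ZL L Γ (mrep μ), ∀ t w, c t w (Fin.last n) = c₀ t w := by
  have h1 := lower_field hL ab hmin μ hμ (fun g a => Z a (ab g).toAdd) hw
  have h2 : ∀ g a, μ g a a = (chiab (subAb (Z a) ab) g : KI I) := hw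
  have h3 := zL_le L μ hμ (fun a => chiab (subAb (Z a) ab)) h2
  have h4 : ∑ a : Fin (n + 1), zL L Γ (ch (chiab (subAb (Z a) ab))) = (n + 1) * zL L Γ (ch (chiab ab)) := by
    rw [sum_congr rfl fun a _ => zL_base hL ab (Z a) (hZ a), sum_const, card_univ, Fintype.card_fin, smul_eq_mul]
  refine lift_of_eq L μ hμ (fun a => chiab (subAb (Z a) ab)) h2 ?_ c₀ hc₀
  rw [h4] at h3 ⊢
  exact le_antisymm h3 h1

/-- **Lifting to triangular modules** with weights in the squares of the character -/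
theorem lifts_ZL [Finite T] [Finite T'] {L : T' → W → Finset (T × W)} {Γ : Subgroup W} [Γ.Normal] [Γ.FiniteIndex]
    [Group.FG Γ] (hL : LInv L Γ) {r : ℕ} (ab : Γ →* Multiplicative (Fin r → ℤ)) (hs : Function.Surjective ab)
    (hf : ∀ f : Γ →* Multiplicative ℤ, ∀ g, ab g = 1 → f g = 1) (hmin : MinL L Γ ab)
    (N : Type) [AddCommGroup N] [Module (KI (Fin r)) N] [FiniteDimensional (KI (Fin r)) N]
    (ρ : Γ →* Module.End (KI (Fin r)) N) (π : N →ₗ[KI (Fin r)] KI (Fin r)) (hρ : Tri (sqr (chiab ab)) ρ)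
    (hπ : Function.Surjective π) (hinv : ∀ g y, π (ρ g y) = π y)
    (c₀ : T → W → KI (Fin r)) (hc₀ : c₀ ∈ ZL L Γ (ch (chiab ab))) :
    ∃ c ∈ ZL L Γ (tw (chiab ab) ρ), ∀ t w, π (c t w) = c₀ t w := by
  obtain ⟨n, b, lam, hlam, htri, hdiag, hπb⟩ := exists_tri ρ hρ π hπ hinv
  choose Y hY hYi using fun a => exists_wt ab hs hf (chiab ab) (fun g => chiab_coe ab g) (lam a) (hlam a)
  have hlast : ∀ g, LinearMap.toMatrix b b (ρ g) (Fin.last n) (Fin.last n) = 1 := by
    intro g
    have h1 := hinv g (b (Fin.last n))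
    rw [← b.sum_repr (ρ g (b (Fin.last n)))] at h1
    simp only [map_sum, map_smul, hπb, smul_eq_mul, mul_ite, mul_one, mul_zero, Finset.sum_ite_eq',
      Finset.mem_univ, if_true] at h1
    rw [LinearMap.toMatrix_apply]
    exact h1
  let μ : Γ →* Matrix (Fin (n + 1)) (Fin (n + 1)) (KI (Fin r)) :=
    { toFun := fun g => LinearMap.toMatrix b b (tw (chiab ab) ρ g)
      map_one' := by
        rw [map_one]
        exact LinearMap.toMatrix_one b
      map_mul' := fun g h => by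
        rw [map_mul]
        exact LinearMap.toMatrix_mul b _ _ }
  have hval : ∀ g a c, μ g a c = (chiab ab g : KI (Fin r)) * LinearMap.toMatrix b b (ρ g) a c := by
    intro g a c
    change LinearMap.toMatrix b b ((chiab ab g : KI (Fin r)) • ρ g) a c = _
    rw [map_smul]
    rfl
  have hμ : UTri μ := by
    intro g a c hca
    rw [hval, htri g a c hca, mul_zero]
  have hw : ∀ g a, μ g a a =
      tt ((AddMonoidHom.id (Fin r → ℤ) + 2 • Y a : (Fin r → ℤ) →+ (Fin r → ℤ)) (ab g).toAdd) := by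
    intro g a
    rw [hval, hdiag, hY, chiab_coe, ← tt_add]
    rfl
  have hlc : ch (chiab (subAb (AddMonoidHom.id (Fin r → ℤ) + 2 • Y (Fin.last n)) ab)) = ch (chiab ab) := by
    refine MonoidHom.ext fun g => LinearMap.ext fun x => ?_
    rw [ch_apply, ch_apply]
    have h1 : (chiab (subAb (AddMonoidHom.id (Fin r → ℤ) + 2 • Y (Fin.last n)) ab) g : KI (Fin r)) =
        μ g (Fin.last n) (Fin.last n) := (hw g (Fin.last n)).symm
    rw [h1, hval, hlast, mul_one]
  obtain ⟨c', hc', hc'l⟩ := lift_last hL ab hmin μ hμ (fun a => AddMonoidHom.id (Fin r → ℤ) + 2 • Y a) hYi hw c₀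
    (by rw [hlc]; exact hc₀)
  have hact : ∀ g x, b.equivFun.symm ((μ g).mulVec x) = tw (chiab ab) ρ g (b.equivFun.symm x) := by
    intro g x
    rw [LinearEquiv.symm_apply_eq]
    have h1 := LinearMap.toMatrix_mulVec_repr b b (tw (chiab ab) ρ g) (b.equivFun.symm x)
    have h2 : (b.repr (b.equivFun.symm x) : Fin (n + 1) → KI (Fin r)) = x := b.equivFun.apply_symm_apply x
    rw [h2] at h1
    exact h1
  refine ⟨fun t w => b.equivFun.symm (c' t w), ⟨fun t g w => ?_, fun t' w => ?_⟩, fun t w => ?_⟩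
  · change b.equivFun.symm (c' t (g * w)) = tw (chiab ab) ρ g (b.equivFun.symm (c' t w))
    rw [hc'.1 t g w]
    exact hact g _
  · have h1 := hc'.2 t' w
    change ∑ x ∈ L t' w, b.equivFun.symm (c' x.1 (w * x.2)) = 0
    rw [← map_sum, h1, map_zero]
  · change π (b.equivFun.symm (c' t w)) = c₀ t w
    rw [b.equivFun_symm_apply, map_sum]
    simp only [map_smul, hπb, smul_eq_mul, mul_ite, mul_one, mul_zero, Finset.sum_ite_eq',
      Finset.mem_univ, if_true]
    exact hc'l t w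

end Pool.Agent.S10.EA
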