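import Pool.Agent.S10.EA.Defs
import Pool.Agent.S10.Defs

/-!
# Project S10, block E: the cycles of two consecutive degrees as the solutions of one local system
-/

set_option autoImplicit false
set_option linter.unusedSectionVars false

open Finset

namespace Pool.Agent.S10.EA

open Pool.Agent.S9 Pool.Agent.S10

variable {V : Type} [DecidableEq V] [Fintype V] {G : SimpleGraph V} {W : Type} [Group W]

open Classical in
/-- the local system of the cycles of the degrees `i` and `i + 1`: support, cells, boundary -/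
noncomputable def Lz (R : Rac G W) (act : V → W → Prop) (i : ℕ) :
    ((Fin 2 × Finset V) ⊕ ((Fin 2 × Finset V × V) ⊕ (Fin 2 × Finset V))) → W → Finset ((Fin 2 × Finset V) × W)
  | Sum.inl x, w => if (G.IsClique (x.2 : Set V) ∧ ∀ v ∈ x.2, act v w) ∧ x.2.card = i + x.1 then ∅ else {(x, 1)}
  | Sum.inr (Sum.inl (j, A, v)), _ => if v ∈ A then {((j, A), 1), ((j, A), R.s v)} else ∅
  | Sum.inr (Sum.inr (j, κ)), _ => κᶜ.image fun v => ((j, insert v κ), 1)

theorem lz_inv {R : Rac G W} {Φ : Subgroup W} {act : V → W → Prop} (h : IsActv R Φ act) (i : ℕ) :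
    LInv (Lz R act i) Φ := by
  classical
  intro g hg t' w
  rcases t' with x | ⟨j, A, v⟩ | ⟨j, κ⟩
  · simp only [Lz]
    have h1 : (∀ v ∈ x.2, act v (g * w)) ↔ ∀ v ∈ x.2, act v w :=
      forall_congr' fun v => forall_congr' fun _ => h.inv v g hg w
    by_cases h2 : (G.IsClique (x.2 : Set V) ∧ ∀ v ∈ x.2, act v w) ∧ x.2.card = i + x.1
    · rw [if_pos h2, if_pos ⟨⟨h2.1.1, h1.2 h2.1.2⟩, h2.2⟩]
    · rw [if_neg h2, if_neg fun h3 => h2 ⟨⟨h3.1.1, h1.1 h3.1.2⟩, h3.2⟩]
  · rfl
  · rfl

theorem add_eq_zero_two (K : Type) [Field K] [CharP K 2] {N : Type} [AddCommGroup N] [Module K N] (x y : N) :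
    x + y = 0 ↔ y = x := by
  have h : ∀ z : N, z + z = 0 := fun z => by
    rw [← two_smul K z, CharTwo.two_eq_zero, zero_smul]
  constructor
  · intro h1
    have h2 := h x
    rw [← h1] at h2
    exact (add_left_cancel h2).symm
  · rintro rfl
    exact h y

section Iff

variable {K : Type} [Field K] [CharP K 2] {N : Type} [AddCommGroup N] [Module K N]

/-- the solutions are the pairs of cycles -/
theorem mem_lz (R : Rac G W) (act : V → W → Prop) (i : ℕ) {Γ : Subgroup W} {ρ : Γ →* Module.End K N}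
    {c : Fin 2 × Finset V → W → N} :
    c ∈ ZL (Lz R act i) Γ ρ ↔ ∀ j : Fin 2, (fun A => c (j, A)) ∈ Za R act Γ ρ (i + j) := by
  classical
  have hs : ∀ v : V, (1 : W) ≠ R.s v := by
    intro v h
    have h1 := R.b_s v v
    rw [← h, R.b_one, if_pos rfl] at h1
    exact absurd h1 (by decide)
  have e1 : ∀ (x : Fin 2 × Finset V) (w : W), ∑ y ∈ Lz R act i (Sum.inl x) w, c y.1 (w * y.2) =
      if (G.IsClique (x.2 : Set V) ∧ ∀ v ∈ x.2, act v w) ∧ x.2.card = i + x.1 then 0 else c x w := by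
    intro x w
    simp only [Lz]
    split_ifs
    · exact Finset.sum_empty
    · rw [Finset.sum_singleton, mul_one]
  have e2 : ∀ (j : Fin 2) (A : Finset V) (v : V) (w : W), v ∈ A →
      ∑ y ∈ Lz R act i (Sum.inr (Sum.inl (j, A, v))) w, c y.1 (w * y.2) = c (j, A) w + c (j, A) (w * R.s v) := by
    intro j A v w hv
    simp only [Lz]
    rw [if_pos hv, Finset.sum_insert, Finset.sum_singleton, mul_one]
    rw [Finset.mem_singleton]
    intro h
    exact hs v (Prod.ext_iff.1 h).2
  have e3 : ∀ (j : Fin 2) (κ : Finset V) (w : W),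
      ∑ y ∈ Lz R act i (Sum.inr (Sum.inr (j, κ))) w, c y.1 (w * y.2) = ∑ v ∈ κᶜ, c (j, insert v κ) w := by
    intro j κ w
    simp only [Lz]
    rw [Finset.sum_image]
    · refine Finset.sum_congr rfl fun v _ => ?_
      rw [mul_one]
    · intro v hv u hu h
      rw [mem_coe, mem_compl] at hv hu
      have h1 : insert v κ = insert u κ := (Prod.ext_iff.1 (Prod.ext_iff.1 h).1).2
      have h2 : v ∈ insert u κ := by
        rw [← h1]
        exact mem_insert_self _ _
      exact (mem_insert.1 h2).resolve_right hv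
  constructor
  · rintro ⟨h1, h2⟩ j
    have h5 : ∀ A w, c (j, A) w ≠ 0 → (G.IsClique (A : Set V) ∧ ∀ v ∈ A, act v w) ∧ A.card = i + j := by
      intro A w h
      by_contra h3
      have h4 := h2 (Sum.inl (j, A)) w
      rw [e1, if_neg h3] at h4
      exact h h4
    refine ⟨⟨⟨fun A h => ?_, fun A v hv w => ?_, fun A g w => h1 (j, A) g w⟩, fun A w h => (h5 A w h).1.2⟩, ?_⟩
    · obtain ⟨w, hw⟩ := Function.ne_iff.1 h
      exact ⟨(h5 A w hw).1.1, (h5 A w hw).2⟩
    · have h4 := h2 (Sum.inr (Sum.inl (j, A, v))) w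
      rw [e2 _ _ _ _ hv] at h4
      exact (add_eq_zero_two K _ _).1 h4
    · refine LinearMap.mem_ker.2 (funext fun κ => funext fun w => ?_)
      rw [bd_apply]
      have h4 := h2 (Sum.inr (Sum.inr (j, κ))) w
      rw [e3] at h4
      exact h4
  · intro h
    refine ⟨fun t g w => (h t.1).1.1.2.2 t.2 g w, fun t' w => ?_⟩
    rcases t' with x | ⟨j, A, v⟩ | ⟨j, κ⟩
    · rw [e1]
      split_ifs with h1
      · rfl
      · by_contra h2
        have h3 := (h x.1).1.1.1 x.2 (fun h0 => h2 (congrFun h0 w))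
        exact h1 ⟨⟨h3.1, (h x.1).1.2 x.2 w h2⟩, h3.2⟩
    · by_cases hv : v ∈ A
      · rw [e2 _ _ _ _ hv]
        exact (add_eq_zero_two K _ _).2 ((h j).1.1.2.1 A v hv w)
      · simp only [Lz]
        rw [if_neg hv]
        exact Finset.sum_empty
    · rw [e3]
      have h1 := congrFun (congrFun (LinearMap.mem_ker.1 (h j).2) κ) w
      rw [bd_apply] at h1
      exact h1

/-- the solutions are the pairs of cycles -/
noncomputable def zE (R : Rac G W) (act : V → W → Prop) (i : ℕ) (Γ : Subgroup W) (ρ : Γ →* Module.End K N) :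
    ZL (Lz R act i) Γ ρ ≃ₗ[K] ∀ j : Fin 2, Za R act Γ ρ (i + j) where
  toFun c j := ⟨fun A => c.1 (j, A), (mem_lz R act i).1 c.2 j⟩
  invFun z := ⟨fun t => (z t.1).1 t.2, (mem_lz R act i).2 fun j => (z j).2⟩
  map_add' _ _ := rfl
  map_smul' _ _ := rfl
  left_inv _ := rfl
  right_inv _ := rfl

end Iff

end Pool.Agent.S10.EA
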