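import Pool.Agent.S10.Defs
import Pool.Agent.S9.DictZ

/-!
# Project S10, block EA: the number of the active cells (helper77)
-/

set_option autoImplicit false
set_option linter.unusedSectionVars false

open Finset

namespace Pool.Agent.S10.EA

open Pool.Agent.S9 Pool.Agent.S10

variable {V : Type} [DecidableEq V] [Fintype V] {G : SimpleGraph V} {W : Type} [Group W]

section Clear

variable (R : Rac G W)

open Classical in
/-- the vertex of the cube of `l` at `w` all of whose bits in `l` are `0` -/
noncomputable def clr : List V → W → W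
  | [], w => w
  | v :: l, w => clr l (if R.b w v = 0 then w else w * R.s v)

private theorem zmod2 (a : ZMod 2) (h : a ≠ 0) : a = 1 := by
  revert a
  decide

theorem clr_bit_not {l : List V} {v : V} (hv : v ∉ l) (w : W) : R.b (clr R l w) v = R.b w v := by
  induction l generalizing w with
  | nil => rfl
  | cons u l ih =>
    rw [List.mem_cons, not_or] at hv
    unfold clr
    rw [ih hv.2]
    split_ifs
    · rfl
    · rw [R.b_mul, R.b_s, if_neg (Ne.symm hv.1), add_zero]

theorem clr_bit {l : List V} (hl : l.Nodup) {v : V} (hv : v ∈ l) (w : W) : R.b (clr R l w) v = 0 := by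
  induction l generalizing w with
  | nil => exact absurd hv List.not_mem_nil
  | cons u l ih =>
    unfold clr
    rw [List.nodup_cons] at hl
    by_cases hvl : v ∈ l
    · exact ih hl.2 hvl _
    · have huv : v = u := (List.mem_cons.1 hv).resolve_right hvl
      subst huv
      rw [clr_bit_not R hvl]
      split_ifs with h
      · exact h
      · rw [R.b_mul, R.b_s, if_pos rfl, zmod2 _ h]
        decide

theorem clr_mul {l : List V} {g : W} (hg : ∀ v, R.b g v = 0) (w : W) :
    clr R l (g * w) = g * clr R l w := by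
  induction l generalizing w with
  | nil => rfl
  | cons u l ih =>
    unfold clr
    rw [R.b_mul, hg, zero_add]
    split_ifs
    · exact ih w
    · rw [mul_assoc]
      exact ih _

theorem clr_self {l : List V} {w : W} (hw : ∀ v ∈ l, R.b w v = 0) : clr R l w = w := by
  induction l with
  | nil => rfl
  | cons u l ih =>
    unfold clr
    rw [if_pos (hw u List.mem_cons_self)]
    exact ih fun v hv => hw v (List.mem_cons_of_mem u hv)

theorem clr_s {l : List V} (hl : ∀ u ∈ l, ∀ v ∈ l, u ≠ v → G.Adj u v) {v : V} (hv : v ∈ l) (w : W) :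
    clr R l (w * R.s v) = clr R l w := by
  induction l generalizing w with
  | nil => exact absurd hv List.not_mem_nil
  | cons u l ih =>
    have hl' : ∀ u ∈ l, ∀ v ∈ l, u ≠ v → G.Adj u v := fun a ha b hb =>
      hl a (List.mem_cons_of_mem u ha) b (List.mem_cons_of_mem u hb)
    by_cases huv : u = v
    · subst huv
      unfold clr
      rw [R.b_mul, R.b_s, if_pos rfl]
      by_cases h : R.b w u = 0
      · rw [if_pos h, if_neg (by rw [h]; decide), mul_assoc, R.sq, mul_one]
      · rw [if_neg h, if_pos (by rw [zmod2 _ h]; decide)]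
    · have hvl : v ∈ l := (List.mem_cons.1 hv).resolve_left (Ne.symm huv)
      unfold clr
      rw [R.b_mul, R.b_s, if_neg (Ne.symm huv), add_zero]
      split_ifs
      · exact ih hl' hvl w
      · have h1 : w * R.s v * R.s u = w * R.s u * R.s v := by
          rw [mul_assoc, mul_assoc, R.comm u v (hl u List.mem_cons_self v hv huv)]
        rw [h1]
        exact ih hl' hvl _

theorem clr_inv {α : Type*} {l : List V} {f : W → α} (hf : ∀ v ∈ l, ∀ w, f (w * R.s v) = f w) (w : W) :
    f (clr R l w) = f w := by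
  induction l generalizing w with
  | nil => rfl
  | cons u l ih =>
    unfold clr
    rw [ih fun v hv => hf v (List.mem_cons_of_mem u hv)]
    split_ifs
    · rfl
    · exact hf u List.mem_cons_self w

end Clear

section Shapiro

variable {Φ Γ : Subgroup W} (hle : Γ ≤ Φ) {K : Type} [Field K] (ρ : Γ →* Module.End K K)

/-- the functions on `Φ` which are equivariant under `Γ` -/
def EqF : Submodule K (Φ → K) where
  carrier := {f | ∀ (g : Γ) (x : Φ), f (⟨g, hle g.2⟩ * x) = ρ g (f x)}
  zero_mem' := fun g _ => (map_zero (ρ g)).symm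
  add_mem' := by
    intro f f' h1 h2 g x
    rw [Pi.add_apply, Pi.add_apply, h1, h2, map_add]
  smul_mem' := by
    intro a f h1 g x
    rw [Pi.smul_apply, Pi.smul_apply, h1, map_smul]

theorem finrank_EqF [Γ.FiniteIndex] : FiniteDimensional K (EqF hle ρ) ∧
    Module.finrank K (EqF hle ρ) = Γ.relIndex Φ := by
  classical
  let H : Subgroup Φ := Γ.subgroupOf Φ
  let T := Quotient (QuotientGroup.rightRel H)
  haveI hH : H.FiniteIndex := inferInstance
  haveI : Finite (Φ ⧸ H) := Subgroup.finite_quotient_of_finiteIndex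
  let eT : T ≃ (Φ ⧸ H) := QuotientGroup.quotientRightRelEquivQuotientLeftRel H
  haveI : Finite T := Finite.of_equiv _ eT.symm
  haveI := Fintype.ofFinite T
  let L : EqF hle ρ →ₗ[K] (T → K) :=
    { toFun := fun f t => f.1 t.out
      map_add' := fun f f' => rfl
      map_smul' := fun a f => rfl }
  have hout : ∀ x : Φ, ∃ g : Γ, x = ⟨g, hle g.2⟩ * (Quotient.mk (QuotientGroup.rightRel H) x).out := by
    intro x
    have h1 : (QuotientGroup.rightRel H) x (Quotient.mk (QuotientGroup.rightRel H) x).out :=
      Quotient.exact (Quotient.out_eq _).symm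
    rw [QuotientGroup.rightRel_apply] at h1
    have h2 := H.inv_mem h1
    rw [mul_inv_rev, inv_inv] at h2
    refine ⟨⟨_, h2⟩, ?_⟩
    apply Subtype.ext
    show (x : W) = (x : W) * ((Quotient.mk (QuotientGroup.rightRel H) x).out : W)⁻¹ *
      ((Quotient.mk (QuotientGroup.rightRel H) x).out : W)
    rw [inv_mul_cancel_right]
  have hinj : Function.Injective L := by
    intro f f' h
    apply Subtype.ext
    funext x
    obtain ⟨g, hg⟩ := hout x
    have h1 : f.1 (Quotient.mk (QuotientGroup.rightRel H) x).out =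
        f'.1 (Quotient.mk (QuotientGroup.rightRel H) x).out := congrFun h _
    rw [hg, f.2, f'.2, h1]
  choose γ hγ using hout
  have hsurj : Function.Surjective L := by
    intro h
    refine ⟨⟨fun x => ρ (γ x) (h (Quotient.mk (QuotientGroup.rightRel H) x)), ?_⟩, ?_⟩
    · intro g x
      have h1 : (Quotient.mk (QuotientGroup.rightRel H) (⟨g, hle g.2⟩ * x) : T) =
          Quotient.mk (QuotientGroup.rightRel H) x := by
        apply Quotient.sound
        show QuotientGroup.rightRel H (⟨g, hle g.2⟩ * x) x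
        rw [QuotientGroup.rightRel_apply, mul_inv_rev, mul_inv_cancel_left]
        exact H.inv_mem g.2
      have h2 : γ (⟨g, hle g.2⟩ * x) = g * γ x := by
        have h3 := hγ (⟨g, hle g.2⟩ * x)
        rw [h1] at h3
        have h4 := hγ x
        apply Subtype.ext
        have h5 := congrArg (fun y : Φ => (y : W)) h3
        have h6 := congrArg (fun y : Φ => (y : W)) h4
        simp only [Subgroup.coe_mul] at h5 h6
        have h7 : (g : W) * ((γ x : W) * ((Quotient.mk (QuotientGroup.rightRel H) x).out : W)) =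
            (γ (⟨g, hle g.2⟩ * x) : W) * ((Quotient.mk (QuotientGroup.rightRel H) x).out : W) := by
          rw [← h6]
          exact h5
        rw [← mul_assoc] at h7
        exact (mul_right_cancel h7).symm
      show ρ (γ (⟨g, hle g.2⟩ * x)) (h (Quotient.mk (QuotientGroup.rightRel H) (⟨g, hle g.2⟩ * x))) = _
      rw [h1, h2, map_mul]
      rfl
    · funext t
      show ρ (γ t.out) (h (Quotient.mk (QuotientGroup.rightRel H) t.out)) = h t
      have h1 : (Quotient.mk (QuotientGroup.rightRel H) t.out : T) = t := Quotient.out_eq t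
      have h2 : γ t.out = 1 := by
        have h3 := hγ t.out
        rw [h1] at h3
        have h4 : (⟨γ t.out, hle (γ t.out).2⟩ : Φ) = 1 := mul_eq_right.1 h3.symm
        apply Subtype.ext
        exact congrArg (fun y : Φ => (y : W)) h4
      rw [h1, h2, map_one]
      rfl
  let e : EqF hle ρ ≃ₗ[K] (T → K) := LinearEquiv.ofBijective L ⟨hinj, hsurj⟩
  refine ⟨Module.Finite.equiv e.symm, ?_⟩
  rw [e.finrank_eq, Module.finrank_fintype_fun_eq_card, ← Nat.card_eq_fintype_card, Nat.card_congr eT]
  rfl

end Shapiro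

/-- the number of the active cells of degree `d`, modulo `Γ`: `q` = their number modulo `Φ` -/
theorem finrank_Ca (R : Rac G W) {Φ : Subgroup W} (hΦ : Lev0 R Φ) (act : V → W → Prop) (hact : IsActv R Φ act) (d : ℕ) :
    ∃ q : ℕ, ∀ (K : Type) [Field K] (Γ : Subgroup W) (ρ : Γ →* Module.End K K), Γ ≤ Φ → Γ.FiniteIndex →
      Module.finrank K (Ca R act Γ ρ d) = Γ.relIndex Φ * q := by
  classical
  haveI := hΦ.normal
  haveI := hΦ.fin
  haveI : Finite (W ⧸ Φ) := Subgroup.finite_quotient_of_finiteIndex
  let P : Finset V → W → Prop := fun A w => G.IsClique (A : Set V) ∧ A.card = d ∧ (∀ v ∈ A, act v w) ∧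
    ∀ v ∈ A, R.b w v = 0
  let Ω : Type := {x : Finset V × (W ⧸ Φ) // P x.1 x.2.out}
  haveI : Finite Ω := inferInstance
  haveI := Fintype.ofFinite Ω
  refine ⟨Fintype.card Ω, fun K _ Γ ρ hle hfin => ?_⟩
  haveI := hfin
  have hbit : ∀ g : Γ, ∀ v, R.b (g : W) v = 0 := fun g => hΦ.bits _ (hle g.2)
  have hP : ∀ A (g : Φ) w, P A (g * w) ↔ P A w := by
    intro A g w
    refine and_congr Iff.rfl (and_congr Iff.rfl (and_congr ?_ ?_))
    · exact forall₂_congr fun v _ => hact.inv v g g.2 w
    · refine forall₂_congr fun v _ => ?_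
      rw [R.b_mul, hΦ.bits _ g.2, zero_add]
  have hPc : ∀ A w, P A w ↔ P A (QuotientGroup.mk w : W ⧸ Φ).out := by
    intro A w
    conv_lhs => rw [← wg_out_eq (Γ := Φ) w]
    exact hP A _ _
  have hactc : ∀ (A : Finset V), G.IsClique (A : Set V) → ∀ v ∈ A, ∀ w, act v (clr R A.toList w) ↔ act v w := by
    intro A hA v hv w
    have h1 : ∀ u ∈ A.toList, ∀ w, act v (w * R.s u) = act v w := by
      intro u hu w
      rw [Finset.mem_toList] at hu
      by_cases huv : u = v
      · subst huv
        exact propext (hact.self u w)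
      · exact propext (hact.adj u v (hA (mem_coe.2 hu) (mem_coe.2 hv) huv) w)
    exact (clr_inv R h1 w).to_iff
  obtain ⟨hB1, hB2⟩ := finrank_EqF hle ρ
  let L : Ca R act Γ ρ d →ₗ[K] (Ω → EqF hle ρ) :=
    { toFun := fun c x => ⟨fun φ => c.1 x.1.1 (φ * x.1.2.out), fun g φ => by
        have h1 := c.2.1.2.2 x.1.1 g (φ * x.1.2.out)
        rw [← mul_assoc] at h1
        exact h1⟩
      map_add' := fun c c' => rfl
      map_smul' := fun a c => rfl }
  have hinj : Function.Injective L := by
    rw [← LinearMap.ker_eq_bot, LinearMap.ker_eq_bot']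
    intro c hc
    apply Subtype.ext
    funext A w
    by_contra hne
    have hne' : c.1 A w ≠ 0 := hne
    have h1 := c.2.1.1 A (fun h0 => hne' (by rw [h0]; rfl))
    have h2 : c.1 A (clr R A.toList w) = c.1 A w := by
      refine clr_inv R (f := c.1 A) (fun v hv w => c.2.1.2.1 A v (Finset.mem_toList.1 hv) w) w
    have h3 : P A (clr R A.toList w) := by
      refine ⟨h1.1, h1.2, fun v hv => ?_, fun v hv => ?_⟩
      · exact (hactc A h1.1 v hv w).2 (c.2.2 A w hne' v hv)
      · exact clr_bit R A.nodup_toList (Finset.mem_toList.2 hv) w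
    have h4 := congrFun hc ⟨(A, QuotientGroup.mk (clr R A.toList w)), (hPc A _).1 h3⟩
    have h5 := congrFun (congrArg Subtype.val h4) (wg Φ (clr R A.toList w))
    have h6 : c.1 A ((wg Φ (clr R A.toList w) : W) * (QuotientGroup.mk (clr R A.toList w) : W ⧸ Φ).out) = 0 := h5
    rw [wg_out_eq, h2] at h6
    exact hne' h6
  have hsurj : Function.Surjective L := by
    intro h
    let val : Finset V → W → K := fun A w =>
      if hp : P A (QuotientGroup.mk w : W ⧸ Φ).out then (h ⟨(A, QuotientGroup.mk w), hp⟩).1 (wg Φ w) else 0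
    have hval : ∀ A (g : Γ) w, val A (g * w) = ρ g (val A w) := by
      intro A g w
      have hmk : (QuotientGroup.mk ((g : W) * w) : W ⧸ Φ) = QuotientGroup.mk w :=
        mk_coe_mul (Γ := Φ) ⟨g, hle g.2⟩ w
      have hwg : wg Φ ((g : W) * w) = ⟨g, hle g.2⟩ * wg Φ w := wg_mul (Γ := Φ) ⟨g, hle g.2⟩ w
      by_cases hp : P A (QuotientGroup.mk w : W ⧸ Φ).out
      · have hp' : P A (QuotientGroup.mk ((g : W) * w) : W ⧸ Φ).out := by rw [hmk]; exact hp
        have hx : (⟨(A, QuotientGroup.mk ((g : W) * w)), hp'⟩ : Ω) = ⟨(A, QuotientGroup.mk w), hp⟩ :=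
          Subtype.ext (Prod.ext rfl hmk)
        have e1 : val A ((g : W) * w) = (h ⟨(A, QuotientGroup.mk ((g : W) * w)), hp'⟩).1 (wg Φ ((g : W) * w)) :=
          dif_pos hp'
        have e2 : val A w = (h ⟨(A, QuotientGroup.mk w), hp⟩).1 (wg Φ w) := dif_pos hp
        rw [e1, e2, hx, hwg]
        exact (h ⟨(A, QuotientGroup.mk w), hp⟩).2 g (wg Φ w)
      · have hp' : ¬ P A (QuotientGroup.mk ((g : W) * w) : W ⧸ Φ).out := by rw [hmk]; exact hp
        have e1 : val A ((g : W) * w) = 0 := dif_neg hp'
        have e2 : val A w = 0 := dif_neg hp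
        rw [e1, e2, map_zero]
    have hne : ∀ A w, val A w ≠ 0 → P A w := by
      intro A w hv
      by_contra hp
      exact hv (dif_neg fun h' => hp ((hPc A w).2 h'))
    let c : Finset V → W → K := fun A w => val A (clr R A.toList w)
    have hc : c ∈ Ca R act Γ ρ d := by
      refine ⟨⟨fun A hA => ?_, fun A v hv w => ?_, fun A g w => ?_⟩, fun A w hA v hv => ?_⟩
      · obtain ⟨w, hw⟩ := Function.ne_iff.1 hA
        have h1 := hne A _ hw
        exact ⟨h1.1, h1.2.1⟩
      · show val A (clr R A.toList (w * R.s v)) = val A (clr R A.toList w)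
        by_cases hA : G.IsClique (A : Set V)
        · rw [clr_s R (fun a ha b hb hab => hA (mem_coe.2 (Finset.mem_toList.1 ha))
            (mem_coe.2 (Finset.mem_toList.1 hb)) hab) (Finset.mem_toList.2 hv)]
        · have h1 : ∀ w, val A w = 0 := fun w => by
            by_contra h0
            exact hA (hne A w h0).1
          rw [h1, h1]
      · show val A (clr R A.toList ((g : W) * w)) = ρ g (val A (clr R A.toList w))
        rw [clr_mul R (hbit g), hval]
      · have h1 := hne A _ hA
        exact (hactc A h1.1 v hv w).1 (h1.2.2.1 v hv)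
    refine ⟨⟨c, hc⟩, ?_⟩
    funext x
    apply Subtype.ext
    funext φ
    show val x.1.1 (clr R x.1.1.toList ((φ : W) * x.1.2.out)) = (h x).1 φ
    have hx := x.2
    rw [clr_mul R (hΦ.bits _ φ.2), clr_self R (fun v hv => hx.2.2.2 v (Finset.mem_toList.1 hv))]
    have hmk : (QuotientGroup.mk ((φ : W) * x.1.2.out) : W ⧸ Φ) = x.1.2 := by
      rw [mk_coe_mul, QuotientGroup.out_eq']
    have hwg : wg Φ ((φ : W) * x.1.2.out) = φ := by
      rw [wg_mul, wg_out, mul_one]
    have hp : P x.1.1 (QuotientGroup.mk ((φ : W) * x.1.2.out) : W ⧸ Φ).out := by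
      rw [hmk]
      exact hx
    have e1 : val x.1.1 ((φ : W) * x.1.2.out) =
        (h ⟨(x.1.1, QuotientGroup.mk ((φ : W) * x.1.2.out)), hp⟩).1 (wg Φ ((φ : W) * x.1.2.out)) := dif_pos hp
    have hxx : (⟨(x.1.1, QuotientGroup.mk ((φ : W) * x.1.2.out)), hp⟩ : Ω) = x :=
      Subtype.ext (Prod.ext rfl hmk)
    rw [e1, hxx, hwg]
  let e : Ca R act Γ ρ d ≃ₗ[K] (Ω → EqF hle ρ) := LinearEquiv.ofBijective L ⟨hinj, hsurj⟩
  rw [e.finrank_eq, Module.finrank_pi_fintype, sum_const, card_univ, smul_eq_mul, hB2, mul_comm]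

theorem finite_Ca (R : Rac G W) {Γ : Subgroup W} [Γ.FiniteIndex] (act : V → W → Prop) {K : Type} [Field K] {N : Type}
    [AddCommGroup N] [Module K N] [FiniteDimensional K N] (ρ : Γ →* Module.End K N) (d : ℕ) :
    FiniteDimensional K (Ca R act Γ ρ d) := by
  classical
  haveI : Finite (W ⧸ Γ) := Subgroup.finite_quotient_of_finiteIndex
  let T := Quotient (QuotientGroup.rightRel Γ)
  haveI : Finite T := Finite.of_equiv _ (QuotientGroup.quotientRightRelEquivQuotientLeftRel Γ).symm
  let L : Ca R act Γ ρ d →ₗ[K] (Finset V → T → N) :=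
    { toFun := fun c A t => c.1 A t.out
      map_add' := fun c c' => rfl
      map_smul' := fun a c => rfl }
  refine FiniteDimensional.of_injective L ?_
  intro c c' h
  apply Subtype.ext
  funext A w
  have h1 : (QuotientGroup.rightRel Γ) w (Quotient.mk (QuotientGroup.rightRel Γ) w).out :=
    Quotient.exact (Quotient.out_eq _).symm
  rw [QuotientGroup.rightRel_apply] at h1
  have h2 := Γ.inv_mem h1
  rw [mul_inv_rev, inv_inv] at h2
  have h3 : w = ((⟨_, h2⟩ : Γ) : W) * (Quotient.mk (QuotientGroup.rightRel Γ) w).out := by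
    show w = w * ((Quotient.mk (QuotientGroup.rightRel Γ) w).out)⁻¹ * (Quotient.mk (QuotientGroup.rightRel Γ) w).out
    rw [inv_mul_cancel_right]
  have h4 : c.1 A (Quotient.mk (QuotientGroup.rightRel Γ) w).out =
      c'.1 A (Quotient.mk (QuotientGroup.rightRel Γ) w).out := congrFun (congrFun h A) _
  rw [h3, c.2.1.2.2, c'.2.1.2.2, h4]

end Pool.Agent.S10.EA
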