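import Pool.Agent.S10.EA.Mat
import Pool.Agent.S9.E.Lim
import Pool.Agent.S9.E.Red

/-!
# S10, block EA: the growth in the abelian tower over a level
-/

set_option autoImplicit false
set_option linter.unusedSectionVars false

open Finset

namespace Pool.Agent.S10.EA

open Pool.Agent.S9

variable {W : Type} [Group W] {T T' : Type} {I : Type}

/-- the reduction of `ab` modulo `2 ^ k` -/
noncomputable def fk {Γ : Subgroup W} (ab : Γ →* Multiplicative (I → ℤ)) (k : ℕ) :
    Γ →* Multiplicative (I → ZMod (2 ^ k)) :=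
  (AddMonoidHom.toMultiplicative (redZ I k)).comp ab

theorem fk_apply {Γ : Subgroup W} (ab : Γ →* Multiplicative (I → ℤ)) (k : ℕ) (g : Γ) :
    (fk ab k g).toAdd = redZ I k (ab g).toAdd := rfl

/-- the elements of `Γ` with values of `ab` divisible by `2 ^ k` -/
noncomputable def Mk {Γ : Subgroup W} (ab : Γ →* Multiplicative (I → ℤ)) (k : ℕ) : Subgroup W :=
  (fk ab k).ker.map Γ.subtype

/-- the matrix representation of the monomials -/
noncomputable def mu1 {Γ : Subgroup W} (ab : Γ →* Multiplicative (I → ℤ)) :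
    Γ →* Matrix (Fin 1) (Fin 1) (RI I) where
  toFun g := fun _ _ => ttR (ab g).toAdd
  map_one' := by
    ext a b
    rw [Subsingleton.elim a b, map_one, toAdd_one, Matrix.one_apply_eq]
    rfl
  map_mul' g h := by
    ext a b
    rw [Matrix.mul_apply, Fin.sum_univ_one, map_mul, toAdd_mul]
    unfold ttR
    rw [AddMonoidAlgebra.single_mul_single, mul_one]

theorem mu1_apply {Γ : Subgroup W} (ab : Γ →* Multiplicative (I → ℤ)) (g : Γ) (a b : Fin 1) :
    mu1 ab g a b = ttR (ab g).toAdd := rfl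

theorem mem_Mk {Γ : Subgroup W} {ab : Γ →* Multiplicative (I → ℤ)} {k : ℕ} {g : Γ} :
    (g : W) ∈ Mk ab k ↔ fk ab k g = 1 := by
  constructor
  · rintro ⟨x, hx, hxg⟩
    have : x = g := Subtype.ext hxg
    rw [← this]
    exact hx
  · intro h
    exact ⟨g, h, rfl⟩

theorem relIndex_Mk {Γ : Subgroup W} (ab : Γ →* Multiplicative (I → ℤ)) (k : ℕ) :
    (Mk ab k).relIndex Γ = Nat.card (fk ab k).range := by
  have h : (Mk ab k).subgroupOf Γ = (fk ab k).ker := by
    ext x
    rw [Subgroup.mem_subgroupOf, mem_Mk]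
    rfl
  rw [Subgroup.relIndex, h, Subgroup.index_ker]

/-- the solutions form a finite-dimensional space -/
theorem finite_ZL {K : Type} [Field K] {N : Type} [AddCommGroup N] [Module K N] [Module.Finite K N] [Finite T]
    (L : T' → W → Finset (T × W)) (Γ : Subgroup W) [Γ.FiniteIndex] (ρ : Γ →* Module.End K N) :
    Module.Finite K (ZL L Γ ρ) := by
  classical
  have := Fintype.ofFinite T
  have : Finite (W ⧸ Γ) := inferInstance
  have := Fintype.ofFinite (W ⧸ Γ)
  let e : ZL L Γ ρ →ₗ[K] (T → (W ⧸ Γ) → N) :=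
    { toFun := fun c t q => c.1 t (q.out)⁻¹
      map_add' := fun _ _ => rfl
      map_smul' := fun _ _ => rfl }
  refine Module.Finite.of_injective e ?_
  rw [← LinearMap.ker_eq_bot, LinearMap.ker_eq_bot']
  intro c hc
  apply Subtype.ext
  funext t w
  have h1 : ((QuotientGroup.mk w⁻¹ : W ⧸ Γ)) = QuotientGroup.mk (QuotientGroup.mk w⁻¹ : W ⧸ Γ).out :=
    (QuotientGroup.out_eq' _).symm
  rw [QuotientGroup.eq] at h1
  have h2 : w = ((w⁻¹)⁻¹ * (QuotientGroup.mk w⁻¹ : W ⧸ Γ).out) * ((QuotientGroup.mk w⁻¹ : W ⧸ Γ).out)⁻¹ := by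
    group
  have h3 := c.2.1 t ⟨_, h1⟩ ((QuotientGroup.mk w⁻¹ : W ⧸ Γ).out)⁻¹
  have h4 : c.1 t ((QuotientGroup.mk w⁻¹ : W ⧸ Γ).out)⁻¹ = 0 := congrFun (congrFun hc t) _
  rw [h4, map_zero] at h3
  rw [h2]
  exact h3

section Count

variable {Γ : Subgroup W} (ab : Γ →* Multiplicative (I → ℤ)) (k : ℕ)

private noncomputable def oo (x : I → ZMod (2 ^ k)) : Multiplicative (I → ZMod (2 ^ k)) :=
  (QuotientGroup.mk (Multiplicative.ofAdd x) : Multiplicative (I → ZMod (2 ^ k)) ⧸ (fk ab k).range).out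

private theorem gg_ex (x : I → ZMod (2 ^ k)) : ∃ g : Γ, fk ab k g = (oo ab k x)⁻¹ * Multiplicative.ofAdd x := by
  have h1 : (QuotientGroup.mk (oo ab k x) : Multiplicative (I → ZMod (2 ^ k)) ⧸ (fk ab k).range) =
      QuotientGroup.mk (Multiplicative.ofAdd x) := QuotientGroup.out_eq' _
  rw [QuotientGroup.eq] at h1
  exact h1

private noncomputable def gg (x : I → ZMod (2 ^ k)) : Γ := (gg_ex ab k x).choose

private theorem gg_spec (x : I → ZMod (2 ^ k)) :
    fk ab k (gg ab k x) = (oo ab k x)⁻¹ * Multiplicative.ofAdd x := (gg_ex ab k x).choose_spec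

private theorem mk_sub (x : I → ZMod (2 ^ k)) (g : Γ) :
    (QuotientGroup.mk (Multiplicative.ofAdd (-(fk ab k g).toAdd + x)) :
      Multiplicative (I → ZMod (2 ^ k)) ⧸ (fk ab k).range) = QuotientGroup.mk (Multiplicative.ofAdd x) := by
  rw [QuotientGroup.eq]
  refine ⟨g, ?_⟩
  rw [ofAdd_add, ofAdd_neg, ofAdd_toAdd]
  rw [mul_inv_rev, inv_inv, mul_assoc, mul_comm, mul_assoc, mul_inv_cancel, mul_one]

private theorem oo_sub (x : I → ZMod (2 ^ k)) (g : Γ) :
    oo ab k (-(fk ab k g).toAdd + x) = oo ab k x := by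
  unfold oo
  rw [mk_sub]

variable [Finite I] (L : T' → W → Finset (T × W))

/-- the solution over the group ring of a family of invariant solutions -/
private noncomputable def spread
    (F : Multiplicative (I → ZMod (2 ^ k)) ⧸ (fk ab k).range → T → W → ZMod 2) : T → W → Fin 1 → RK I k :=
  fun t w _ => (AddMonoidAlgebra.coeffLinearEquiv (ZMod 2)).symm
    ((Finsupp.linearEquivFunOnFinite (ZMod 2) (ZMod 2) (I → ZMod (2 ^ k))).symm fun x =>
      F (QuotientGroup.mk (Multiplicative.ofAdd x)) t (((gg ab k x)⁻¹ : Γ) * w))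

private theorem spread_coeff (F : Multiplicative (I → ZMod (2 ^ k)) ⧸ (fk ab k).range → T → W → ZMod 2)
    (t : T) (w : W) (a : Fin 1) (x : I → ZMod (2 ^ k)) : (spread ab k F t w a).coeff x =
      F (QuotientGroup.mk (Multiplicative.ofAdd x)) t (((gg ab k x)⁻¹ : Γ) * w) := rfl

private theorem rk_ext {y z : RK I k} (h : ∀ x, y.coeff x = z.coeff x) : y = z :=
  AddMonoidAlgebra.coeff_injective (Finsupp.ext h)

private theorem spread_mem (hL : LInv L Γ)
    (F : Multiplicative (I → ZMod (2 ^ k)) ⧸ (fk ab k).range → T → W → ZMod 2)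
    (hF : ∀ q, F q ∈ ZL L (Mk ab k) (1 : Mk ab k →* Module.End (ZMod 2) (ZMod 2))) :
    spread ab k F ∈ ZL L Γ (mrep2 (mmap (redR I k) (mu1 ab))) := by
  refine ⟨fun t g w => ?_, fun t' w => ?_⟩
  · funext a
    refine rk_ext k fun x => ?_
    rw [mrep2_apply, mmap_apply, Matrix.mulVec, dotProduct, Fin.sum_univ_one, Matrix.map_apply, mu1_apply,
      redR_ttR, AddMonoidAlgebra.coeff_single_mul_apply, one_mul, spread_coeff, spread_coeff]
    have h1 := gg_spec ab k x
    have h2 := gg_spec ab k (-(fk ab k g).toAdd + x)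
    rw [oo_sub] at h2
    have h3 := mk_sub ab k x g
    rw [← fk_apply, h3]
    have h4 : fk ab k ((gg ab k x)⁻¹ * g * gg ab k (-(fk ab k g).toAdd + x)) = 1 := by
      rw [map_mul, map_mul, map_inv, h1, h2, ofAdd_add, ofAdd_neg, ofAdd_toAdd]
      rw [mul_inv_rev, inv_inv]
      have h5 : ∀ a b c : Multiplicative (I → ZMod (2 ^ k)), a⁻¹ * b * c * (b⁻¹ * (c⁻¹ * a)) = 1 := by
        intro a b c
        apply Multiplicative.toAdd.injective
        simp only [toAdd_mul, toAdd_inv, toAdd_one]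
        abel
      exact h5 _ _ _
    have h6 := (hF (QuotientGroup.mk (Multiplicative.ofAdd x))).1 t
      ⟨(((gg ab k x)⁻¹ * g * gg ab k (-(fk ab k g).toAdd + x) : Γ) : W), mem_Mk.2 h4⟩
      (((gg ab k (-(fk ab k g).toAdd + x))⁻¹ : Γ) * w)
    rw [MonoidHom.one_apply] at h6
    have h7 : ((((gg ab k x)⁻¹ * g * gg ab k (-(fk ab k g).toAdd + x) : Γ) : W)) *
        ((((gg ab k (-(fk ab k g).toAdd + x))⁻¹ : Γ) : W) * w) = (((gg ab k x)⁻¹ : Γ) : W) * ((g : W) * w) := by
      push_cast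
      group
    change F _ t ((((gg ab k x)⁻¹ * g * gg ab k (-(fk ab k g).toAdd + x) : Γ) : W) *
        ((((gg ab k (-(fk ab k g).toAdd + x))⁻¹ : Γ) : W) * w)) = _ at h6
    rw [h7] at h6
    exact h6
  · funext a
    refine rk_ext k fun x => ?_
    have h1 := (hF (QuotientGroup.mk (Multiplicative.ofAdd x))).2 t' (((gg ab k x)⁻¹ : Γ) * w)
    rw [hL _ ((gg ab k x)⁻¹ : Γ).2] at h1
    rw [Finset.sum_apply, AddMonoidAlgebra.coeff_sum, Finsupp.finsetSum_apply]
    simp only [spread_coeff]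
    simp only [mul_assoc] at h1
    exact h1

/-- the dimension of the solutions over the group ring -/
theorem card_mul_z1_le [Finite T] [Γ.FiniteIndex] (hL : LInv L Γ) :
    2 ^ (k * Nat.card I) * z1 L (Mk ab k) ≤
      (Mk ab k).relIndex Γ * Module.finrank (ZMod 2) (ZL L Γ (mrep2 (mmap (redR I k) (mu1 ab)))) := by
  classical
  have := Fintype.ofFinite I
  have hfin : Finite (RK I k) := finite_RK k
  have : Finite (I → ZMod (2 ^ k)) := inferInstance
  have : Finite (Multiplicative (I → ZMod (2 ^ k))) := inferInstance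
  have hQ : Finite (Multiplicative (I → ZMod (2 ^ k)) ⧸ (fk ab k).range) := inferInstance
  have := Fintype.ofFinite (Multiplicative (I → ZMod (2 ^ k)) ⧸ (fk ab k).range)
  have hrel : (Mk ab k).relIndex Γ ≠ 0 := by
    rw [relIndex_Mk]
    exact Nat.card_pos.ne'
  have hle : Mk ab k ≤ Γ := by
    rintro _ ⟨x, _, rfl⟩
    exact x.2
  have hMf : (Mk ab k).FiniteIndex := by
    refine ⟨?_⟩
    rw [← Subgroup.relIndex_mul_index hle]
    exact mul_ne_zero hrel Subgroup.FiniteIndex.index_ne_zero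
  have hf1 : Module.Finite (ZMod 2) (ZL L (Mk ab k) (1 : Mk ab k →* Module.End (ZMod 2) (ZMod 2))) :=
    finite_ZL L _ _
  have hf2 : Module.Finite (ZMod 2) (ZL L Γ (mrep2 (mmap (redR I k) (mu1 ab)))) := finite_ZL L _ _
  let E : (Multiplicative (I → ZMod (2 ^ k)) ⧸ (fk ab k).range →
      ZL L (Mk ab k) (1 : Mk ab k →* Module.End (ZMod 2) (ZMod 2))) →ₗ[ZMod 2]
        ZL L Γ (mrep2 (mmap (redR I k) (mu1 ab))) :=
    { toFun := fun F => ⟨spread ab k fun q => (F q).1, spread_mem ab k L hL _ fun q => (F q).2⟩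
      map_add' := fun F F' => by
        apply Subtype.ext
        funext t w a
        exact rk_ext k fun x => rfl
      map_smul' := fun a F => by
        apply Subtype.ext
        funext t w b
        exact rk_ext k fun x => rfl }
  have hE : Function.Injective E := by
    rw [← LinearMap.ker_eq_bot, LinearMap.ker_eq_bot']
    intro F hF
    funext q
    apply Subtype.ext
    funext t w
    have h1 : (spread ab k (fun q => (F q).1) t w 0).coeff (Multiplicative.toAdd q.out) = 0 := by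
      have h2 : spread ab k (fun q => (F q).1) = 0 := congrArg Subtype.val hF
      rw [h2]
      rfl
    rw [spread_coeff, ofAdd_toAdd, QuotientGroup.out_eq'] at h1
    have h3 := gg_spec ab k (Multiplicative.toAdd q.out)
    have h4 : oo ab k (Multiplicative.toAdd q.out) = q.out := by
      unfold oo
      rw [ofAdd_toAdd, QuotientGroup.out_eq']
    rw [h4, ofAdd_toAdd, inv_mul_cancel] at h3
    have h5 : fk ab k (gg ab k (Multiplicative.toAdd q.out))⁻¹ = 1 := by rw [map_inv, h3, inv_one]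
    have h6 := (F q).2.1 t ⟨(((gg ab k (Multiplicative.toAdd q.out))⁻¹ : Γ) : W), mem_Mk.2 h5⟩ w
    rw [MonoidHom.one_apply] at h6
    exact h6.symm.trans h1
  have h1 := LinearMap.finrank_le_finrank_of_injective hE
  rw [Module.finrank_pi_fintype, Finset.sum_const, Finset.card_univ, smul_eq_mul] at h1
  have h2 := Subgroup.card_eq_card_quotient_mul_card_subgroup (fk ab k).range
  have h3 : Nat.card (Multiplicative (I → ZMod (2 ^ k))) = 2 ^ (k * Nat.card I) := by
    have h4 : Nat.card (Multiplicative (I → ZMod (2 ^ k))) = Nat.card (I → ZMod (2 ^ k)) := rfl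
    rw [h4, Nat.card_fun, Nat.card_zmod, pow_mul]
  rw [← h3, h2, relIndex_Mk, Nat.card_eq_fintype_card (α := Multiplicative (I → ZMod (2 ^ k)) ⧸ (fk ab k).range)]
  calc Fintype.card (Multiplicative (I → ZMod (2 ^ k)) ⧸ (fk ab k).range) * Nat.card (fk ab k).range *
        z1 L (Mk ab k)
      = Nat.card (fk ab k).range * (Fintype.card (Multiplicative (I → ZMod (2 ^ k)) ⧸ (fk ab k).range) *
        z1 L (Mk ab k)) := by ring
    _ ≤ _ := Nat.mul_le_mul_left _ h1

end Count

/-- the coefficients in the character as a matrix representation -/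
theorem zL_chiab (L : T' → W → Finset (T × W)) {Γ : Subgroup W} (ab : Γ →* Multiplicative (I → ℤ)) :
    zL L Γ (mrep (mmap (algebraMap (RI I) (KI I)) (mu1 ab))) = zL L Γ (ch (chiab ab)) := by
  have key : ∀ (g : Γ) (y : Fin 1 → KI I), (mrep (mmap (algebraMap (RI I) (KI I)) (mu1 ab)) g y) 0 =
      ch (chiab ab) g (y 0) := by
    intro g y
    rw [mrep_apply, mmap_apply, Matrix.mulVec, dotProduct, Fin.sum_univ_one, Matrix.map_apply, mu1_apply]
    rfl
  unfold zL
  refine LinearEquiv.finrank_eq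
    { toFun := fun c => ⟨fun t w => c.1 t w 0, fun t g w => ?_, fun t' w => ?_⟩
      invFun := fun c => ⟨fun t w _ => c.1 t w, fun t g w => ?_, fun t' w => ?_⟩
      map_add' := fun _ _ => rfl
      map_smul' := fun _ _ => rfl
      left_inv := fun c => ?_
      right_inv := fun c => rfl }
  · change c.1 t (g * w) 0 = _
    rw [c.2.1 t g w, key]
  · have h := congrFun (c.2.2 t' w) 0
    rw [Finset.sum_apply] at h
    exact h
  · funext a
    rw [Subsingleton.elim a 0, key]
    exact c.2.1 t g w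
  · funext a
    rw [Finset.sum_apply]
    exact c.2.2 t' w
  · apply Subtype.ext
    funext t w a
    change c.1 t w 0 = c.1 t w a
    rw [Subsingleton.elim a 0]

theorem Mk_le {Γ : Subgroup W} (ab : Γ →* Multiplicative (I → ℤ)) (k : ℕ) : Mk ab k ≤ Γ := by
  rintro _ ⟨x, _, rfl⟩
  exact x.2

theorem Mk_normal_sub {Γ : Subgroup W} (ab : Γ →* Multiplicative (I → ℤ)) (k : ℕ) :
    ((Mk ab k).subgroupOf Γ).Normal := by
  have h : (Mk ab k).subgroupOf Γ = (fk ab k).ker := by
    ext x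
    rw [Subgroup.mem_subgroupOf, mem_Mk]
    rfl
  rw [h]
  infer_instance

theorem Mk_finiteIndex [Finite I] {Γ : Subgroup W} [Γ.FiniteIndex] (ab : Γ →* Multiplicative (I → ℤ)) (k : ℕ) :
    (Mk ab k).FiniteIndex := by
  refine ⟨?_⟩
  have : Finite (I → ZMod (2 ^ k)) := inferInstance
  have : Finite (Multiplicative (I → ZMod (2 ^ k))) := inferInstance
  rw [← Subgroup.relIndex_mul_index (Mk_le ab k), relIndex_Mk]
  exact mul_ne_zero Nat.card_pos.ne' Subgroup.FiniteIndex.index_ne_zero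

/-- the quotient is a two-group -/
theorem Mk_two {Γ : Subgroup W} (ab : Γ →* Multiplicative (I → ℤ)) (k : ℕ) (x : W) (hx : x ∈ Γ) :
    x ^ 2 ^ k ∈ Mk ab k := by
  have h : fk ab k (⟨x, hx⟩ ^ 2 ^ k) = 1 := by
    apply Multiplicative.toAdd.injective
    rw [map_pow, toAdd_pow, toAdd_one]
    funext i
    rw [Pi.smul_apply, Pi.zero_apply, nsmul_eq_mul]
    have h2 : ((2 ^ k : ℕ) : ZMod (2 ^ k)) = 0 := ZMod.natCast_self (2 ^ k)
    rw [h2, zero_mul]
  exact mem_Mk.2 h

/-- **The growth in the abelian tower** over `Γ` is at most the dimension over the field of the character. -/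
theorem grow_rel [Finite T] [Finite T'] [Finite I] {Γ : Subgroup W} [Γ.Normal] [Γ.FiniteIndex]
    (ab : Γ →* Multiplicative (I → ℤ)) (L : T' → W → Finset (T × W)) (hL : LInv L Γ) (ε : ℝ) (hε : 0 < ε) :
    ∃ k₀ : ℕ, ∀ k ≥ k₀, (z1 L (Mk ab k) : ℝ) ≤
      ((zL L Γ (ch (chiab ab)) : ℝ) + ε) * (Mk ab k).relIndex Γ := by
  classical
  have := Fintype.ofFinite I
  have := Fintype.ofFinite T
  have := Fintype.ofFinite T'
  have : Finite (W ⧸ Γ) := inferInstance
  have := Fintype.ofFinite (W ⧸ Γ)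
  obtain ⟨k₀, h₀⟩ := rank_lim (BL L (mu1 ab)) ε hε
  refine ⟨k₀, fun k hk => ?_⟩
  have h1 := h₀ k hk
  have hfin : Finite (RK I k) := finite_RK k
  rw [BL_map, BL_map] at h1
  have h2 := zL2_add_rank (S := RK I k) hL (mmap (redR I k) (mu1 ab))
  have h3 := zL_add_rank hL (mmap (algebraMap (RI I) (KI I)) (mu1 ab))
  rw [zL_chiab] at h3
  rw [finrank_RK] at h2
  have h4 := card_mul_z1_le ab k L hL
  rw [Nat.card_eq_fintype_card (α := I)] at h4
  have h5 : (zL L Γ (mrep2 (mmap (redR I k) (mu1 ab))) : ℝ) +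
      (Module.finrank (ZMod 2) (LinearMap.range
        ((BL L (mmap (redR I k) (mu1 ab))).mulVecLin.restrictScalars (ZMod 2))) : ℝ) =
      (Fintype.card (T × (W ⧸ Γ) × Fin 1) : ℝ) * 2 ^ (k * Fintype.card I) := by exact_mod_cast h2
  have h6 : (zL L Γ (ch (chiab ab)) : ℝ) +
      ((BL L (mmap (algebraMap (RI I) (KI I)) (mu1 ab))).rank : ℝ) =
      (Fintype.card (T × (W ⧸ Γ) × Fin 1) : ℝ) := by exact_mod_cast h3
  have h7 : (2 : ℝ) ^ (k * Fintype.card I) * (z1 L (Mk ab k) : ℝ) ≤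
      (Mk ab k).relIndex Γ * (zL L Γ (mrep2 (mmap (redR I k) (mu1 ab))) : ℝ) := by exact_mod_cast h4
  have h8 : (0 : ℝ) < 2 ^ (k * Fintype.card I) := by positivity
  have h9 : (zL L Γ (mrep2 (mmap (redR I k) (mu1 ab))) : ℝ) ≤
      ((zL L Γ (ch (chiab ab)) : ℝ) + ε) * 2 ^ (k * Fintype.card I) := by
    rw [← h6] at h5
    nlinarith [h1, h5]
  have h10 : (0 : ℝ) ≤ (Mk ab k).relIndex Γ := Nat.cast_nonneg _
  have h11 : (2 : ℝ) ^ (k * Fintype.card I) * (z1 L (Mk ab k) : ℝ) ≤
      2 ^ (k * Fintype.card I) * (((zL L Γ (ch (chiab ab)) : ℝ) + ε) * (Mk ab k).relIndex Γ) := by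
    calc (2 : ℝ) ^ (k * Fintype.card I) * (z1 L (Mk ab k) : ℝ)
        ≤ (Mk ab k).relIndex Γ * (zL L Γ (mrep2 (mmap (redR I k) (mu1 ab))) : ℝ) := h7
      _ ≤ (Mk ab k).relIndex Γ * (((zL L Γ (ch (chiab ab)) : ℝ) + ε) * 2 ^ (k * Fintype.card I)) :=
        mul_le_mul_of_nonneg_left h9 h10
      _ = _ := by ring
  exact le_of_mul_le_mul_left h11 h8

/-- the index of `Mk` for surjective `ab` -/
theorem Mk_relIndex [Fintype I] {Γ : Subgroup W} (ab : Γ →* Multiplicative (I → ℤ)) (hab : Function.Surjective ab)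
    (k : ℕ) : (Mk ab k).relIndex Γ = 2 ^ (k * Fintype.card I) := by
  classical
  have hs : Function.Surjective (fk ab k) := by
    intro x
    have h1 : ∀ i, ∃ z : ℤ, (z : ZMod (2 ^ k)) = (Multiplicative.toAdd x) i := fun i =>
      ZMod.intCast_surjective _
    choose z hz using h1
    obtain ⟨g, hg⟩ := hab (Multiplicative.ofAdd z)
    refine ⟨g, ?_⟩
    apply Multiplicative.toAdd.injective
    rw [fk_apply, hg, toAdd_ofAdd]
    funext i
    exact hz i
  have h1 : (fk ab k).range = ⊤ := MonoidHom.range_eq_top.2 hs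
  rw [relIndex_Mk, h1, Nat.card_congr Subgroup.topEquiv.toEquiv]
  have h4 : Nat.card (Multiplicative (I → ZMod (2 ^ k))) = Nat.card (I → ZMod (2 ^ k)) := rfl
  rw [h4, Nat.card_fun, Nat.card_zmod, pow_mul, Nat.card_eq_fintype_card]

/-- `Mk` is normal in the whole group, if `ab` is surjective and every homomorphism to `ℤ` factors through `ab` -/
theorem Mk_normal {Γ : Subgroup W} [Γ.Normal] (ab : Γ →* Multiplicative (I → ℤ)) (hab : Function.Surjective ab)
    (h0 : ∀ f : Γ →* Multiplicative ℤ, ∀ g, ab g = 1 → f g = 1) (k : ℕ) : (Mk ab k).Normal := by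
  refine ⟨fun x hx w => ?_⟩
  obtain ⟨g, hg, rfl⟩ := hx
  have hg' : fk ab k g = 1 := hg
  have h1 : ∀ i, ∃ z : ℤ, (Multiplicative.toAdd (ab g)) i = (2 ^ k : ℕ) * z := by
    intro i
    have h2 : (((Multiplicative.toAdd (ab g)) i : ℤ) : ZMod (2 ^ k)) = 0 :=
      congrFun (congrArg Multiplicative.toAdd hg') i
    exact (ZMod.intCast_zmod_eq_zero_iff_dvd _ _).1 h2
  choose z hz using h1
  obtain ⟨g', hg2⟩ := hab (Multiplicative.ofAdd z)
  have h3 : ab (g * (g' ^ 2 ^ k)⁻¹) = 1 := by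
    apply Multiplicative.toAdd.injective
    rw [map_mul, map_inv, map_pow, hg2, toAdd_mul, toAdd_inv, toAdd_pow, toAdd_ofAdd, toAdd_one]
    funext i
    rw [Pi.add_apply, Pi.neg_apply, Pi.smul_apply, hz i, nsmul_eq_mul, Pi.zero_apply]
    ring
  have h4 : (w * (g : W) * w⁻¹ : W) = ((MulAut.conjNormal w g : Γ) : W) := (MulAut.conjNormal_apply w g).symm
  change w * (g : W) * w⁻¹ ∈ Mk ab k
  rw [h4, mem_Mk]
  apply Multiplicative.toAdd.injective
  rw [fk_apply, toAdd_one]
  funext i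
  have h5 := h0 ((AddMonoidHom.toMultiplicative (Pi.evalAddMonoidHom (fun _ : I => ℤ) i)).comp
    (ab.comp (MulAut.conjNormal w).toMonoidHom)) _ h3
  rw [map_mul, map_inv, mul_inv_eq_one, map_pow] at h5
  have h6 : (Multiplicative.toAdd (ab (MulAut.conjNormal w g))) i =
      (2 ^ k : ℕ) * (Multiplicative.toAdd (ab (MulAut.conjNormal w g'))) i := by
    have h7 := congrArg Multiplicative.toAdd h5
    rw [toAdd_pow, nsmul_eq_mul] at h7
    exact h7
  change (((Multiplicative.toAdd (ab (MulAut.conjNormal w g))) i : ℤ) : ZMod (2 ^ k)) = 0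
  rw [h6, ZMod.intCast_zmod_eq_zero_iff_dvd]
  exact Dvd.intro _ rfl

/-- the growth of the invariants of the kernels `Mk` is at most the dimension of the character -/
theorem grow [Finite T] [Finite T'] [Fintype I] {L : T' → W → Finset (T × W)} {Γ : Subgroup W} [Γ.Normal]
    [Γ.FiniteIndex] (hL : LInv L Γ) (ab : Γ →* Multiplicative (I → ℤ)) (hab : Function.Surjective ab)
    (ε : ℝ) (hε : 0 < ε) : ∃ k₀ : ℕ, ∀ k ≥ k₀,
      (z1 L (Mk ab k) : ℝ) ≤ ((zL L Γ (ch (chiab ab)) : ℝ) + ε) * 2 ^ (k * Fintype.card I) := by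
  obtain ⟨k₀, h₀⟩ := grow_rel ab L hL ε hε
  refine ⟨k₀, fun k hk => ?_⟩
  have h1 := h₀ k hk
  rw [Mk_relIndex ab hab] at h1
  exact_mod_cast h1

end Pool.Agent.S10.EA
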