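import Pool.Agent.S10.EA.Min
import Pool.Agent.S10.EA.Core
import Pool.Agent.S10.EA.Grow
import Pool.Agent.S10.EA.Cyc
import Pool.Agent.S10.EA.DictC

/-!
# Project S10, block E: the main statement (helper73)
-/

set_option autoImplicit false
set_option linter.unusedSectionVars false

open Finset

namespace Pool.Agent.S10.EA

open Pool.Agent.S9 Pool.Agent.S10

variable {V : Type} [DecidableEq V] [Fintype V] {G : SimpleGraph V} {W : Type} [Group W]

/-- rank and nullity of the boundary map -/
theorem finrank_Ba (R : Rac G W) {Γ : Subgroup W} [Γ.FiniteIndex] (act : V → W → Prop) {K : Type} [Field K] {N : Type}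
    [AddCommGroup N] [Module K N] [FiniteDimensional K N] (ρ : Γ →* Module.End K N) (i : ℕ) :
    Module.finrank K (Ba R act Γ ρ i) + Module.finrank K (Za R act Γ ρ (i + 1)) =
      Module.finrank K (Ca R act Γ ρ (i + 1)) := by
  have h0 := finite_Ca R act ρ (i + 1)
  have h1 := LinearMap.finrank_range_add_finrank_ker ((bd K).domRestrict (Ca R act Γ ρ (i + 1)))
  have h2 : LinearMap.range ((bd K).domRestrict (Ca R act Γ ρ (i + 1))) = Ba R act Γ ρ i := by
    rw [LinearMap.range_domRestrict]
    rfl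
  have h3 : (LinearMap.ker ((bd K).domRestrict (Ca R act Γ ρ (i + 1)))).map (Ca R act Γ ρ (i + 1)).subtype =
      Za R act Γ ρ (i + 1) := by
    ext c
    constructor
    · rintro ⟨x, hx, rfl⟩
      exact ⟨x.2, hx⟩
    · rintro ⟨h4, h5⟩
      exact ⟨⟨c, h4⟩, h5, rfl⟩
  have h4 : Module.finrank K (LinearMap.ker ((bd K).domRestrict (Ca R act Γ ρ (i + 1)))) =
      Module.finrank K (Za R act Γ ρ (i + 1)) := by
    rw [← h3, Submodule.finrank_map_subtype_eq]
  rw [← h2, ← h4]
  exact h1

/-- the dimension of the solutions of the local system of the cycles -/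
theorem zL_eq (R : Rac G W) {Γ : Subgroup W} [Γ.FiniteIndex] (act : V → W → Prop) (i : ℕ) {K : Type} [Field K]
    [CharP K 2] {N : Type} [AddCommGroup N] [Module K N] [FiniteDimensional K N] (ρ : Γ →* Module.End K N) :
    Module.finrank K (ZL (Lz R act i) Γ ρ) =
      Module.finrank K (Za R act Γ ρ i) + Module.finrank K (Za R act Γ ρ (i + 1)) := by
  have h0 : ∀ d, FiniteDimensional K (Za R act Γ ρ d) := fun d => by
    have := finite_Ca R act ρ d
    exact Submodule.finiteDimensional_inf_left _ _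
  rw [LinearEquiv.finrank_eq (zE R act i Γ ρ), Module.finrank_pi_fintype, Fin.sum_univ_two]
  rfl

/-- BLOCK E: there is a level at which all cycles lift to all triangular modules, and the growth is the dimension of the
homology with coefficients in `χ` -/
theorem EA_main (R : Rac G W) {Φ : Subgroup W} (hΦ : Lev0 R Φ) (act : V → W → Prop) (hact : IsActv R Φ act) (i : ℕ) :
    ∃ (m : ℕ) (K : Type) (_ : Field K) (_ : CharP K 2) (χ : twr Φ m →* Kˣ),
      (∀ z₀ ∈ Za R act (twr Φ m) (ch χ) i, LiftsA R act (twr Φ m) χ i z₀) ∧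
      ((∀ z₀ ∈ Za R act (twr Φ m) (ch χ) i, z₀ ∈ Ba R act (twr Φ m) (ch χ) i) → GZA R act Φ i) := by
  classical
  have hL := lz_inv hact i
  obtain ⟨m, r, ab, hs, hf, hmin⟩ := min_ex R hΦ hL
  have hchar : CharP (KI (Fin r)) 2 := by
    exact charP_of_injective_ringHom (((algebraMap (RI (Fin r)) (KI (Fin r))).comp
      (algebraMap (ZMod 2) (RI (Fin r)))).injective) 2
  have hno : (twr Φ m).Normal := (hΦ.twr m).normal
  have hfi : (twr Φ m).FiniteIndex := (hΦ.twr m).fin
  have hFG := R.fg
  have hFG' : Group.FG (twr Φ m) := Subgroup.fg_of_index_ne_zero _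
  have hle : twr Φ m ≤ Φ := twr_le Φ m
  have hLm : LInv (Lz R act i) (twr Φ m) := hL.mono hle
  refine ⟨m, KI (Fin r), inferInstance, hchar, chiab ab, fun z₀ hz₀ => ?_, fun h => ?_⟩
  · intro N _ _ _ ρ π hρ hπ hinv
    obtain ⟨c, hc, hcπ⟩ := lifts_ZL hLm ab hs hf hmin N ρ π hρ hπ hinv
      (fun t => if t.1 = 0 then z₀ t.2 else 0) ((mem_lz R act i).2 fun j => by
        by_cases hj : j = 0
        · subst hj
          exact hz₀
        · have h1 : (fun A => if ((j, A) : Fin 2 × Finset V).1 = 0 then z₀ ((j, A) : Fin 2 × Finset V).2 else 0) =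
              (0 : Finset V → W → KI (Fin r)) := by
            funext A
            exact if_neg hj
          rw [h1]
          exact Submodule.zero_mem _)
    exact ⟨fun A => c (0, A), (mem_lz R act i).1 hc 0, fun A w => hcπ (0, A) w⟩
  · intro ε hε
    obtain ⟨q, hq⟩ := finrank_Ca R hΦ act hact (i + 1)
    obtain ⟨k, hk⟩ := grow hLm ab hs ε hε
    have h1 := hk k le_rfl
    have hMle : Mk ab k ≤ twr Φ m := by
      rintro _ ⟨x, _, rfl⟩
      exact x.2
    have hMr := Mk_relIndex ab hs k
    have hMi : (Mk ab k).FiniteIndex := by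
      have h2 := Subgroup.relIndex_mul_index hMle
      refine ⟨?_⟩
      rw [← h2, hMr]
      exact mul_ne_zero (by positivity) hfi.index_ne_zero
    have hMn : (Mk ab k).Normal := Mk_normal ab hs hf k
    refine ⟨Mk ab k, hMn, hMi, hMle.trans hle, ?_⟩
    -- the character
    have e1 := zL_eq R act i (ch (chiab ab))
    have e2 := finrank_Ba R act (ch (chiab ab)) i
    have e3 := hq _ (twr Φ m) (ch (chiab ab)) hle hfi
    have e4 : Module.finrank (KI (Fin r)) (Za R act (twr Φ m) (ch (chiab ab)) i) ≤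
        Module.finrank (KI (Fin r)) (Ba R act (twr Φ m) (ch (chiab ab)) i) := by
      have h0 := finite_Ca R act (ch (chiab ab)) (i + 1)
      have h2 : FiniteDimensional (KI (Fin r)) (Ba R act (twr Φ m) (ch (chiab ab)) i) := by
        unfold Ba
        infer_instance
      exact Submodule.finrank_mono h
    have e5 : zL (Lz R act i) (twr Φ m) (ch (chiab ab)) ≤ (twr Φ m).relIndex Φ * q := by
      unfold zL
      omega
    -- the invariants
    have f1 := zL_eq R act i (1 : Mk ab k →* Module.End (ZMod 2) (ZMod 2))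
    have f2 := finrank_Ba R act (1 : Mk ab k →* Module.End (ZMod 2) (ZMod 2)) i
    have f3 := hq _ (Mk ab k) (1 : Mk ab k →* Module.End (ZMod 2) (ZMod 2)) (hMle.trans hle) hMi
    have f4 : (Mk ab k).relIndex Φ = 2 ^ (k * Fintype.card (Fin r)) * (twr Φ m).relIndex Φ := by
      rw [← hMr]
      exact (Subgroup.relIndex_mul_relIndex _ _ _ hMle hle).symm
    have f5 : (Mk ab k).index = 2 ^ (k * Fintype.card (Fin r)) * (twr Φ m).index := by
      rw [← hMr]
      exact (Subgroup.relIndex_mul_index hMle).symm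
    have f6 : (hha R act (Mk ab k) (1 : Mk ab k →* Module.End (ZMod 2) (ZMod 2)) i : ℝ) =
        (z1 (Lz R act i) (Mk ab k) : ℝ) - 2 ^ (k * Fintype.card (Fin r)) * ((twr Φ m).relIndex Φ * q : ℕ) := by
      have f7 : hha R act (Mk ab k) (1 : Mk ab k →* Module.End (ZMod 2) (ZMod 2)) i =
          (z1 (Lz R act i) (Mk ab k) : ℤ) - 2 ^ (k * Fintype.card (Fin r)) * ((twr Φ m).relIndex Φ * q : ℕ) := by
        unfold hha z1
        rw [f1]
        rw [f4, mul_assoc] at f3
        rw [f3] at f2
        push_cast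
        have f8 : (Module.finrank (ZMod 2) (Ba R act (Mk ab k) (1 : Mk ab k →* Module.End (ZMod 2) (ZMod 2)) i) : ℤ) +
            Module.finrank (ZMod 2) (Za R act (Mk ab k) (1 : Mk ab k →* Module.End (ZMod 2) (ZMod 2)) (i + 1)) =
              2 ^ (k * Fintype.card (Fin r)) * ((twr Φ m).relIndex Φ * q) := by exact_mod_cast f2
        linarith
      rw [f7]
      push_cast
      ring
    have f8 : (0 : ℝ) < 2 ^ (k * Fintype.card (Fin r)) := by positivity
    have e6 : (zL (Lz R act i) (twr Φ m) (ch (chiab ab)) : ℝ) ≤ ((twr Φ m).relIndex Φ * q : ℕ) := by exact_mod_cast e5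
    have f9 : (1 : ℝ) ≤ (twr Φ m).index := by exact_mod_cast Nat.one_le_iff_ne_zero.2 hfi.index_ne_zero
    rw [f6, f5]
    push_cast at h1 e6 ⊢
    have f10 := mul_le_mul_of_nonneg_left e6 f8.le
    have f11 : ε * 2 ^ (k * Fintype.card (Fin r)) * 1 ≤ ε * 2 ^ (k * Fintype.card (Fin r)) * (twr Φ m).index :=
      mul_le_mul_of_nonneg_left f9 (by positivity)
    nlinarith

end Pool.Agent.S10.EA
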