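import Pool.Agent.S10.EA.Defs
import Pool.Agent.S10.EA.Lat

/-!
# Project S10, block E: isomorphic coefficients, conjugate matrix representations
-/

set_option autoImplicit false
set_option linter.unusedSectionVars false

open Finset

namespace Pool.Agent.S10.EA.Conj

open Pool.Agent.S9 Pool.Agent.S10.EA

variable {W : Type} [Group W] {T T' : Type}

section Lin

variable {S : Type} [CommRing S] {N N' : Type} [AddCommGroup N] [Module S N] [AddCommGroup N'] [Module S N']

/-- the image of a solution under an equivariant linear map -/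
theorem map_mem_ZL {L : T' → W → Finset (T × W)} {Γ : Subgroup W} {ρ : Γ →* Module.End S N}
    {ρ' : Γ →* Module.End S N'} (φ : N →ₗ[S] N') (h : ∀ g y, φ (ρ g y) = ρ' g (φ y)) {c : T → W → N}
    (hc : c ∈ ZL L Γ ρ) : (fun t w => φ (c t w)) ∈ ZL L Γ ρ' := by
  obtain ⟨h1, h2⟩ := hc
  refine ⟨fun t g w => ?_, fun t' w => ?_⟩
  · change φ (c t (g * w)) = ρ' g (φ (c t w))
    rw [h1, h]
  · change ∑ x ∈ L t' w, φ (c x.1 (w * x.2)) = 0
    rw [← map_sum, h2, map_zero]

/-- isomorphic coefficients have isomorphic solutions -/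
def ZLcongr (L : T' → W → Finset (T × W)) {Γ : Subgroup W} {ρ : Γ →* Module.End S N}
    {ρ' : Γ →* Module.End S N'} (φ : N ≃ₗ[S] N') (h : ∀ g y, φ (ρ g y) = ρ' g (φ y)) :
    ZL L Γ ρ ≃ₗ[S] ZL L Γ ρ' where
  toFun c := ⟨fun t w => φ (c.1 t w), map_mem_ZL φ.toLinearMap h c.2⟩
  invFun c := ⟨fun t w => φ.symm (c.1 t w), map_mem_ZL φ.symm.toLinearMap (fun g y => by
    change φ.symm (ρ' g y) = ρ g (φ.symm y)
    rw [LinearEquiv.symm_apply_eq, h, LinearEquiv.apply_symm_apply]) c.2⟩
  map_add' c c' := by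
    refine Subtype.ext ?_
    funext t w
    exact map_add φ _ _
  map_smul' a c := by
    refine Subtype.ext ?_
    funext t w
    exact map_smul φ a _
  left_inv c := by
    refine Subtype.ext ?_
    funext t w
    exact φ.symm_apply_apply _
  right_inv c := by
    refine Subtype.ext ?_
    funext t w
    exact φ.apply_symm_apply _

end Lin

/-- isomorphic coefficients: the dimensions agree -/
theorem zL_congr {K : Type} [Field K] {N N' : Type} [AddCommGroup N] [Module K N] [AddCommGroup N'] [Module K N']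
    (L : T' → W → Finset (T × W)) {Γ : Subgroup W} {ρ : Γ →* Module.End K N} {ρ' : Γ →* Module.End K N'}
    (φ : N ≃ₗ[K] N') (h : ∀ g y, φ (ρ g y) = ρ' g (φ y)) : zL L Γ ρ = zL L Γ ρ' :=
  LinearEquiv.finrank_eq (ZLcongr L φ h)

/-- conjugate matrix representations: the dimensions agree -/
theorem zL_conj {K : Type} [Field K] {n : ℕ} (L : T' → W → Finset (T × W)) {Γ : Subgroup W}
    (μ μ' : Γ →* Matrix (Fin n) (Fin n) K) (B B' : Matrix (Fin n) (Fin n) K) (h1 : B * B' = 1) (h2 : B' * B = 1)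
    (h : ∀ g, B * μ' g = μ g * B) : zL L Γ (mrep μ') = zL L Γ (mrep μ) := by
  refine zL_congr L (LinearEquiv.ofLinearMap B.mulVecLin B'.mulVecLin ?_ ?_) fun g y => ?_
  · rw [← Matrix.mulVecLin_mul, h1, Matrix.mulVecLin_one]
  · rw [← Matrix.mulVecLin_mul, h2, Matrix.mulVecLin_one]
  · change B.mulVec ((μ' g).mulVec y) = (μ g).mulVec (B.mulVec y)
    rw [Matrix.mulVec_mulVec, Matrix.mulVec_mulVec, h]

/-- **The lattice has the same dimensions**: for `Γ` finitely generated, a triangular representation over `KI I` with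
monomials on the diagonal has the dimensions of a triangular representation over `RI I` with the same diagonal. -/
theorem exists_lat_zL {Γ : Subgroup W} (hfg : Group.FG Γ) {I : Type} [Fintype I] {n : ℕ}
    (μ : Γ →* Matrix (Fin n) (Fin n) (KI I)) (htri : UTri μ) (w : Γ → Fin n → I → ℤ)
    (hw : ∀ g a, μ g a a = tt (w g a)) :
    ∃ μ' : Γ →* Matrix (Fin n) (Fin n) (RI I), UTri μ' ∧ (∀ g a, μ' g a a = ttR (w g a)) ∧
      ∀ {T T' : Type} (L : T' → W → Finset (T × W)),
        zL L Γ (mrep (mmap (algebraMap (RI I) (KI I)) μ')) = zL L Γ (mrep μ) := by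
  obtain ⟨d, hd0, μ', h1, h2, h3⟩ := lat hfg μ htri w hw
  have hdK : algebraMap (RI I) (KI I) d ≠ 0 := by
    intro h0
    exact hd0 ((IsFractionRing.injective (RI I) (KI I)) (h0.trans (map_zero _).symm))
  exact ⟨μ', h1, h2, fun L => zL_conj L μ _ _ _ (dg_mul_dg_inv hdK) (dg_inv_mul_dg hdK) h3⟩

end Pool.Agent.S10.EA.Conj
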