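import Pool.Agent.S9.DictZ

/-!
# Project S10, block E: solutions of a local system of equations

`W` acts on `T × W` by left translations. A local system over `Φ ≤ W` is a family of finite sets `L t' w ⊆ T × W`,
invariant under the left translations of `w` by `Φ`; the equation `(t', w)` for `c : T → W → N` is
`∑ x ∈ L t' w, c x.1 (w * x.2) = 0`. The cycles of a cube complex with a `W`-action (with an activity predicate)
are the solutions of such a system.
-/

set_option autoImplicit false
set_option linter.unusedSectionVars false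

open Finset

namespace Pool.Agent.S10.EA

open Pool.Agent.S9

variable {W : Type} [Group W] {T T' : Type}

/-- the local equations are invariant under the left translations by `Φ` -/
def LInv (L : T' → W → Finset (T × W)) (Φ : Subgroup W) : Prop :=
  ∀ g ∈ Φ, ∀ t' w, L t' (g * w) = L t' w

theorem LInv.mono {L : T' → W → Finset (T × W)} {Φ Γ : Subgroup W} (hL : LInv L Φ) (h : Γ ≤ Φ) : LInv L Γ :=
  fun g hg => hL g (h hg)

section Sol

variable {S : Type} [CommRing S] {N : Type} [AddCommGroup N] [Module S N]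

/-- the solutions of the local equations which are equivariant under `Γ` with coefficients in `ρ` -/
def ZL (L : T' → W → Finset (T × W)) (Γ : Subgroup W) (ρ : Γ →* Module.End S N) : Submodule S (T → W → N) where
  carrier := {c | (∀ t, ∀ g : Γ, ∀ w, c t (g * w) = ρ g (c t w)) ∧ ∀ t' w, ∑ x ∈ L t' w, c x.1 (w * x.2) = 0}
  zero_mem' := ⟨fun _ g _ => (map_zero (ρ g)).symm, fun _ _ => Finset.sum_eq_zero fun _ _ => rfl⟩
  add_mem' := by
    rintro c c' ⟨h1, h2⟩ ⟨h3, h4⟩
    refine ⟨fun t g w => ?_, fun t' w => ?_⟩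
    · rw [Pi.add_apply, Pi.add_apply, Pi.add_apply, h1, h3, map_add]
    · simp only [Pi.add_apply]
      rw [sum_add_distrib, h2, h4, add_zero]
  smul_mem' := by
    rintro a c ⟨h1, h2⟩
    refine ⟨fun t g w => ?_, fun t' w => ?_⟩
    · rw [Pi.smul_apply, Pi.smul_apply, Pi.smul_apply, h1, map_smul]
    · simp only [Pi.smul_apply]
      rw [← smul_sum, h2, smul_zero]

theorem mem_ZL {L : T' → W → Finset (T × W)} {Γ : Subgroup W} {ρ : Γ →* Module.End S N} {c : T → W → N} :
    c ∈ ZL L Γ ρ ↔ (∀ t, ∀ g : Γ, ∀ w, c t (g * w) = ρ g (c t w)) ∧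
      ∀ t' w, ∑ x ∈ L t' w, c x.1 (w * x.2) = 0 := Iff.rfl

end Sol

/-- the dimension of the solutions over a field -/
noncomputable def zL {K : Type} [Field K] {N : Type} [AddCommGroup N] [Module K N] (L : T' → W → Finset (T × W))
    (Γ : Subgroup W) (ρ : Γ →* Module.End K N) : ℕ :=
  Module.finrank K (ZL L Γ ρ)

/-- the dimension over `𝔽₂` of the solutions which are invariant under `M` -/
noncomputable def z1 (L : T' → W → Finset (T × W)) (M : Subgroup W) : ℕ :=
  Module.finrank (ZMod 2) (ZL L M (1 : M →* Module.End (ZMod 2) (ZMod 2)))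

section Mrep

variable {Γ : Type} [Group Γ] {S : Type} [CommRing S] {n : ℕ}

/-- the representation of a matrix representation -/
def mrep (μ : Γ →* Matrix (Fin n) (Fin n) S) : Γ →* Module.End S (Fin n → S) where
  toFun g := (μ g).mulVecLin
  map_one' := by
    rw [map_one, Matrix.mulVecLin_one]
    rfl
  map_mul' g h := by
    rw [map_mul, Matrix.mulVecLin_mul]
    rfl

theorem mrep_apply (μ : Γ →* Matrix (Fin n) (Fin n) S) (g : Γ) (x : Fin n → S) :
    mrep μ g x = (μ g).mulVec x := rfl

/-- the same as a representation over `𝔽₂` -/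
def mrep2 [Algebra (ZMod 2) S] (μ : Γ →* Matrix (Fin n) (Fin n) S) : Γ →* Module.End (ZMod 2) (Fin n → S) where
  toFun g := (μ g).mulVecLin.restrictScalars (ZMod 2)
  map_one' := by
    rw [map_one, Matrix.mulVecLin_one]
    rfl
  map_mul' g h := by
    rw [map_mul, Matrix.mulVecLin_mul]
    rfl

theorem mrep2_apply [Algebra (ZMod 2) S] (μ : Γ →* Matrix (Fin n) (Fin n) S) (g : Γ) (x : Fin n → S) :
    mrep2 μ g x = (μ g).mulVec x := rfl

/-- the change of the ring of the entries -/
def mmap {S' : Type} [CommRing S'] (f : S →+* S') (μ : Γ →* Matrix (Fin n) (Fin n) S) :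
    Γ →* Matrix (Fin n) (Fin n) S' :=
  (f.mapMatrix : Matrix (Fin n) (Fin n) S →+* Matrix (Fin n) (Fin n) S').toMonoidHom.comp μ

theorem mmap_apply {S' : Type} [CommRing S'] (f : S →+* S') (μ : Γ →* Matrix (Fin n) (Fin n) S) (g : Γ) :
    mmap f μ g = (μ g).map f := rfl

/-- upper triangular matrix representations -/
def UTri (μ : Γ →* Matrix (Fin n) (Fin n) S) : Prop := ∀ g a b, b < a → μ g a b = 0

end Mrep

/-- Minimality: every finite `2`-quotient of `Γ` has at least the growth of the character of `ab` -/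
def MinL {I : Type} (L : T' → W → Finset (T × W)) (Γ : Subgroup W) (ab : Γ →* Multiplicative (I → ℤ)) : Prop :=
  ∀ (Q : Type) [Group Q] [Finite Q] (_ : IsPGroup 2 Q) (f : Γ →* Q),
    Nat.card f.range * zL L Γ (ch (chiab ab)) ≤ z1 L (f.ker.map Γ.subtype)

end Pool.Agent.S10.EA
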