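import Pool.Agent.S10.Defs
import Pool.Agent.S10.EA.Defs

/-!
# Project S10, block EA: the active complex as a local system (helper26)
-/

set_option autoImplicit false
set_option linter.unusedSectionVars false

open Finset

namespace Pool.Agent.S10.EA

open Pool.Agent.S9 Pool.Agent.S10

variable {V : Type} [DecidableEq V] [Fintype V] {G : SimpleGraph V} {W : Type} [Group W]

private theorem add_eq_zero_two' (K : Type) [Field K] [CharP K 2] {N : Type} [AddCommGroup N] [Module K N] (x y : N) :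
    x + y = 0 ↔ y = x := by
  have h : ∀ z : N, z + z = 0 := fun z => by
    rw [← two_smul K z, CharTwo.two_eq_zero, zero_smul]
  constructor
  · intro h1
    have h2 := h x
    rw [← h1] at h2
    exact (add_left_cancel h2).symm
  · rintro rfl
    exact h y

/-- the cycles of the active complex as the solutions of equations with the coefficients `1` -/
private theorem mem_Za_iff (R : Rac G W) (act : V → W → Prop) {K : Type} [Field K] [CharP K 2] {N : Type}
    [AddCommGroup N] [Module K N] {Γ : Subgroup W} {ρ : Γ →* Module.End K N} {d : ℕ} {c : Finset V → W → N} :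
    c ∈ Za R act Γ ρ d ↔ (∀ A, ∀ g : Γ, ∀ w, c A (g * w) = ρ g (c A w)) ∧
      (∀ (A : Finset V) (w : W), ¬(G.IsClique (A : Set V) ∧ A.card = d ∧ ∀ v ∈ A, act v w) → c A w = 0) ∧
      (∀ A : Finset V, ∀ v ∈ A, ∀ w, c A w + c A (w * R.s v) = 0) ∧ ∀ (A : Finset V) (w : W), ∑ v ∈ Aᶜ, c (insert v A) w = 0 := by
  constructor
  · rintro ⟨⟨⟨h1, h2, h3⟩, h4⟩, h5⟩
    refine ⟨h3, fun A w h => ?_, fun A v hv w => (add_eq_zero_two' K _ _).2 (h2 A v hv w), fun A w => ?_⟩
    · by_contra h6
      have h7 := h1 A fun h0 => h6 (by rw [h0]; rfl)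
      exact h ⟨h7.1, h7.2, h4 A w h6⟩
    · have h6 := congrFun (congrFun (LinearMap.mem_ker.1 h5) A) w
      rwa [bd_apply] at h6
  · rintro ⟨h1, h2, h3, h4⟩
    refine ⟨⟨⟨fun A h => ?_, fun A v hv w => (add_eq_zero_two' K _ _).1 (h3 A v hv w), h1⟩, fun A w h v hv => ?_⟩,
      LinearMap.mem_ker.2 (funext fun A => funext fun w => ?_)⟩
    · obtain ⟨w, hw⟩ := Function.ne_iff.1 h
      by_contra h5
      exact hw (h2 A w fun h6 => h5 ⟨h6.1, h6.2.1⟩)
    · by_contra h5
      exact h (h2 A w fun h6 => h5 (h6.2.2 v hv))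
    · rw [bd_apply]
      exact h4 A w

open Classical in
/-- the local system: support, cells, boundary -/
private noncomputable def Ld (R : Rac G W) (act : V → W → Prop) (i : ℕ) :
    ((Finset V ⊕ Finset V) ⊕ (((Finset V ⊕ Finset V) × V) ⊕ (Finset V ⊕ Finset V))) → W →
      Finset ((Finset V ⊕ Finset V) × W)
  | Sum.inl (Sum.inl A), w => if G.IsClique (A : Set V) ∧ A.card = i ∧ ∀ v ∈ A, act v w then ∅ else {(Sum.inl A, 1)}
  | Sum.inl (Sum.inr A), w => if G.IsClique (A : Set V) ∧ A.card = i + 1 ∧ ∀ v ∈ A, act v w then ∅ else {(Sum.inr A, 1)}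
  | Sum.inr (Sum.inl (Sum.inl A, v)), _ => if v ∈ A then {(Sum.inl A, 1), (Sum.inl A, R.s v)} else ∅
  | Sum.inr (Sum.inl (Sum.inr A, v)), _ => if v ∈ A then {(Sum.inr A, 1), (Sum.inr A, R.s v)} else ∅
  | Sum.inr (Sum.inr (Sum.inl A)), _ => Aᶜ.image fun v => (Sum.inl (insert v A), 1)
  | Sum.inr (Sum.inr (Sum.inr A)), _ => Aᶜ.image fun v => (Sum.inr (insert v A), 1)

/-- the cycles of the degrees `i` (left) and `i + 1` (right) of the active complex are the solutions of a local system -/
theorem exists_L (R : Rac G W) {Φ : Subgroup W} (act : V → W → Prop) (hact : IsActv R Φ act) (i : ℕ) :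
    ∃ (T' : Type) (_ : Finite T') (L : T' → W → Finset ((Finset V ⊕ Finset V) × W)), LInv L Φ ∧
      ∀ (K : Type) [Field K] [CharP K 2] (N : Type) [AddCommGroup N] [Module K N] (Γ : Subgroup W)
        (ρ : Γ →* Module.End K N) (c : (Finset V ⊕ Finset V) → W → N),
        c ∈ ZL L Γ ρ ↔ (fun A => c (Sum.inl A)) ∈ Za R act Γ ρ i ∧ (fun A => c (Sum.inr A)) ∈ Za R act Γ ρ (i + 1) := by
  classical
  have hs : ∀ v : V, (1 : W) ≠ R.s v := by
    intro v h
    have h1 := R.b_s v v
    rw [← h, R.b_one, if_pos rfl] at h1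
    exact absurd h1 (by decide)
  have hci : ∀ (A : Finset V) (w g : W), g ∈ Φ → ((∀ v ∈ A, act v (g * w)) ↔ ∀ v ∈ A, act v w) := fun A w g hg =>
    forall₂_congr fun v _ => hact.inv v g hg w
  refine ⟨_, inferInstance, Ld R act i, ?_, ?_⟩
  · intro g hg t' w
    rcases t' with (A | A) | ((⟨A | A, v⟩) | (A | A))
    · simp only [Ld, hci A w g hg]
    · simp only [Ld, hci A w g hg]
    · rfl
    · rfl
    · rfl
    · rfl
  · intro K _ _ N _ _ Γ ρ c
    have e1 : ∀ (e : Finset V → Finset V ⊕ Finset V) (A : Finset V) (w : W) (p : Prop) [Decidable p],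
        (∑ y ∈ (if p then (∅ : Finset ((Finset V ⊕ Finset V) × W)) else {(e A, 1)}), c y.1 (w * y.2) = 0) ↔
          (¬p → c (e A) w = 0) := by
      intro e A w p _
      split_ifs with hp
      · rw [Finset.sum_empty]
        exact ⟨fun _ h => absurd hp h, fun _ => rfl⟩
      · rw [Finset.sum_singleton, mul_one]
        exact ⟨fun h _ => h, fun h => h hp⟩
    have e2 : ∀ (e : Finset V → Finset V ⊕ Finset V) (A : Finset V) (v : V) (w : W),
        (∑ y ∈ (if v ∈ A then ({(e A, 1), (e A, R.s v)} : Finset ((Finset V ⊕ Finset V) × W)) else ∅),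
          c y.1 (w * y.2) = 0) ↔ (v ∈ A → c (e A) w + c (e A) (w * R.s v) = 0) := by
      intro e A v w
      split_ifs with hv
      · rw [Finset.sum_insert, Finset.sum_singleton, mul_one]
        · exact ⟨fun h _ => h, fun h => h hv⟩
        · rw [Finset.mem_singleton]
          intro h
          exact hs v (Prod.ext_iff.1 h).2
      · rw [Finset.sum_empty]
        exact ⟨fun _ h => absurd h hv, fun _ => rfl⟩
    have e3 : ∀ (e : Finset V → Finset V ⊕ Finset V), Function.Injective e → ∀ (A : Finset V) (w : W),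
        (∑ y ∈ Aᶜ.image (fun v => (e (insert v A), (1 : W))), c y.1 (w * y.2)) = ∑ v ∈ Aᶜ, c (e (insert v A)) w := by
      intro e he A w
      rw [Finset.sum_image]
      · refine Finset.sum_congr rfl fun v _ => ?_
        rw [mul_one]
      · intro v hv u hu h
        rw [mem_coe, mem_compl] at hv hu
        have h1 : insert v A = insert u A := he (Prod.ext_iff.1 h).1
        have h2 : v ∈ insert u A := by
          rw [← h1]
          exact mem_insert_self _ _
        exact (mem_insert.1 h2).resolve_right hv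
    rw [mem_Za_iff, mem_Za_iff, mem_ZL]
    constructor
    · rintro ⟨h1, h2⟩
      refine ⟨⟨fun A => h1 _, fun A w => (e1 Sum.inl A w _).1 (h2 (Sum.inl (Sum.inl A)) w), fun A v hv w =>
        (e2 Sum.inl A v w).1 (h2 (Sum.inr (Sum.inl (Sum.inl A, v))) w) hv, fun A w => ?_⟩,
        ⟨fun A => h1 _, fun A w => (e1 Sum.inr A w _).1 (h2 (Sum.inl (Sum.inr A)) w), fun A v hv w =>
        (e2 Sum.inr A v w).1 (h2 (Sum.inr (Sum.inl (Sum.inr A, v))) w) hv, fun A w => ?_⟩⟩
      · rw [← e3 Sum.inl Sum.inl_injective]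
        exact h2 (Sum.inr (Sum.inr (Sum.inl A))) w
      · rw [← e3 Sum.inr Sum.inr_injective]
        exact h2 (Sum.inr (Sum.inr (Sum.inr A))) w
    · rintro ⟨⟨h1, h2, h3, h4⟩, ⟨h5, h6, h7, h8⟩⟩
      refine ⟨fun t => ?_, fun t' w => ?_⟩
      · rcases t with A | A
        · exact h1 A
        · exact h5 A
      · rcases t' with (A | A) | ((⟨A | A, v⟩) | (A | A))
        · exact (e1 Sum.inl A w _).2 (h2 A w)
        · exact (e1 Sum.inr A w _).2 (h6 A w)
        · exact (e2 Sum.inl A v w).2 fun hv => h3 A v hv w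
        · exact (e2 Sum.inr A v w).2 fun hv => h7 A v hv w
        · exact (e3 Sum.inl Sum.inl_injective A w).trans (h4 A w)
        · exact (e3 Sum.inr Sum.inr_injective A w).trans (h8 A w)

end Pool.Agent.S10.EA
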