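import Pool.Agent.S10.EA.Defs
import Pool.Agent.S10.IntSt

/-!
# Project S10, block EA: integrality of the dimension of the solutions of an invariant local system
-/

set_option autoImplicit false
set_option linter.unusedSectionVars false

open Finset

namespace Pool.Agent.S10.EA

open Pool.Agent.S9 Pool.Agent.S10

variable {W : Type} [Group W] {T T' : Type}

/-- **Integrality.** The index of the level `m` of the tower of `Φ` divides the dimension of the solutions of every
`Φ`-invariant local system with coefficients in the tautological character. -/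
theorem int_ZL (Φ : Subgroup W) [Φ.Normal] (m : ℕ) [(twr Φ m).FiniteIndex] {r : ℕ}
    (ab : twr Φ m →* Multiplicative (Fin r → ℤ)) (hab : Function.Surjective ab)
    (h0 : ∀ f : twr Φ m →* Multiplicative ℤ, ∀ g, ab g = 1 → f g = 1)
    (L : T' → W → Finset (T × W)) (hL : LInv L Φ) :
    (twr Φ m).relIndex Φ ∣ zL L (twr Φ m) (ch (chiab ab)) := by
  obtain ⟨σ, h1, h2⟩ := int_stable Φ m ab hab h0 (chiab ab) (fun _ => rfl)
  have heq : ∀ c ∈ ZL L (twr Φ m) (ch (chiab ab)), Eqv (chiab ab) c := by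
    intro c hc t γ w
    rw [hc.1 t γ w]
    rfl
  refine h2 T (ZL L (twr Φ m) (ch (chiab ab))) heq (fun g hg c hc => ⟨fun t γ w => ?_, fun t' w => ?_⟩)
  · rw [h1 T g c (heq c hc) t γ w]
    rfl
  · have h3 : L t' w = L t' (g⁻¹ * w) := (hL g⁻¹ (Φ.inv_mem hg) t' w).symm
    have h4 := hc.2 t' (g⁻¹ * w)
    rw [← h3] at h4
    change ∑ x ∈ L t' w, σ g (c x.1 (g⁻¹ * (w * x.2))) = 0
    rw [← map_sum]
    have h5 : ∑ x ∈ L t' w, c x.1 (g⁻¹ * (w * x.2)) = ∑ x ∈ L t' w, c x.1 (g⁻¹ * w * x.2) :=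
      sum_congr rfl fun x _ => by rw [mul_assoc]
    rw [h5, h4, map_zero]

end Pool.Agent.S10.EA
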