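import Pool.Agent.S10.EA.Defs

/-!
# Project S10, block E: the solutions as the kernel of one matrix
-/

set_option autoImplicit false
set_option linter.unusedSectionVars false

open Finset

namespace Pool.Agent.S10.EA

open Pool.Agent.S9

variable {W : Type} [Group W] {T T' : Type} {n : ℕ}

open Classical in
/-- The matrix of the local equations in the values of `c` at the representatives: the equation `(t', p)` has the
coefficient `μ (wg Γ (p.out * x.2))` of the variable `(x.1, p * x.2)`, for all `x ∈ L t' p.out`. -/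
noncomputable def BL (L : T' → W → Finset (T × W)) {Γ : Subgroup W} [Γ.Normal] {S : Type} [CommRing S]
    (μ : Γ →* Matrix (Fin n) (Fin n) S) : Matrix (T' × (W ⧸ Γ) × Fin n) (T × (W ⧸ Γ) × Fin n) S :=
  fun q y => ∑ x ∈ L q.1 q.2.1.out,
    if x.1 = y.1 ∧ (QuotientGroup.mk (q.2.1.out * x.2) : W ⧸ Γ) = y.2.1 then
      μ (wg Γ (q.2.1.out * x.2)) q.2.2 y.2.2 else 0

/-- the matrix is functorial in the ring -/
theorem BL_map (L : T' → W → Finset (T × W)) {Γ : Subgroup W} [Γ.Normal] {S S' : Type} [CommRing S] [CommRing S']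
    (f : S →+* S') (μ : Γ →* Matrix (Fin n) (Fin n) S) : (BL L μ).map f = BL L (mmap f μ) := by
  refine Matrix.ext fun q y => ?_
  rw [Matrix.map_apply]
  unfold BL
  rw [map_sum]
  refine Finset.sum_congr rfl fun x _ => ?_
  split_ifs
  · rfl
  · exact map_zero f

section Ker

variable [Fintype T] {Γ : Subgroup W} [Γ.Normal] [Fintype (W ⧸ Γ)] {S : Type} [CommRing S]

theorem BL_mulVec (L : T' → W → Finset (T × W)) (μ : Γ →* Matrix (Fin n) (Fin n) S)
    (f : T × (W ⧸ Γ) × Fin n → S) (t' : T') (p : W ⧸ Γ) (a : Fin n) :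
    (BL L μ).mulVec f (t', p, a) = ∑ x ∈ L t' p.out,
      (μ (wg Γ (p.out * x.2))).mulVec (fun b => f (x.1, (QuotientGroup.mk (p.out * x.2) : W ⧸ Γ), b)) a := by
  classical
  rw [Matrix.mulVec, dotProduct]
  simp only [BL]
  simp only [Finset.sum_mul]
  rw [Finset.sum_comm]
  refine Finset.sum_congr rfl fun x _ => ?_
  rw [Fintype.sum_prod_type, Finset.sum_eq_single x.1]
  · rw [Fintype.sum_prod_type, Finset.sum_eq_single (QuotientGroup.mk (p.out * x.2) : W ⧸ Γ)]
    · rw [Matrix.mulVec, dotProduct]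
      refine Finset.sum_congr rfl fun b _ => ?_
      rw [if_pos ⟨rfl, rfl⟩]
    · intro q _ hq
      refine Finset.sum_eq_zero fun b _ => ?_
      rw [if_neg fun h => hq h.2.symm, zero_mul]
    · intro h
      exact absurd (mem_univ _) h
  · intro t _ ht
    refine Finset.sum_eq_zero fun y _ => ?_
    rw [if_neg fun h => ht h.1.symm, zero_mul]
  · intro h
    exact absurd (mem_univ _) h

/-- the equivariant function with the given values at the representatives solves the equations if and only if these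
values are in the kernel of the matrix -/
theorem BL_iff {L : T' → W → Finset (T × W)} (hL : LInv L Γ) (μ : Γ →* Matrix (Fin n) (Fin n) S)
    (f : T × (W ⧸ Γ) × Fin n → S) : (BL L μ).mulVec f = 0 ↔ ∀ t' w, ∑ x ∈ L t' w,
      (μ (wg Γ (w * x.2))).mulVec (fun b => f (x.1, (QuotientGroup.mk (w * x.2) : W ⧸ Γ), b)) = 0 := by
  constructor
  · intro h t' w
    have h1 : ∑ x ∈ L t' (QuotientGroup.mk w : W ⧸ Γ).out, (μ (wg Γ ((QuotientGroup.mk w : W ⧸ Γ).out * x.2))).mulVec
        (fun b => f (x.1, (QuotientGroup.mk ((QuotientGroup.mk w : W ⧸ Γ).out * x.2) : W ⧸ Γ), b)) = 0 := by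
      funext a
      rw [Finset.sum_apply, ← BL_mulVec, h]
      rfl
    have h2 : L t' w = L t' (QuotientGroup.mk w : W ⧸ Γ).out := by
      have h4 := hL (wg Γ w) (wg Γ w).2 t' (QuotientGroup.mk w : W ⧸ Γ).out
      rwa [wg_out_eq] at h4
    have h3 : ∀ x : T × W, (μ (wg Γ (w * x.2))).mulVec
        (fun b => f (x.1, (QuotientGroup.mk (w * x.2) : W ⧸ Γ), b)) =
        (μ (wg Γ w)).mulVec ((μ (wg Γ ((QuotientGroup.mk w : W ⧸ Γ).out * x.2))).mulVec
          (fun b => f (x.1, (QuotientGroup.mk ((QuotientGroup.mk w : W ⧸ Γ).out * x.2) : W ⧸ Γ), b))) := by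
      intro x
      have h4 : w * x.2 = (wg Γ w : W) * ((QuotientGroup.mk w : W ⧸ Γ).out * x.2) := by
        rw [← mul_assoc, wg_out_eq]
      rw [Matrix.mulVec_mulVec, ← map_mul, ← wg_mul, ← h4]
      conv_lhs => rw [h4, mk_coe_mul]
      rw [← h4]
    rw [Finset.sum_congr h2 fun x _ => h3 x]
    refine (map_sum (μ (wg Γ w)).mulVecLin _ _).symm.trans ?_
    rw [h1, map_zero]
  · intro h
    funext q
    obtain ⟨t', p, a⟩ := q
    rw [BL_mulVec]
    have h1 := congrFun (h t' p.out) a
    rw [Finset.sum_apply] at h1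
    exact h1

/-- the solutions as the kernel of the matrix, for a ring `S` which is an algebra over `k₀` -/
noncomputable def kerE {k₀ : Type} [CommRing k₀] [Algebra k₀ S] {L : T' → W → Finset (T × W)} (hL : LInv L Γ)
    (μ : Γ →* Matrix (Fin n) (Fin n) S) (ρ : Γ →* Module.End k₀ (Fin n → S))
    (hρ : ∀ g x, ρ g x = (μ g).mulVec x) :
    ZL L Γ ρ ≃ₗ[k₀] LinearMap.ker ((BL L μ).mulVecLin.restrictScalars k₀) where
  toFun c := ⟨fun y => c.1 y.1 y.2.1.out y.2.2, by
    rw [LinearMap.mem_ker, LinearMap.restrictScalars_apply, Matrix.mulVecLin_apply]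
    refine (BL_iff hL μ _).2 fun t' w => ?_
    rw [← c.2.2 t' w]
    refine Finset.sum_congr rfl fun x _ => ?_
    rw [← hρ]
    change ρ (wg Γ (w * x.2)) (c.1 x.1 (QuotientGroup.mk (w * x.2) : W ⧸ Γ).out) = _
    rw [← c.2.1, wg_out_eq]⟩
  invFun f := ⟨fun t w => (μ (wg Γ w)).mulVec fun b => f.1 (t, (QuotientGroup.mk w : W ⧸ Γ), b), by
    refine ⟨fun t g w => ?_, ?_⟩
    · rw [hρ, Matrix.mulVec_mulVec, ← map_mul, ← wg_mul]
      simp only [mk_coe_mul]
    · exact (BL_iff hL μ _).1 (LinearMap.mem_ker.1 f.2)⟩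
  map_add' _ _ := rfl
  map_smul' _ _ := rfl
  left_inv c := by
    apply Subtype.ext
    funext t w
    change (μ (wg Γ w)).mulVec (c.1 t (QuotientGroup.mk w : W ⧸ Γ).out) = c.1 t w
    rw [← hρ, ← c.2.1, wg_out_eq]
  right_inv f := by
    apply Subtype.ext
    funext y
    obtain ⟨t, p, b⟩ := y
    change (μ (wg Γ p.out)).mulVec (fun b => f.1 (t, (QuotientGroup.mk p.out : W ⧸ Γ), b)) b = f.1 (t, p, b)
    rw [wg_out, map_one, Matrix.one_mulVec, QuotientGroup.out_eq']

end Ker

section Dim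

variable [Fintype T] {Γ : Subgroup W} [Γ.Normal] [Fintype (W ⧸ Γ)] {L : T' → W → Finset (T × W)}

/-- the dimension of the solutions over a field -/
theorem zL_add_rank {K : Type} [Field K] (hL : LInv L Γ) (μ : Γ →* Matrix (Fin n) (Fin n) K) :
    zL L Γ (mrep μ) + (BL L μ).rank = Fintype.card (T × (W ⧸ Γ) × Fin n) := by
  have h1 := LinearEquiv.finrank_eq (kerE (k₀ := K) hL μ (mrep μ) fun g x => rfl)
  have h3 := LinearMap.finrank_range_add_finrank_ker (BL L μ).mulVecLin
  rw [Module.finrank_fintype_fun_eq_card] at h3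
  have h2 : LinearMap.ker ((BL L μ).mulVecLin.restrictScalars K) = LinearMap.ker (BL L μ).mulVecLin := rfl
  rw [h2] at h1
  unfold zL Matrix.rank
  omega

/-- the dimension over `𝔽₂` of the solutions over a finite algebra over `𝔽₂` -/
theorem zL2_add_rank {S : Type} [CommRing S] [Algebra (ZMod 2) S] [Finite S] (hL : LInv L Γ)
    (μ : Γ →* Matrix (Fin n) (Fin n) S) : zL L Γ (mrep2 μ) +
      Module.finrank (ZMod 2) (LinearMap.range ((BL L μ).mulVecLin.restrictScalars (ZMod 2))) =
      Fintype.card (T × (W ⧸ Γ) × Fin n) * Module.finrank (ZMod 2) S := by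
  have h1 := LinearEquiv.finrank_eq (kerE (k₀ := ZMod 2) hL μ (mrep2 μ) fun g x => rfl)
  have h0 : Module.Finite (ZMod 2) S := Module.Finite.of_finite
  have h3 := LinearMap.finrank_range_add_finrank_ker ((BL L μ).mulVecLin.restrictScalars (ZMod 2))
  rw [Module.finrank_pi_fintype, Finset.sum_const, Finset.card_univ, smul_eq_mul] at h3
  unfold zL
  omega

end Dim

end Pool.Agent.S10.EA
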