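import Mathlib

/-!
# S10, block E: the fixed vectors of a finite 2-group over the field with two elements

`dim U ≤ |G| * dim (fixed vectors)`.
-/

set_option autoImplicit false

namespace Pool.Agent.S10.EA

open Module

/-- the fixed vectors -/
def fixS {K : Type} [Field K] {G : Type} [Group G] {U : Type} [AddCommGroup U] [Module K U]
    (ρ : G →* Module.End K U) : Submodule K U where
  carrier := {x | ∀ g, ρ g x = x}
  zero_mem' g := map_zero _
  add_mem' := by
    intro a b ha hb g
    rw [map_add, ha g, hb g]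
  smul_mem' := by
    intro c x hx g
    rw [map_smul, hx g]

theorem mem_fixS {K : Type} [Field K] {G : Type} [Group G] {U : Type} [AddCommGroup U] [Module K U]
    {ρ : G →* Module.End K U} {x : U} : x ∈ fixS ρ ↔ ∀ g, ρ g x = x := Iff.rfl

private theorem two_fix_aux (n : ℕ) : ∀ (G : Type) [Group G] [Finite G], Nat.card G = 2 ^ n →
    ∀ {U : Type} [AddCommGroup U] [Module (ZMod 2) U] [FiniteDimensional (ZMod 2) U]
      (ρ : G →* Module.End (ZMod 2) U),
    finrank (ZMod 2) U ≤ 2 ^ n * finrank (ZMod 2) (fixS ρ) := by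
  induction n with
  | zero =>
    intro G _ _ hG U _ _ _ ρ
    rw [pow_zero, one_mul]
    have h1 : fixS ρ = ⊤ := by
      rw [eq_top_iff]
      intro x _ g
      have h2 : Subsingleton G := (Nat.card_eq_one_iff_unique.1 (hG.trans (pow_zero 2))).1
      rw [Subsingleton.elim g 1, map_one]
      rfl
    rw [h1, finrank_top]
  | succ n ih =>
    intro G _ _ hG U _ _ _ ρ
    haveI : Fact (Nat.Prime 2) := ⟨Nat.prime_two⟩
    obtain ⟨H, hH⟩ := Sylow.exists_subgroup_card_pow_prime (G := G) 2 (n := n)
      (by rw [hG, pow_succ]; exact dvd_mul_right _ _)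
    have h2 : H.index = 2 := by
      have h3 := H.card_mul_index
      rw [hH, hG, pow_succ] at h3
      exact Nat.eq_of_mul_eq_mul_left (pow_pos (by norm_num) n) h3
    have h4 := ih H hH (ρ.comp H.subtype)
    set F := fixS (ρ.comp H.subtype) with hF
    obtain ⟨g, hg⟩ : ∃ g : G, g ∉ H := by
      by_contra hcon
      push Not at hcon
      have h5 : H = ⊤ := eq_top_iff.2 fun x _ => hcon x
      rw [h5, Subgroup.index_top] at h2
      exact absurd h2 (by norm_num)
    have hmem : ∀ a b : G, a * b ∈ H ↔ (a ∈ H ↔ b ∈ H) := fun a b =>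
      Subgroup.mul_mem_iff_of_index_two h2
    have hgF : ∀ x ∈ F, ρ g x ∈ F := by
      intro x hx h
      have h5 : g⁻¹ * h * g ∈ H := by
        rw [hmem, hmem, inv_mem_iff]
        have := h.2
        tauto
      have h6 : ρ (g⁻¹ * h * g) x = x := hx ⟨_, h5⟩
      change ρ h (ρ g x) = ρ g x
      have h7 : (h : G) * g = g * (g⁻¹ * h * g) := by group
      calc ρ h (ρ g x) = ρ (h * g) x := by rw [map_mul]; rfl
        _ = ρ (g * (g⁻¹ * h * g)) x := by rw [h7]
        _ = ρ g (ρ (g⁻¹ * h * g) x) := by rw [map_mul]; rfl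
        _ = ρ g x := by rw [h6]
    let φ : F →ₗ[ZMod 2] F := (ρ g).restrict hgF + LinearMap.id
    have hφ : ∀ x : F, ((φ x : F) : U) = ρ g x + x := fun x => rfl
    have hsq : LinearMap.range φ ≤ LinearMap.ker φ := by
      rintro _ ⟨x, rfl⟩
      rw [LinearMap.mem_ker]
      refine Subtype.ext ?_
      rw [hφ, hφ, map_add]
      have h5 : ρ g (ρ g (x : U)) = x := by
        have h6 : g * g ∈ H := by
          rw [hmem]
        have h7 : ρ (g * g) (x : U) = x := x.2 ⟨_, h6⟩
        rw [map_mul] at h7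
        exact h7
      rw [h5]
      have h6 : (x : U) + ρ g x + (ρ g x + x) = 2 • (x : U) + 2 • ρ g x := by
        rw [two_nsmul, two_nsmul]
        abel
      rw [h6]
      have h7 : ∀ y : U, 2 • y = 0 := by
        intro y
        rw [← Nat.cast_smul_eq_nsmul (ZMod 2), show ((2 : ℕ) : ZMod 2) = 0 from rfl, zero_smul]
      rw [h7, h7, add_zero]
      rfl
    have h5 : finrank (ZMod 2) F ≤ 2 * finrank (ZMod 2) (LinearMap.ker φ) := by
      have h6 := LinearMap.finrank_range_add_finrank_ker φ
      have h7 := Submodule.finrank_mono hsq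
      omega
    have h6 : finrank (ZMod 2) (LinearMap.ker φ) ≤ finrank (ZMod 2) (fixS ρ) := by
      refine LinearMap.finrank_le_finrank_of_injective (f := LinearMap.codRestrict (fixS ρ)
        (F.subtype.comp (LinearMap.ker φ).subtype) (fun x => ?_)) ?_
      · intro k
        change ρ k ((x : F) : U) = ((x : F) : U)
        have hx : ρ g ((x : F) : U) = ((x : F) : U) := by
          have h7 : φ (x : F) = 0 := x.2
          have h8 : ρ g ((x : F) : U) + ((x : F) : U) = 0 := by
            rw [← hφ, h7]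
            rfl
          have h9 : ((x : F) : U) + ((x : F) : U) = 0 := by
            rw [← two_nsmul, ← Nat.cast_smul_eq_nsmul (ZMod 2), show ((2 : ℕ) : ZMod 2) = 0 from rfl, zero_smul]
          exact add_right_cancel (h8.trans h9.symm)
        by_cases hk : k ∈ H
        · exact (x : F).2 ⟨k, hk⟩
        · have h7 : g⁻¹ * k ∈ H := by
            rw [hmem, inv_mem_iff]
            tauto
          have h8 : ρ (g⁻¹ * k) ((x : F) : U) = ((x : F) : U) := (x : F).2 ⟨_, h7⟩
          have h9 : k = g * (g⁻¹ * k) := by group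
          calc ρ k ((x : F) : U) = ρ (g * (g⁻¹ * k)) ((x : F) : U) := by rw [← h9]
            _ = ρ g (ρ (g⁻¹ * k) ((x : F) : U)) := by rw [map_mul]; rfl
            _ = _ := by rw [h8, hx]
      · intro x y hxy
        have h7 := congrArg Subtype.val hxy
        exact Subtype.ext (Subtype.ext h7)
    calc finrank (ZMod 2) U ≤ 2 ^ n * finrank (ZMod 2) F := h4
      _ ≤ 2 ^ n * (2 * finrank (ZMod 2) (fixS ρ)) := Nat.mul_le_mul_left _ (h5.trans (Nat.mul_le_mul_left _ h6))
      _ = 2 ^ (n + 1) * finrank (ZMod 2) (fixS ρ) := by ring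

/-- **the fixed vectors of a finite 2-group** -/
theorem two_fix {G : Type} [Group G] [Finite G] (hG : IsPGroup 2 G)
    {U : Type} [AddCommGroup U] [Module (ZMod 2) U] [FiniteDimensional (ZMod 2) U]
    (ρ : G →* Module.End (ZMod 2) U) :
    finrank (ZMod 2) U ≤ Nat.card G * finrank (ZMod 2) (fixS ρ) := by
  haveI : Fact (Nat.Prime 2) := ⟨Nat.prime_two⟩
  obtain ⟨n, hn⟩ := IsPGroup.iff_card.1 hG
  rw [hn]
  exact two_fix_aux n G hn ρ

/-- the same for a quotient which is a finite 2-group -/
theorem two_fix_quot {Γ : Type} [Group Γ] (N : Subgroup Γ) [N.Normal] [Finite (Γ ⧸ N)] (hG : IsPGroup 2 (Γ ⧸ N))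
    {U : Type} [AddCommGroup U] [Module (ZMod 2) U] [FiniteDimensional (ZMod 2) U]
    (ρ : Γ →* Module.End (ZMod 2) U) (h1 : ∀ g ∈ N, ρ g = 1) :
    finrank (ZMod 2) U ≤ N.index * finrank (ZMod 2) (fixS ρ) := by
  have h2 := two_fix hG (QuotientGroup.lift N ρ h1)
  have h3 : fixS (QuotientGroup.lift N ρ h1) = fixS ρ := by
    refine le_antisymm (fun x hx g => ?_) fun x hx q => ?_
    · have h4 := hx (QuotientGroup.mk g)
      rw [QuotientGroup.lift_mk] at h4
      exact h4
    · obtain ⟨g, rfl⟩ := QuotientGroup.mk_surjective q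
      rw [QuotientGroup.lift_mk]
      exact hx g
  rw [h3] at h2
  exact h2

end Pool.Agent.S10.EA
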