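import Pool.Agent.S10.EA.Defs
import Pool.Agent.S10.EA.TwoFix

/-!
# Project S10, block E: transfer to a normal subgroup with a quotient which is a finite 2-group
-/

set_option autoImplicit false
set_option linter.unusedSectionVars false

open Finset

namespace Pool.Agent.S10.EA

variable {W : Type} [Group W] {T T' : Type}

variable {L : T' → W → Finset (T × W)} {Γ Γ' : Subgroup W} {Y : Type} [AddCommGroup Y] [Module (ZMod 2) Y]

/-- the coordinates of the invariant chains with coefficients in `Y` -/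
noncomputable def coordE {d : ℕ} (b : Module.Basis (Fin d) (ZMod 2) Y) (L : T' → W → Finset (T × W)) (M : Subgroup W) :
    ZL L M (1 : M →* Module.End (ZMod 2) Y) ≃ₗ[ZMod 2]
      (Fin d → ZL L M (1 : M →* Module.End (ZMod 2) (ZMod 2))) where
  toFun c i := ⟨fun t w => b.equivFun (c.1 t w) i, by
    refine mem_ZL.2 ⟨fun t g w => ?_, fun t' w => ?_⟩
    · rw [(mem_ZL.1 c.2).1]
      rfl
    · have h := congrArg (fun y => b.equivFun y i) ((mem_ZL.1 c.2).2 t' w)
      simp only [map_sum, Finset.sum_apply, map_zero, Pi.zero_apply] at h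
      exact h⟩
  map_add' c c' := by
    funext i
    refine Subtype.ext ?_
    funext t w
    change b.equivFun (c.1 t w + c'.1 t w) i = _
    rw [map_add]
    rfl
  map_smul' a c := by
    funext i
    refine Subtype.ext ?_
    funext t w
    change b.equivFun (a • c.1 t w) i = _
    rw [map_smul]
    rfl
  invFun c := ⟨fun t w => b.equivFun.symm fun i => (c i).1 t w, by
    refine mem_ZL.2 ⟨fun t g w => ?_, fun t' w => ?_⟩
    · change _ = b.equivFun.symm fun i => (c i).1 t w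
      congr 1
      funext i
      exact (mem_ZL.1 (c i).2).1 t g w
    · rw [← map_sum]
      have h : (∑ x ∈ L t' w, fun i => (c i).1 x.1 (w * x.2)) = (0 : Fin d → ZMod 2) := by
        funext i
        rw [Finset.sum_apply]
        exact (mem_ZL.1 (c i).2).2 t' w
      rw [h, map_zero]⟩
  left_inv c := by
    refine Subtype.ext ?_
    funext t w
    exact b.equivFun.symm_apply_apply (c.1 t w)
  right_inv c := by
    funext i
    refine Subtype.ext ?_
    funext t w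
    change b.equivFun (b.equivFun.symm fun i => (c i).1 t w) i = _
    rw [LinearEquiv.apply_symm_apply]

/-- the action on the chains which are invariant under a normal subgroup -/
def actU {Φ : Subgroup W} (hL : LInv L Φ) (hΓ : Γ ≤ Φ)
    (hn : ∀ g ∈ Γ, ∀ h ∈ Γ', g⁻¹ * h * g ∈ Γ') (ρ : Γ →* Module.End (ZMod 2) Y) :
    Γ →* Module.End (ZMod 2) (ZL L Γ' (1 : Γ' →* Module.End (ZMod 2) Y)) where
  toFun g :=
    { toFun := fun c => ⟨fun t w => ρ g (c.1 t ((g : W)⁻¹ * w)), by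
        refine mem_ZL.2 ⟨fun t h w => ?_, fun t' w => ?_⟩
        · have h1 := (mem_ZL.1 c.2).1 t ⟨_, hn g g.2 h h.2⟩ ((g : W)⁻¹ * w)
          have h2 : (g : W)⁻¹ * ((h : W) * w) = (g : W)⁻¹ * h * g * ((g : W)⁻¹ * w) := by group
          change ρ g (c.1 t ((g : W)⁻¹ * ((h : W) * w))) = ρ g (c.1 t ((g : W)⁻¹ * w))
          rw [h2]
          exact congrArg _ h1
        · have h1 := (mem_ZL.1 c.2).2 t' ((g : W)⁻¹ * w)
          rw [hL _ (Φ.inv_mem (hΓ g.2))] at h1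
          rw [← map_sum]
          have h2 : ∑ x ∈ L t' w, c.1 x.1 ((g : W)⁻¹ * (w * x.2)) = 0 := by
            rw [← h1]
            refine sum_congr rfl fun x _ => ?_
            rw [mul_assoc]
          rw [h2, map_zero]⟩
      map_add' := fun c c' => by
        refine Subtype.ext ?_
        funext t w
        exact map_add (ρ g) _ _
      map_smul' := fun a c => by
        refine Subtype.ext ?_
        funext t w
        exact map_smul (ρ g) _ _ }
  map_one' := by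
    refine LinearMap.ext fun c => Subtype.ext ?_
    funext t w
    change ρ 1 (c.1 t ((1 : W)⁻¹ * w)) = c.1 t w
    rw [map_one, inv_one, one_mul]
    rfl
  map_mul' g h := by
    refine LinearMap.ext fun c => Subtype.ext ?_
    funext t w
    change ρ (g * h) (c.1 t (((g : W) * h)⁻¹ * w)) = ρ g (ρ h (c.1 t ((h : W)⁻¹ * ((g : W)⁻¹ * w))))
    rw [map_mul, mul_inv_rev, mul_assoc]
    rfl

theorem actU_apply {Φ : Subgroup W} (hL : LInv L Φ) (hΓ : Γ ≤ Φ)
    (hn : ∀ g ∈ Γ, ∀ h ∈ Γ', g⁻¹ * h * g ∈ Γ') (ρ : Γ →* Module.End (ZMod 2) Y) (g : Γ)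
    (c : ZL L Γ' (1 : Γ' →* Module.End (ZMod 2) Y)) (t : T) (w : W) :
    (actU hL hΓ hn ρ g c).1 t w = ρ g (c.1 t ((g : W)⁻¹ * w)) := rfl

/-- the fixed chains are the equivariant chains -/
theorem finrank_fix {Φ : Subgroup W} (hL : LInv L Φ) (hΓ : Γ ≤ Φ) (hle : Γ' ≤ Γ)
    (hn : ∀ g ∈ Γ, ∀ h ∈ Γ', g⁻¹ * h * g ∈ Γ') (ρ : Γ →* Module.End (ZMod 2) Y)
    (h1 : ∀ g : Γ, (g : W) ∈ Γ' → ρ g = 1) :
    Module.finrank (ZMod 2) (fixS (actU hL hΓ hn ρ)) = Module.finrank (ZMod 2) (ZL L Γ ρ) := by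
  refine LinearEquiv.finrank_eq
    { toFun := fun x => ⟨x.1.1, ?_⟩
      map_add' := fun x y => rfl
      map_smul' := fun a x => rfl
      invFun := fun c => ⟨⟨c.1, ?_⟩, ?_⟩
      left_inv := fun x => rfl
      right_inv := fun c => rfl }
  · refine mem_ZL.2 ⟨fun t g w => ?_, (mem_ZL.1 x.1.2).2⟩
    have h2 := x.2 g
    have h3 := congrFun (congrFun (congrArg Subtype.val h2) t) (g * w)
    rw [actU_apply, inv_mul_cancel_left] at h3
    exact h3.symm
  · refine mem_ZL.2 ⟨fun t g w => ?_, (mem_ZL.1 c.2).2⟩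
    have h2 := (mem_ZL.1 c.2).1 t ⟨g, hle g.2⟩ w
    rw [h1 _ g.2] at h2
    exact h2
  · intro g
    refine Subtype.ext ?_
    funext t w
    rw [actU_apply]
    have h2 := (mem_ZL.1 c.2).1 t g ((g : W)⁻¹ * w)
    rw [mul_inv_cancel_left] at h2
    exact h2.symm

/-- **Transfer to a subgroup of 2-power index**: the coefficients are a space `Y` over the field with two elements on
which `Γ'` acts trivially -/
theorem tran_quot {Φ : Subgroup W} (hL : LInv L Φ) (hΓ : Γ ≤ Φ) (hle : Γ' ≤ Γ) [hN : (Γ'.subgroupOf Γ).Normal]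
    [Finite (Γ ⧸ Γ'.subgroupOf Γ)] (h2 : IsPGroup 2 (Γ ⧸ Γ'.subgroupOf Γ)) [FiniteDimensional (ZMod 2) Y]
    (ρ : Γ →* Module.End (ZMod 2) Y) (h1 : ∀ g : Γ, (g : W) ∈ Γ' → ρ g = 1) :
    Module.finrank (ZMod 2) Y * z1 L Γ' ≤ Γ'.relIndex Γ * Module.finrank (ZMod 2) (ZL L Γ ρ) := by
  by_cases hfd : FiniteDimensional (ZMod 2) (ZL L Γ' (1 : Γ' →* Module.End (ZMod 2) (ZMod 2)))
  · have hn : ∀ g ∈ Γ, ∀ h ∈ Γ', g⁻¹ * h * g ∈ Γ' := by
      intro g hg h hh
      have h3 := hN.conj_mem ⟨h, hle hh⟩ (Subgroup.mem_subgroupOf.2 hh) ⟨g⁻¹, Γ.inv_mem hg⟩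
      rw [Subgroup.mem_subgroupOf] at h3
      have h4 : g⁻¹ * h * g⁻¹⁻¹ ∈ Γ' := h3
      rw [inv_inv] at h4
      exact h4
    let b := Module.finBasis (ZMod 2) Y
    have e := coordE b L Γ'
    haveI : FiniteDimensional (ZMod 2) (ZL L Γ' (1 : Γ' →* Module.End (ZMod 2) Y)) :=
      LinearEquiv.finiteDimensional e.symm
    have h3 : Module.finrank (ZMod 2) (ZL L Γ' (1 : Γ' →* Module.End (ZMod 2) Y)) =
        Module.finrank (ZMod 2) Y * z1 L Γ' := by
      rw [e.finrank_eq, Module.finrank_pi_fintype, sum_const, card_univ, Fintype.card_fin, smul_eq_mul]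
      rfl
    rw [← h3, ← finrank_fix hL hΓ hle hn ρ h1]
    refine two_fix_quot (Γ'.subgroupOf Γ) h2 (actU hL hΓ hn ρ) fun g hg => ?_
    rw [Subgroup.mem_subgroupOf] at hg
    refine LinearMap.ext fun c => Subtype.ext ?_
    funext t w
    rw [actU_apply, h1 g hg]
    have h4 := (mem_ZL.1 c.2).1 t ⟨(g : W)⁻¹, Γ'.inv_mem hg⟩ w
    exact h4
  · have h3 : z1 L Γ' = 0 := Module.finrank_of_infinite_dimensional hfd
    rw [h3, mul_zero]
    exact Nat.zero_le _

/-- the same for the trivial coefficients -/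
theorem tran_one {Φ : Subgroup W} (hL : LInv L Φ) (hΓ : Γ ≤ Φ) (hle : Γ' ≤ Γ) [hN : (Γ'.subgroupOf Γ).Normal]
    [Finite (Γ ⧸ Γ'.subgroupOf Γ)] (h2 : IsPGroup 2 (Γ ⧸ Γ'.subgroupOf Γ)) :
    z1 L Γ' ≤ Γ'.relIndex Γ * z1 L Γ := by
  have h3 := tran_quot hL hΓ hle h2 (1 : Γ →* Module.End (ZMod 2) (ZMod 2)) fun g _ => rfl
  rw [Module.finrank_self, one_mul] at h3
  exact h3

/-- **Transfer for two-groups** -/
theorem tran {L : T' → W → Finset (T × W)} {Γ M : Subgroup W} (hL : LInv L Γ) (hM : M ≤ Γ) [M.FiniteIndex]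
    (hn : (M.subgroupOf Γ).Normal) (h2 : ∀ x ∈ Γ, ∃ k : ℕ, x ^ 2 ^ k ∈ M) {Y : Type} [AddCommGroup Y]
    [Module (ZMod 2) Y] [Module.Finite (ZMod 2) Y] (ρ : Γ →* Module.End (ZMod 2) Y)
    (hρ : ∀ x (h : x ∈ Γ), x ∈ M → ρ ⟨x, h⟩ = 1) :
    Module.finrank (ZMod 2) Y * z1 L M ≤ M.relIndex Γ * Module.finrank (ZMod 2) (ZL L Γ ρ) := by
  refine tran_quot hL le_rfl hM (fun q => ?_) ρ fun g hg => hρ g g.2 hg
  obtain ⟨g, rfl⟩ := QuotientGroup.mk_surjective q
  obtain ⟨k, hk⟩ := h2 g g.2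
  refine ⟨k, ?_⟩
  rw [← QuotientGroup.mk_pow, QuotientGroup.eq_one_iff, Subgroup.mem_subgroupOf]
  exact hk

end Pool.Agent.S10.EA
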