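import Pool.Agent.S10.EA.MinA
import Pool.Agent.S10.EA.Int
import Pool.Agent.S10.EA.Tran
import Pool.Agent.S10.EA.BaseC

/-!
# S10, block EA: the minimal level of the tower
-/

set_option autoImplicit false
set_option linter.unusedSectionVars false

namespace Pool.Agent.S10.EA

open Pool.Agent.S9

variable {V : Type} [DecidableEq V] [Fintype V] {G : SimpleGraph V} {W : Type} [Group W] {T T' : Type}

/-- **the minimal level of the tower**, from integrality, specialisation and transfer -/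
theorem min_ex_of (R : Rac G W) {Φ : Subgroup W} (hΦ : Lev0 R Φ) (L : T' → W → Finset (T × W))
    (int : ∀ (m r : ℕ) (ab : twr Φ m →* Multiplicative (Fin r → ℤ)), Function.Surjective ab →
      (∀ f : twr Φ m →* Multiplicative ℤ, ∀ g, ab g = 1 → f g = 1) →
        (twr Φ m).relIndex Φ ∣ zL L (twr Φ m) (ch (chiab ab)))
    (spec : ∀ (m r : ℕ) (ab : twr Φ m →* Multiplicative (Fin r → ℤ)),
      zL L (twr Φ m) (ch (chiab ab)) ≤ z1 L (twr Φ m))
    (tran : ∀ M M' : Subgroup W, M' ≤ M → M ≤ Φ → M'.FiniteIndex → (M'.subgroupOf M).Normal →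
      (∀ x ∈ M, ∃ k : ℕ, x ^ 2 ^ k ∈ M') → z1 L M' ≤ M'.relIndex M * z1 L M) :
    ∃ (m r : ℕ) (ab : twr Φ m →* Multiplicative (Fin r → ℤ)), Function.Surjective ab ∧
      (∀ f : twr Φ m →* Multiplicative ℤ, ∀ g, ab g = 1 → f g = 1) ∧ MinL L (twr Φ m) ab := by
  obtain ⟨m, r, ab, h1, h2, h3⟩ := min_core R hΦ (fun m r ab => zL L (twr Φ m) (ch (chiab ab))) (z1 L)
    int spec tran
  exact ⟨m, r, ab, h1, h2, fun Q _ _ hQ f => h3 Q hQ f⟩

/-- **the minimal level of the tower** -/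
theorem min_ex [Finite T] [Finite T'] (R : Rac G W) {Φ : Subgroup W} (hΦ : Lev0 R Φ)
    {L : T' → W → Finset (T × W)} (hL : LInv L Φ) :
    ∃ (m r : ℕ) (ab : twr Φ m →* Multiplicative (Fin r → ℤ)), Function.Surjective ab ∧
      (∀ f : twr Φ m →* Multiplicative ℤ, ∀ g, ab g = 1 → f g = 1) ∧ MinL L (twr Φ m) ab := by
  classical
  have hle : ∀ m, twr Φ m ≤ Φ := fun m => twr_anti Φ (Nat.zero_le m)
  refine min_ex_of R hΦ L (fun m r ab h1 h2 => ?_) (fun m r ab => ?_) (fun M M' h1 h2 h3 h4 h5 => ?_)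
  · haveI := hΦ.normal
    haveI := (hΦ.twr m).fin
    exact int_ZL Φ m ab h1 h2 L hL
  · haveI := (hΦ.twr m).normal
    haveI := (hΦ.twr m).fin
    haveI : Fintype (W ⧸ twr Φ m) := Fintype.ofFinite _
    exact zL_spec' L (hL.mono (hle m)) ab (chiab ab) (chiab_coe ab)
  · haveI := h3
    haveI := h4
    haveI : (M'.subgroupOf M).FiniteIndex := inferInstance
    refine tran_one hL h2 h1 ?_
    intro q
    induction q using QuotientGroup.induction_on with
    | H x =>
      obtain ⟨k, hk⟩ := h5 x.1 x.2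
      refine ⟨k, ?_⟩
      rw [← QuotientGroup.mk_pow]
      exact (QuotientGroup.eq_one_iff _).2 (Subgroup.mem_subgroupOf.2 hk)

end Pool.Agent.S10.EA
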