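import Pool.Agent.S9.CofQ

/-!
# S10, block EA: the minimal level of the tower (abstract form)
-/

set_option autoImplicit false

namespace Pool.Agent.S10.EA

open Pool.Agent.S9

variable {V : Type} [DecidableEq V] [Fintype V] {G : SimpleGraph V} {W : Type} [Group W]

/-- there is a level of the tower at which the growth of the character is at most the growth of all quotients of the
level which are finite two-groups -/
theorem min_core (R : Rac G W) {Φ : Subgroup W} (hΦ : Lev0 R Φ)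
    (zz : ∀ m r : ℕ, (twr Φ m →* Multiplicative (Fin r → ℤ)) → ℕ) (zo : Subgroup W → ℕ)
    (int : ∀ (m r : ℕ) (ab : twr Φ m →* Multiplicative (Fin r → ℤ)), Function.Surjective ab →
      (∀ f : twr Φ m →* Multiplicative ℤ, ∀ g, ab g = 1 → f g = 1) →
        (twr Φ m).relIndex Φ ∣ zz m r ab)
    (spec : ∀ (m r : ℕ) (ab : twr Φ m →* Multiplicative (Fin r → ℤ)), zz m r ab ≤ zo (twr Φ m))
    (tran : ∀ M M' : Subgroup W, M' ≤ M → M ≤ Φ → M'.FiniteIndex → (M'.subgroupOf M).Normal →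
      (∀ x ∈ M, ∃ k : ℕ, x ^ 2 ^ k ∈ M') → zo M' ≤ M'.relIndex M * zo M) :
    ∃ (m r : ℕ) (ab : twr Φ m →* Multiplicative (Fin r → ℤ)), Function.Surjective ab ∧
      (∀ f : twr Φ m →* Multiplicative ℤ, ∀ g, ab g = 1 → f g = 1) ∧
      ∀ (Q : Type) [Group Q] [Finite Q], IsPGroup 2 Q → ∀ f : twr Φ m →* Q,
        Nat.card f.range * zz m r ab ≤ zo (f.ker.map (twr Φ m).subtype) := by
  classical
  haveI := hΦ.fin
  haveI := hΦ.normal
  haveI := R.fg
  have hfi : ∀ m, (twr Φ m).FiniteIndex := fun m => (hΦ.twr m).fin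
  have hno : ∀ m, (twr Φ m).Normal := fun m => (hΦ.twr m).normal
  have hle : ∀ m, twr Φ m ≤ Φ := fun m => twr_anti Φ (Nat.zero_le m)
  -- the coordinates of a level
  have hco : ∀ m : ℕ, ∃ (r : ℕ) (ab : twr Φ m →* Multiplicative (Fin r → ℤ)) (b : ℕ),
      Function.Surjective ab ∧ (∀ f : twr Φ m →* Multiplicative ℤ, ∀ g, ab g = 1 → f g = 1) ∧
        zz m r ab = (twr Φ m).relIndex Φ * b := by
    intro m
    haveI := hfi m
    haveI : Group.FG (twr Φ m) := Subgroup.fg_of_index_ne_zero _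
    obtain ⟨r, c, hc, hf⟩ := exists_coord (twr Φ m)
    have h0 : ∀ f : twr Φ m →* Multiplicative ℤ, ∀ g, c g = 1 → f g = 1 := by
      intro f g hg
      obtain ⟨y, hy⟩ := hf f
      apply Multiplicative.toAdd.injective
      rw [hy, hg]
      simp
    obtain ⟨b, hb⟩ := int m r c hc h0
    exact ⟨r, c, b, hc, h0, hb⟩
  let S : Set ℕ := {b | ∃ (m r : ℕ) (ab : twr Φ m →* Multiplicative (Fin r → ℤ)),
    Function.Surjective ab ∧ (∀ f : twr Φ m →* Multiplicative ℤ, ∀ g, ab g = 1 → f g = 1) ∧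
      zz m r ab = (twr Φ m).relIndex Φ * b}
  have hS : S.Nonempty := by
    obtain ⟨r, ab, b, h1, h2, h3⟩ := hco 0
    exact ⟨b, 0, r, ab, h1, h2, h3⟩
  obtain ⟨m, r, ab, h1, h2, h3⟩ := Nat.sInf_mem hS
  refine ⟨m, r, ab, h1, h2, fun Q _ _ hQ f => ?_⟩
  set M : Subgroup W := f.ker.map (twr Φ m).subtype with hM
  have hMle : M ≤ twr Φ m := by
    rintro _ ⟨x, _, rfl⟩
    exact x.2
  have hMk : M.subgroupOf (twr Φ m) = f.ker := by
    ext x
    rw [Subgroup.mem_subgroupOf]
    constructor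
    · rintro ⟨y, hy, hyx⟩
      have : y = x := Subtype.ext hyx
      rwa [← this]
    · intro hx
      exact ⟨x, hx, rfl⟩
  have hMi : M.relIndex (twr Φ m) = Nat.card f.range := by
    rw [Subgroup.relIndex, hMk, Subgroup.index_ker]
  obtain ⟨m', hmm, hf'⟩ := T_levP R hΦ m hQ f
  have hM' : twr Φ m' ≤ M := by
    intro x hx
    exact ⟨⟨x, twr_anti Φ hmm hx⟩, hf' x hx _, rfl⟩
  obtain ⟨r', ab', b', h1', h2', h3'⟩ := hco m'
  have hb : sInf S ≤ b' := Nat.sInf_le ⟨m', r', ab', h1', h2', h3'⟩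
  have ht := tran M (twr Φ m') hM' (hMle.trans (hle m)) (hfi m')
    (by haveI := hno m'; exact Subgroup.normal_subgroupOf) (fun x hx => two_twr m' (hle m (hMle hx)))
  have hs := spec m' r' ab'
  have hrel1 : (twr Φ m').relIndex M * M.relIndex (twr Φ m) = (twr Φ m').relIndex (twr Φ m) :=
    Subgroup.relIndex_mul_relIndex _ _ _ hM' hMle
  have hrel2 : (twr Φ m').relIndex (twr Φ m) * (twr Φ m).relIndex Φ = (twr Φ m').relIndex Φ :=
    Subgroup.relIndex_mul_relIndex _ _ _ (twr_anti Φ hmm) (hle m)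
  have hpos : 0 < (twr Φ m').relIndex M := by
    have h4 := Subgroup.relIndex_mul_index hM'
    rcases Nat.eq_zero_or_pos ((twr Φ m').relIndex M) with h5 | h5
    · rw [h5, zero_mul] at h4
      exact absurd h4.symm (hfi m').index_ne_zero
    · exact h5
  have hfin : (twr Φ m').relIndex M * (Nat.card f.range * zz m r ab) ≤ (twr Φ m').relIndex M * zo M := by
    calc (twr Φ m').relIndex M * (Nat.card f.range * zz m r ab)
        = (twr Φ m').relIndex Φ * sInf S := by
          rw [← hMi, h3, ← hrel2, ← hrel1]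
          ring
      _ ≤ (twr Φ m').relIndex Φ * b' := Nat.mul_le_mul_left _ hb
      _ = zz m' r' ab' := h3'.symm
      _ ≤ zo (twr Φ m') := hs
      _ ≤ _ := ht
  exact Nat.le_of_mul_le_mul_left hfin hpos

end Pool.Agent.S10.EA
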