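import Pool.Agent.S10.EA.Tran

/-!
# Project S10, block E: transfer to the kernel of a homomorphism to a finite 2-group, the lower bound
-/

set_option autoImplicit false
set_option linter.unusedSectionVars false

open Finset

namespace Pool.Agent.S10.EA

open Pool.Agent.S9

variable {W : Type} [Group W] {T T' : Type} {L : T' → W → Finset (T × W)} {Γ Φ : Subgroup W}
  {Y : Type} [AddCommGroup Y] [Module (ZMod 2) Y]

theorem subgroupOf_ker {Q : Type} [Group Q] (f : Γ →* Q) : (f.ker.map Γ.subtype).subgroupOf Γ = f.ker :=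
  Subgroup.comap_map_eq_self_of_injective Subtype.coe_injective f.ker

theorem mem_ker_map {Q : Type} [Group Q] (f : Γ →* Q) (g : Γ) : (g : W) ∈ f.ker.map Γ.subtype ↔ f g = 1 := by
  have h := Subgroup.mem_subgroupOf (H := f.ker.map Γ.subtype) (K := Γ) (h := g)
  rw [subgroupOf_ker f, MonoidHom.mem_ker] at h
  exact h.symm

/-- **Transfer to the kernel of a homomorphism to a finite 2-group** -/
theorem tran_hom (hL : LInv L Φ) (hΓ : Γ ≤ Φ) {Q : Type} [Group Q] [Finite Q] (hQ : IsPGroup 2 Q) (f : Γ →* Q)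
    [FiniteDimensional (ZMod 2) Y] (ρ : Γ →* Module.End (ZMod 2) Y) (h1 : ∀ g, f g = 1 → ρ g = 1) :
    Module.finrank (ZMod 2) Y * z1 L (f.ker.map Γ.subtype) ≤
      Nat.card f.range * Module.finrank (ZMod 2) (ZL L Γ ρ) := by
  have hs := subgroupOf_ker f
  have hn : ((f.ker.map Γ.subtype).subgroupOf Γ).Normal := by
    rw [hs]
    infer_instance
  have hf : Finite (Γ ⧸ (f.ker.map Γ.subtype).subgroupOf Γ) := by
    rw [hs]
    exact Finite.of_equiv _ (QuotientGroup.quotientKerEquivRange f).symm.toEquiv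
  have hp : IsPGroup 2 (Γ ⧸ (f.ker.map Γ.subtype).subgroupOf Γ) := by
    intro q
    obtain ⟨g, rfl⟩ := QuotientGroup.mk_surjective q
    obtain ⟨k, hk⟩ := hQ (f g)
    refine ⟨k, ?_⟩
    rw [← QuotientGroup.mk_pow, QuotientGroup.eq_one_iff, hs, MonoidHom.mem_ker, map_pow]
    exact hk
  have h2 := tran_quot hL hΓ (Subgroup.map_subtype_le f.ker) hp ρ fun g hg => h1 g ((mem_ker_map f g).1 hg)
  have h3 : (f.ker.map Γ.subtype).relIndex Γ = Nat.card f.range := by
    rw [Subgroup.relIndex, hs, Subgroup.index_ker]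
  rw [h3] at h2
  exact h2

/-- transfer with trivial coefficients, with explicit hypotheses -/
theorem tran_M (hL : LInv L Φ) (M M' : Subgroup W) (hle : M' ≤ M) (hM : M ≤ Φ) (hf : M'.FiniteIndex)
    (hn : (M'.subgroupOf M).Normal) (h2 : ∀ x ∈ M, ∃ k : ℕ, x ^ 2 ^ k ∈ M') :
    z1 L M' ≤ M'.relIndex M * z1 L M := by
  refine tran_one hL hM hle fun q => ?_
  obtain ⟨g, rfl⟩ := QuotientGroup.mk_surjective q
  obtain ⟨k, hk⟩ := h2 g g.2
  refine ⟨k, ?_⟩
  rw [← QuotientGroup.mk_pow, QuotientGroup.eq_one_iff, Subgroup.mem_subgroupOf]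
  exact hk

/-- **The lower bound**: at the minimal level the dimension of the solutions with coefficients in `Y` is at least
`dim Y` times the dimension for the character -/
theorem MinL.le {I : Type} {ab : Γ →* Multiplicative (I → ℤ)} (hmin : MinL L Γ ab) (hL : LInv L Φ) (hΓ : Γ ≤ Φ)
    {Q : Type} [Group Q] [Finite Q] (hQ : IsPGroup 2 Q) (f : Γ →* Q)
    [FiniteDimensional (ZMod 2) Y] (ρ : Γ →* Module.End (ZMod 2) Y) (h1 : ∀ g, f g = 1 → ρ g = 1) :
    Module.finrank (ZMod 2) Y * zL L Γ (ch (chiab ab)) ≤ Module.finrank (ZMod 2) (ZL L Γ ρ) := by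
  have h2 := tran_hom hL hΓ hQ f ρ h1
  have h3 := hmin Q hQ f
  have h4 : 0 < Nat.card f.range := Nat.card_pos
  refine Nat.le_of_mul_le_mul_left ?_ h4
  calc Nat.card f.range * (Module.finrank (ZMod 2) Y * zL L Γ (ch (chiab ab)))
      = Module.finrank (ZMod 2) Y * (Nat.card f.range * zL L Γ (ch (chiab ab))) := by ring
    _ ≤ Module.finrank (ZMod 2) Y * z1 L (f.ker.map Γ.subtype) := Nat.mul_le_mul_left _ h3
    _ ≤ _ := h2

end Pool.Agent.S10.EA
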